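import Pool.Agent.Lib.UIPQ.BDefs
import Pool.Agent.Lib.UIPQ.A.Cut

/-!
# Bip: quadrangulations are planar and bipartite

PROOF. `IsQuad` contains connectedness and the Euler relation, so m is Planar. Apply `cut_form` with G = 1: the sum of 1 over an
f-orbit is the number of its elements mod 2, i.e. minimalPeriod = 4 = 0 in ZMod 2 (the orbit of x under a permutation of a
finite set has minimalPeriod elements). So 1 = c x + c (k x), i.e. c (k x) = c x + 1. `no_loop`: c is constant on the r-orbits.
`card_face`: every face has 4 darts: 4 * Nat.card Face = Nat.card X; with euler: 4 * Nat.card Vertex = Nat.card X + 8, and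
conversely (`isQuad_iff`).
-/

namespace UIPQ

variable {X : Type} [Fintype X]

/-- the cardinality of an orbit -/
private theorem bip_card (σ : Equiv.Perm X) (x : X) [DecidablePred fun y => σ.SameCycle x y] :
    (Finset.univ.filter (fun y => σ.SameCycle x y)).card = Function.minimalPeriod σ x := by
  classical
  have h1 : Finset.univ.filter (fun y => σ.SameCycle x y) =
      (Finset.range (Function.minimalPeriod σ x)).image (fun i => σ^[i] x) := by
    ext y
    simp only [Finset.mem_filter, Finset.mem_univ, true_and, Finset.mem_image, Finset.mem_range]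
    constructor
    · intro h
      obtain ⟨i, hi⟩ := h.exists_nat_pow_eq
      have hpos : 0 < Function.minimalPeriod σ x := by
        refine Function.minimalPeriod_pos_of_mem_periodicPts ?_
        exact σ.injective.mem_periodicPts x
      refine ⟨i % Function.minimalPeriod σ x, Nat.mod_lt _ hpos, ?_⟩
      rw [Function.iterate_mod_minimalPeriod_eq, ← hi, Equiv.Perm.iterate_eq_pow]
    · rintro ⟨i, -, rfl⟩
      rw [Equiv.Perm.iterate_eq_pow]
      exact ⟨i, by rw [zpow_natCast]⟩
  rw [h1, Finset.card_image_of_injOn, Finset.card_range]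
  intro i hi j hj hij
  exact Function.iterate_injOn_Iio_minimalPeriod (Finset.mem_range.1 hi) (Finset.mem_range.1 hj) hij

theorem quad_planar (m : CMap X) (h : m.IsQuad) : m.Planar := ⟨h.conn, h.euler⟩

theorem quad_bip (m : CMap X) (h : m.IsQuad) :
    ∃ c : X → ZMod 2, (∀ x, c (m.r x) = c x) ∧ ∀ x, c (m.k x) = c x + 1 := by
  classical
  obtain ⟨c, h1, h2⟩ := cut_form m (quad_planar m h) (fun _ => 1) (fun _ => rfl) (fun x => by
    unfold orbSum
    rw [Finset.sum_const, bip_card, h.face4]
    decide)
  refine ⟨c, h1, fun x => ?_⟩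
  have h3 := h2 x
  generalize c x = a at *
  generalize c (m.k x) = b at *
  revert a b
  decide

/-- No loops. -/
theorem no_loop (m : CMap X) (h : m.IsQuad) (x : X) : ¬ m.r.SameCycle x (m.k x) := by
  obtain ⟨c, h1, h2⟩ := quad_bip m h
  intro hs
  obtain ⟨i, hi⟩ := hs.exists_nat_pow_eq
  have h3 : ∀ i : ℕ, c ((m.r ^ i) x) = c x := by
    intro i
    induction i with
    | zero => rfl
    | succ i ih => rw [pow_succ', Equiv.Perm.mul_apply, h1, ih]
  have h4 := h2 x
  rw [← hi, h3] at h4
  exact one_ne_zero (left_eq_add.1 h4)

theorem card_face (m : CMap X) (h : ∀ x, Function.minimalPeriod m.f x = 4) :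
    4 * Nat.card m.Face = Nat.card X := by
  classical
  have hfin : Finite m.Face := inferInstanceAs (Finite (Quotient _))
  have _ : Fintype m.Face := Fintype.ofFinite _
  let q : X → m.Face := fun x => Quotient.mk (Equiv.Perm.SameCycle.setoid m.f) x
  have h1 := Finset.card_eq_sum_card_fiberwise (s := (Finset.univ : Finset X)) (t := Finset.univ)
    (f := q) (fun _ _ => Finset.mem_coe.2 (Finset.mem_univ _))
  have h2 : ∀ φ : m.Face, (Finset.univ.filter (fun y : X => q y = φ)).card = 4 := by
    intro φ
    obtain ⟨x, rfl⟩ := Quotient.exists_rep φ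
    rw [← h x, ← bip_card m.f x]
    congr 1
    ext y
    simp only [Finset.mem_filter, Finset.mem_univ, true_and]
    constructor
    · intro hy
      exact Equiv.Perm.SameCycle.symm (Quotient.exact hy)
    · intro hy
      exact Quotient.sound (Equiv.Perm.SameCycle.symm hy)
  rw [Finset.sum_congr rfl fun φ _ => h2 φ, Finset.sum_const, smul_eq_mul, Finset.card_univ,
    Finset.card_univ] at h1
  rw [Nat.card_eq_fintype_card, Nat.card_eq_fintype_card, h1, mul_comm]

theorem isQuad_iff (m : CMap X) (hc : m.Connected) (h : ∀ x, Function.minimalPeriod m.f x = 4) :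
    m.IsQuad ↔ 4 * Nat.card m.Vertex = Nat.card X + 8 := by
  have h1 := card_face m h
  constructor
  · intro h2
    have h3 := h2.euler
    omega
  · intro h2
    exact ⟨hc, h, by omega⟩

end UIPQ
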