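import Pool.Agent.Lib.UIPQ.BDefs

/-!
# FormH: elementary facts on capH and the weights

PROOF. The set in the definition of capH T is a nonempty set of reals ≥ lam (EH ≥ 0 and ∑ χ² ≥ χ(T)² = 1). So
capH ≥ lam > 0, capH ≤ each element (csInf_le), and there is an element < 2 capH (exists_lt_of_csInf_lt).
`W_mul_le`: W capH ≤ (κ/capH) capH = κ.
-/

namespace UIPQ

open Finset

variable {X : Type} [Fintype X]

private theorem EH_nonneg (m : CMap X) (χ : X → ℝ) : 0 ≤ m.EH χ := by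
  unfold CMap.EH
  have h1 : 0 ≤ ∑ x : X, (χ x - χ (m.k x)) ^ 2 := Finset.sum_nonneg fun x _ => sq_nonneg _
  have h2 : 0 ≤ ∑ x : X, (χ x - χ (m.r x)) ^ 2 := Finset.sum_nonneg fun x _ => sq_nonneg _
  linarith

private theorem capH_lb (m : CMap X) {lam : ℝ} (hl : 0 < lam) (T : X) :
    0 ∈ lowerBounds {e | ∃ χ : X → ℝ, χ T = 1 ∧ e = m.EH χ + lam * ∑ y : X, χ y ^ 2} := by
  rintro e ⟨χ, -, rfl⟩
  have h1 := EH_nonneg m χ
  have h2 : 0 ≤ ∑ y : X, χ y ^ 2 := Finset.sum_nonneg fun x _ => sq_nonneg _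
  have h3 := mul_nonneg hl.le h2
  linarith

private theorem capH_ne (m : CMap X) (lam : ℝ) (T : X) :
    {e | ∃ χ : X → ℝ, χ T = 1 ∧ e = m.EH χ + lam * ∑ y : X, χ y ^ 2}.Nonempty :=
  ⟨_, fun _ => 1, rfl, rfl⟩

theorem capH_le_of (m : CMap X) {lam : ℝ} (hl : 0 < lam) (T : X) (χ : X → ℝ) (h : χ T = 1) :
    m.capH lam T ≤ m.EH χ + lam * ∑ y, χ y ^ 2 := by
  exact csInf_le ⟨0, capH_lb m hl T⟩ ⟨χ, h, rfl⟩

theorem le_capH (m : CMap X) {lam : ℝ} (hl : 0 < lam) (T : X) : lam ≤ m.capH lam T := by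
  refine le_csInf (capH_ne m lam T) ?_
  rintro e ⟨χ, h, rfl⟩
  have h1 := EH_nonneg m χ
  have h2 : χ T ^ 2 ≤ ∑ y : X, χ y ^ 2 :=
    Finset.single_le_sum (f := fun y => χ y ^ 2) (fun y _ => sq_nonneg _) (Finset.mem_univ T)
  rw [h, one_pow] at h2
  nlinarith

theorem exists_capH (m : CMap X) {lam : ℝ} (hl : 0 < lam) (T : X) :
    ∃ χ : X → ℝ, χ T = 1 ∧ m.EH χ + lam * ∑ y, χ y ^ 2 ≤ 2 * m.capH lam T := by
  have h0 : 0 < m.capH lam T := hl.trans_le (le_capH m hl T)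
  obtain ⟨e, ⟨χ, h, rfl⟩, he⟩ := exists_lt_of_csInf_lt (capH_ne m lam T)
    (show sInf {e | ∃ χ : X → ℝ, χ T = 1 ∧ e = m.EH χ + lam * ∑ y : X, χ y ^ 2} < 2 * m.capH lam T from by
      show m.capH lam T < 2 * m.capH lam T
      linarith)
  exact ⟨χ, h, he.le⟩

theorem W_pos (m : CMap X) {lam κ : ℝ} (hl : 0 < lam) (hκ : 0 < κ) (T : X) : 0 < m.W lam κ T := by
  exact lt_min one_pos (div_pos hκ (hl.trans_le (le_capH m hl T)))

theorem W_le_one (m : CMap X) (lam κ : ℝ) (T : X) : m.W lam κ T ≤ 1 := by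
  exact min_le_left _ _

theorem W_mul_le (m : CMap X) {lam κ : ℝ} (hl : 0 < lam) (hκ : 0 < κ) (T : X) :
    m.W lam κ T * m.capH lam T ≤ κ := by
  have h0 : 0 < m.capH lam T := hl.trans_le (le_capH m hl T)
  have h1 : m.W lam κ T ≤ κ / m.capH lam T := min_le_right _ _
  exact (le_div_iff₀ h0).1 h1

end UIPQ
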