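import Pool.Agent.Lib.UIPQ.B.Form
import Pool.Agent.Lib.UIPQ.B.FormH

/-!
# Comp: the competitor built from the dart graph

PROOF. Write e_T x = be (pot T) (pot T) x ≥ 0, g x = max (deg x) (deg (k x))² ≥ 1. (deg x = size of the r-orbit of x.)
`sum_pi`: ∑_x pi x = ∑_T W T cap T (exchange the sums, cap_eq).
Fix T, χ from `exists_capH`. Choose for every r-orbit a representative, T for the orbit of T; rep x = representative of the orbit of x.
ũ x = χ (rep x): r-invariant, ũ T = 1. For x, x' in the same orbit: (χ x - χ x')² ≤ deg x · D x, D x = ∑_{z in the orbit of x} (χ z - χ (r z))²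
(Cauchy-Schwarz along the orbit). (ũ x - ũ (kx))² ≤ 3 (deg x D x + (χ x - χ (kx))² + deg (kx) D (kx)). So
∑_x be ũ ũ x / g x ≤ (1/2) ∑_x 3 (...)/g x + (lam/2) ∑ (ũ x² + ũ(kx)²)/g x
 ≤ 3 ∑_x D x/deg x + (3/2) ∑_x (χ x - χ(kx))² + lam ∑_x ũ x²/(deg x)² ≤ 3 ∑_z (χ z - χ(r z))² + 3/2 ∑ (..)² + lam ∑ χ² ≤ 3 (EH χ + lam ∑ χ²) ≤ 6 capH T
(g x ≥ (deg x)², g x ≥ (deg (kx))², ∑_{x in an orbit} D x/deg x = D, ∑_{x in an orbit} ũ x²/(deg x)² ≤ χ(rep)²).
cap T = beta (pot T) ũ (beta_pot) ≤ ∑_x √(e_T x) √(be ũ ũ x) ≤ √(∑_x g x e_T x) √(6 capH T) (be_cs, Cauchy-Schwarz).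
∑_T W T cap T ≤ ∑_T √(W T ∑_x g x e_T x) √(6 W T capH T) ≤ √(∑_x g x pi x) √(6 κ |X|) (W_mul_le). Square; and
∑_x g x pi x ≤ ∑_x ((deg x)² + (deg (kx))²) pi x = 2 ∑_x (deg x)² pi x (pi (k x) = pi x, be_k).
`Phi_le_card`: W ≤ 1, cap T ≤ lam |X|: ∑_x pi x ≤ lam |X|².
-/

namespace UIPQ

open Finset

variable {X : Type} [Fintype X]

private theorem comp_deg_pos (m : CMap X) (x : X) : 0 < m.deg x := by
  have h1 : (m.r : X → X)^[orderOf m.r] x = x := by
    have h2 := congrFun (congrArg (fun σ : Equiv.Perm X => (σ : X → X)) (pow_orderOf_eq_one m.r)) x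
    rw [← Equiv.Perm.coe_pow] 
    exact h2
  exact Function.IsPeriodicPt.minimalPeriod_pos (orderOf_pos m.r) h1

private theorem comp_same (m : CMap X) (x y : X) : m.r.SameCycle x y ↔ ∃ j < m.deg x, (m.r)^[j] x = y := by
  constructor
  · intro h
    obtain ⟨i, hi⟩ := h.exists_nat_pow_eq
    refine ⟨i % m.deg x, Nat.mod_lt _ (comp_deg_pos m x), ?_⟩
    have h1 : (m.r : X → X)^[i % m.deg x] x = (m.r : X → X)^[i] x := Function.iterate_mod_minimalPeriod_eq
    rw [h1, ← Equiv.Perm.coe_pow]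
    exact hi
  · rintro ⟨j, -, rfl⟩
    refine ⟨(j : ℤ), ?_⟩
    rw [zpow_natCast, Equiv.Perm.coe_pow]

open Classical in
private theorem comp_orb (m : CMap X) (x : X) (F : X → ℝ) :
    ∑ z ∈ univ.filter (fun z => m.r.SameCycle x z), F z = ∑ j ∈ range (m.deg x), F ((m.r)^[j] x) := by
  symm
  refine Finset.sum_bij (fun j _ => (m.r)^[j] x) ?_ ?_ ?_ ?_
  · intro j hj
    rw [mem_filter]
    exact ⟨mem_univ _, (comp_same m x _).2 ⟨j, mem_range.1 hj, rfl⟩⟩
  · intro i hi j hj hij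
    exact Function.iterate_injOn_Iio_minimalPeriod (mem_range.1 hi) (mem_range.1 hj) hij
  · intro z hz
    rw [mem_filter] at hz
    obtain ⟨j, hj, h⟩ := (comp_same m x z).1 hz.2
    exact ⟨j, mem_range.2 hj, h⟩
  · intro j _
    rfl

open Classical in
private theorem comp_card (m : CMap X) (x : X) :
    ((univ.filter (fun z => m.r.SameCycle x z)).card : ℝ) = m.deg x := by
  have h := comp_orb m x (fun _ => 1)
  simpa using h

private theorem comp_deg_eq (m : CMap X) {x y : X} (h : m.r.SameCycle x y) : m.deg x = m.deg y := by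
  classical
  have h1 := comp_card m x
  have h2 := comp_card m y
  have h3 : (univ.filter (fun z => m.r.SameCycle x z)) = univ.filter (fun z => m.r.SameCycle y z) := by
    ext z
    rw [mem_filter, mem_filter]
    exact ⟨fun hz => ⟨mem_univ _, h.symm.trans hz.2⟩, fun hz => ⟨mem_univ _, h.trans hz.2⟩⟩
  rw [h3, h2] at h1
  exact_mod_cast h1.symm

open Classical in
/-- averaging over the orbits preserves the sum -/
private theorem comp_avg (m : CMap X) (F : X → ℝ) :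
    ∑ x, (∑ z ∈ univ.filter (fun z => m.r.SameCycle x z), F z) / (m.deg x : ℝ) = ∑ z, F z := by
  have h1 : ∀ x, (∑ z ∈ univ.filter (fun z => m.r.SameCycle x z), F z) / (m.deg x : ℝ) =
      ∑ z, if m.r.SameCycle x z then F z / (m.deg x : ℝ) else 0 := by
    intro x
    rw [Finset.sum_div, Finset.sum_filter]
  simp only [h1]
  rw [Finset.sum_comm]
  refine Finset.sum_congr rfl fun z _ => ?_
  have h2 : ∑ x, (if m.r.SameCycle x z then F z / (m.deg x : ℝ) else 0) =
      ∑ x ∈ univ.filter (fun x => m.r.SameCycle z x), F z / (m.deg z : ℝ) := by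
    rw [Finset.sum_filter]
    refine Finset.sum_congr rfl fun x _ => ?_
    by_cases h : m.r.SameCycle x z
    · rw [if_pos h, if_pos h.symm, comp_deg_eq m h]
    · rw [if_neg h, if_neg fun h' => h h'.symm]
  rw [h2, Finset.sum_const, nsmul_eq_mul, comp_card]
  have h3 : (0 : ℝ) < m.deg z := by exact_mod_cast comp_deg_pos m z
  field_simp

open Classical in
/-- oscillation on an orbit -/
private theorem comp_osc (m : CMap X) (χ : X → ℝ) {x y : X} (h : m.r.SameCycle x y) :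
    (χ y - χ x) ^ 2 ≤ m.deg x * ∑ z ∈ univ.filter (fun z => m.r.SameCycle x z), (χ z - χ (m.r z)) ^ 2 := by
  obtain ⟨i, hi, rfl⟩ := (comp_same m x y).1 h
  rw [comp_orb m x (fun z => (χ z - χ (m.r z)) ^ 2)]
  have h1 : χ ((m.r)^[i] x) - χ x = ∑ j ∈ range i, (χ ((m.r)^[j + 1] x) - χ ((m.r)^[j] x)) := by
    rw [Finset.sum_range_sub (fun j => χ ((m.r)^[j] x)) i]
    rfl
  rw [h1]
  refine sq_sum_le_card_mul_sum_sq.trans ?_
  rw [Finset.card_range]
  refine mul_le_mul (by exact_mod_cast hi.le) ?_ (Finset.sum_nonneg fun j _ => sq_nonneg _) (Nat.cast_nonneg _)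
  have h2 : ∀ j, (χ ((m.r)^[j + 1] x) - χ ((m.r)^[j] x)) ^ 2 = (χ ((m.r)^[j] x) - χ (m.r ((m.r)^[j] x))) ^ 2 := by
    intro j
    rw [Function.iterate_succ_apply']
    ring
  simp only [h2]
  exact Finset.sum_le_sum_of_subset_of_nonneg (Finset.range_mono hi.le) fun j _ _ => sq_nonneg _

theorem sum_pi (m : CMap X) {lam : ℝ} (hl : 0 < lam) (κ : ℝ) :
    ∑ x, m.pi lam κ x = ∑ T, m.W lam κ T * m.cap lam T := by
  unfold CMap.pi
  rw [Finset.sum_comm]
  refine Finset.sum_congr rfl fun T _ => ?_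
  rw [← Finset.mul_sum, cap_eq m hl T]
  rfl

theorem comp_energy (m : CMap X) {lam : ℝ} (hl : 0 < lam) (T : X) :
    ∃ u : X → ℝ, m.RInv u ∧ u T = 1 ∧
      ∑ x, m.be lam u u x / (max (m.deg x : ℝ) (m.deg (m.k x))) ^ 2 ≤ 6 * m.capH lam T := by
  classical
  obtain ⟨χ, hχT, hχ⟩ := exists_capH m hl T
  -- representatives
  let rep : X → X := fun x => if m.r.SameCycle T x then T else (m.vert x).out
  have hrep : ∀ x, m.r.SameCycle x (rep x) := by
    intro x
    by_cases h : m.r.SameCycle T x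
    · show m.r.SameCycle x (if m.r.SameCycle T x then T else (m.vert x).out)
      rw [if_pos h]
      exact h.symm
    · show m.r.SameCycle x (if m.r.SameCycle T x then T else (m.vert x).out)
      rw [if_neg h]
      have h1 : (Quotient.mk (Equiv.Perm.SameCycle.setoid m.r) (m.vert x).out) = m.vert x := Quotient.out_eq _
      exact (Quotient.exact h1).symm
  have hrr : ∀ x, rep (m.r x) = rep x := by
    intro x
    have h0 : m.r.SameCycle x (m.r x) := ⟨1, by rw [zpow_one]⟩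
    have h1 : m.vert (m.r x) = m.vert x := Quotient.sound h0.symm
    show (if m.r.SameCycle T (m.r x) then T else (m.vert (m.r x)).out) =
      if m.r.SameCycle T x then T else (m.vert x).out
    by_cases h : m.r.SameCycle T x
    · rw [if_pos h, if_pos (h.trans h0)]
    · rw [if_neg h, if_neg fun h' => h (h'.trans h0.symm), h1]
  have hrT : rep T = T := if_pos (Equiv.Perm.SameCycle.refl _ _)
  refine ⟨fun x => χ (rep x), fun x => by show χ (rep (m.r x)) = χ (rep x); rw [hrr], by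
    show χ (rep T) = 1
    rw [hrT, hχT], ?_⟩
  set D : X → ℝ := fun x => ∑ z ∈ univ.filter (fun z => m.r.SameCycle x z), (χ z - χ (m.r z)) ^ 2 with hD
  set S : X → ℝ := fun x => ∑ z ∈ univ.filter (fun z => m.r.SameCycle x z), (χ z) ^ 2 with hS
  have hD0 : ∀ x, 0 ≤ D x := fun x => Finset.sum_nonneg fun z _ => sq_nonneg _
  have hS0 : ∀ x, 0 ≤ S x := fun x => Finset.sum_nonneg fun z _ => sq_nonneg _
  have hosc : ∀ x, (χ (rep x) - χ x) ^ 2 ≤ m.deg x * D x := fun x => comp_osc m χ (hrep x)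
  have hsq : ∀ x, (χ (rep x)) ^ 2 ≤ S x := fun x =>
    Finset.single_le_sum (f := fun z => (χ z) ^ 2) (fun z _ => sq_nonneg _)
      (mem_filter.2 ⟨mem_univ _, hrep x⟩)
  have hd1 : ∀ x, (1 : ℝ) ≤ m.deg x := fun x => by exact_mod_cast comp_deg_pos m x
  have hterm : ∀ x, m.be lam (fun x => χ (rep x)) (fun x => χ (rep x)) x /
      (max (m.deg x : ℝ) (m.deg (m.k x))) ^ 2 ≤
      (3 * (D x / m.deg x + (χ x - χ (m.k x)) ^ 2 + D (m.k x) / m.deg (m.k x)) +
        lam * (S x / m.deg x) + lam * (S (m.k x) / m.deg (m.k x))) / 2 := by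
    intro x
    have ha := hd1 x
    have hb := hd1 (m.k x)
    obtain ⟨a, haa⟩ : ∃ a : ℝ, a = (m.deg x : ℝ) := ⟨_, rfl⟩
    obtain ⟨b, hbb⟩ : ∃ b : ℝ, b = (m.deg (m.k x) : ℝ) := ⟨_, rfl⟩
    rw [← haa, ← hbb]
    rw [← haa] at ha
    rw [← hbb] at hb
    have hM1 : a ≤ max a b := le_max_left _ _
    have hM2 : b ≤ max a b := le_max_right _ _
    set M := max a b with hM
    have hM0 : 0 < M ^ 2 := by positivity
    rw [div_le_iff₀ hM0]
    have h1 : D x * a ≤ D x / a * M ^ 2 := by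
      rw [div_mul_eq_mul_div, le_div_iff₀ (by linarith)]
      have : a * a ≤ M ^ 2 := by nlinarith
      calc D x * a * a = D x * (a * a) := by ring
        _ ≤ D x * M ^ 2 := mul_le_mul_of_nonneg_left this (hD0 x)
    have h2 : D (m.k x) * b ≤ D (m.k x) / b * M ^ 2 := by
      rw [div_mul_eq_mul_div, le_div_iff₀ (by linarith)]
      have : b * b ≤ M ^ 2 := by nlinarith
      calc D (m.k x) * b * b = D (m.k x) * (b * b) := by ring
        _ ≤ D (m.k x) * M ^ 2 := mul_le_mul_of_nonneg_left this (hD0 _)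
    have h3 : (χ x - χ (m.k x)) ^ 2 ≤ (χ x - χ (m.k x)) ^ 2 * M ^ 2 := by
      have : 1 ≤ M ^ 2 := by nlinarith
      nlinarith [sq_nonneg (χ x - χ (m.k x))]
    have h4 : S x ≤ S x / a * M ^ 2 := by
      rw [div_mul_eq_mul_div, le_div_iff₀ (by linarith)]
      have : a ≤ M ^ 2 := by nlinarith
      exact mul_le_mul_of_nonneg_left this (hS0 x)
    have h5 : S (m.k x) ≤ S (m.k x) / b * M ^ 2 := by
      rw [div_mul_eq_mul_div, le_div_iff₀ (by linarith)]
      have : b ≤ M ^ 2 := by nlinarith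
      exact mul_le_mul_of_nonneg_left this (hS0 _)
    have h6 := hosc x
    have h7 := hosc (m.k x)
    rw [← haa] at h6
    rw [← hbb] at h7
    have h8 := hsq x
    have h9 := hsq (m.k x)
    have h10 : (χ (rep x) - χ (rep (m.k x))) ^ 2 ≤
        3 * ((χ (rep x) - χ x) ^ 2 + (χ x - χ (m.k x)) ^ 2 + (χ (rep (m.k x)) - χ (m.k x)) ^ 2) := by
      nlinarith [sq_nonneg ((χ (rep x) - χ x) - (χ x - χ (m.k x))),
        sq_nonneg ((χ (rep x) - χ x) + (χ (rep (m.k x)) - χ (m.k x))),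
        sq_nonneg ((χ x - χ (m.k x)) + (χ (rep (m.k x)) - χ (m.k x)))]
    have h11 : lam * (χ (rep x)) ^ 2 ≤ lam * (S x / a * M ^ 2) :=
      mul_le_mul_of_nonneg_left (h8.trans h4) hl.le
    have h12 : lam * (χ (rep (m.k x))) ^ 2 ≤ lam * (S (m.k x) / b * M ^ 2) :=
      mul_le_mul_of_nonneg_left (h9.trans h5) hl.le
    unfold CMap.be
    have h13 : (3 * (D x / a + (χ x - χ (m.k x)) ^ 2 + D (m.k x) / b) + lam * (S x / a) +
        lam * (S (m.k x) / b)) / 2 * M ^ 2 =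
        (3 * (D x / a * M ^ 2 + (χ x - χ (m.k x)) ^ 2 * M ^ 2 + D (m.k x) / b * M ^ 2) +
          lam * (S x / a * M ^ 2) + lam * (S (m.k x) / b * M ^ 2)) / 2 := by ring
    rw [h13]
    nlinarith
  refine (Finset.sum_le_sum fun x _ => hterm x).trans ?_
  have e1 : ∑ x, D (m.k x) / (m.deg (m.k x) : ℝ) = ∑ x, D x / (m.deg x : ℝ) :=
    Equiv.sum_comp m.k (fun x => D x / (m.deg x : ℝ))
  have e2 : ∑ x, S (m.k x) / (m.deg (m.k x) : ℝ) = ∑ x, S x / (m.deg x : ℝ) :=
    Equiv.sum_comp m.k (fun x => S x / (m.deg x : ℝ))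
  have e3 : ∑ x, D x / (m.deg x : ℝ) = ∑ z, (χ z - χ (m.r z)) ^ 2 := comp_avg m _
  have e4 : ∑ x, S x / (m.deg x : ℝ) = ∑ z, (χ z) ^ 2 := comp_avg m _
  rw [← Finset.sum_div, Finset.sum_add_distrib, Finset.sum_add_distrib, ← Finset.mul_sum, ← Finset.mul_sum,
    ← Finset.mul_sum, Finset.sum_add_distrib, Finset.sum_add_distrib, e1, e2, e3, e4]
  have hE : m.EH χ = (∑ x : X, (χ x - χ (m.k x)) ^ 2) / 2 + ∑ x : X, (χ x - χ (m.r x)) ^ 2 := rfl
  have hp : 0 ≤ lam * ∑ z, (χ z) ^ 2 := mul_nonneg hl.le (Finset.sum_nonneg fun z _ => sq_nonneg _)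
  rw [hE] at hχ
  nlinarith

theorem Phi_sq (m : CMap X) {lam κ : ℝ} (hl : 0 < lam) (hκ : 0 < κ) :
    (∑ x, m.pi lam κ x) ^ 2 ≤
      12 * κ * Fintype.card X * ∑ x, (m.deg x : ℝ) ^ 2 * m.pi lam κ x := by
  classical
  set g : X → ℝ := fun x => (max (m.deg x : ℝ) (m.deg (m.k x))) ^ 2 with hg
  have hd1 : ∀ x, (1 : ℝ) ≤ m.deg x := fun x => by exact_mod_cast comp_deg_pos m x
  have hg0 : ∀ x, 0 < g x := by
    intro x
    have h1 : (1 : ℝ) ≤ max (m.deg x : ℝ) (m.deg (m.k x)) := (hd1 x).trans (le_max_left _ _)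
    show 0 < (max (m.deg x : ℝ) (m.deg (m.k x))) ^ 2
    positivity
  have hW : ∀ T, 0 < m.W lam κ T := fun T => W_pos m hl hκ T
  have hbe : ∀ (u : X → ℝ) x, 0 ≤ m.be lam u u x := fun u x => be_nonneg m hl.le u x
  have hpi0 : ∀ x, 0 ≤ m.pi lam κ x := fun x =>
    Finset.sum_nonneg fun T _ => mul_nonneg (hW T).le (hbe _ x)
  -- one potential
  have hcap : ∀ T, (m.cap lam T) ^ 2 ≤
      (∑ x, g x * m.be lam (m.pot lam T) (m.pot lam T) x) * (6 * m.capH lam T) := by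
    intro T
    obtain ⟨u, hu1, hu2, hu3⟩ := comp_energy m hl T
    rw [← beta_pot m hl T u hu1 hu2]
    have h1 : (m.beta lam (m.pot lam T) u) ^ 2 ≤
        (∑ x, g x * m.be lam (m.pot lam T) (m.pot lam T) x) * ∑ x, m.be lam u u x / g x := by
      unfold CMap.beta
      refine sum_sq_le_sum_mul_sum_of_sq_le_mul univ (fun x _ => mul_nonneg (hg0 x).le (hbe _ x))
        (fun x _ => div_nonneg (hbe _ x) (hg0 x).le) fun x _ => ?_
      have h2 := be_cs m hl.le (m.pot lam T) u x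
      have h3 : g x * m.be lam (m.pot lam T) (m.pot lam T) x * (m.be lam u u x / g x) =
          m.be lam (m.pot lam T) (m.pot lam T) x * m.be lam u u x := by
        have := (hg0 x).ne'
        field_simp
      rw [h3]
      exact h2
    refine h1.trans (mul_le_mul_of_nonneg_left hu3 (Finset.sum_nonneg fun x _ =>
      mul_nonneg (hg0 x).le (hbe _ x)))
  rw [sum_pi m hl κ]
  have h1 : (∑ T, m.W lam κ T * m.cap lam T) ^ 2 ≤
      (∑ T, m.W lam κ T * ∑ x, g x * m.be lam (m.pot lam T) (m.pot lam T) x) *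
        ∑ T, 6 * (m.W lam κ T * m.capH lam T) := by
    refine sum_sq_le_sum_mul_sum_of_sq_le_mul univ
      (fun T _ => mul_nonneg (hW T).le (Finset.sum_nonneg fun x _ => mul_nonneg (hg0 x).le (hbe _ x)))
      (fun T _ => mul_nonneg (by norm_num) (mul_nonneg (hW T).le (hl.le.trans (le_capH m hl T)))) fun T _ => ?_
    rw [mul_pow]
    calc m.W lam κ T ^ 2 * m.cap lam T ^ 2 ≤ m.W lam κ T ^ 2 *
          ((∑ x, g x * m.be lam (m.pot lam T) (m.pot lam T) x) * (6 * m.capH lam T)) :=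
          mul_le_mul_of_nonneg_left (hcap T) (sq_nonneg _)
      _ = _ := by ring
  have h2 : ∑ T, m.W lam κ T * ∑ x, g x * m.be lam (m.pot lam T) (m.pot lam T) x = ∑ x, g x * m.pi lam κ x := by
    unfold CMap.pi
    simp only [Finset.mul_sum]
    rw [Finset.sum_comm]
    refine Finset.sum_congr rfl fun x _ => Finset.sum_congr rfl fun T _ => by ring
  have h3 : ∑ T, 6 * (m.W lam κ T * m.capH lam T) ≤ 6 * κ * Fintype.card X := by
    have h4 : ∑ T : X, 6 * (m.W lam κ T * m.capH lam T) ≤ ∑ _T : X, 6 * κ :=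
      Finset.sum_le_sum fun T _ => mul_le_mul_of_nonneg_left (W_mul_le m hl hκ T) (by norm_num)
    refine h4.trans ?_
    rw [Finset.sum_const, Finset.card_univ, nsmul_eq_mul]
    exact (mul_comm _ _).le
  have hpik : ∀ x, m.pi lam κ (m.k x) = m.pi lam κ x := by
    intro x
    unfold CMap.pi
    refine Finset.sum_congr rfl fun T _ => by rw [be_k]
  have h5 : ∑ x, g x * m.pi lam κ x ≤ 2 * ∑ x, (m.deg x : ℝ) ^ 2 * m.pi lam κ x := by
    have h6 : ∑ x, g x * m.pi lam κ x ≤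
        ∑ x, ((m.deg x : ℝ) ^ 2 * m.pi lam κ x + (m.deg (m.k x) : ℝ) ^ 2 * m.pi lam κ (m.k x)) := by
      refine Finset.sum_le_sum fun x _ => ?_
      rw [hpik x, ← add_mul]
      refine mul_le_mul_of_nonneg_right ?_ (hpi0 x)
      show (max (m.deg x : ℝ) (m.deg (m.k x))) ^ 2 ≤ _
      rcases max_choice (m.deg x : ℝ) (m.deg (m.k x)) with h | h
      · rw [h]
        have := sq_nonneg (m.deg (m.k x) : ℝ)
        linarith
      · rw [h]
        have := sq_nonneg (m.deg x : ℝ)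
        linarith
    refine h6.trans ?_
    rw [Finset.sum_add_distrib, Equiv.sum_comp m.k (fun x => (m.deg x : ℝ) ^ 2 * m.pi lam κ x)]
    linarith
  have hdp : 0 ≤ ∑ x, (m.deg x : ℝ) ^ 2 * m.pi lam κ x :=
    Finset.sum_nonneg fun x _ => mul_nonneg (sq_nonneg _) (hpi0 x)
  have hgp : 0 ≤ ∑ x, g x * m.pi lam κ x := Finset.sum_nonneg fun x _ => mul_nonneg (hg0 x).le (hpi0 x)
  rw [h2] at h1
  calc (∑ T, m.W lam κ T * m.cap lam T) ^ 2 ≤ (∑ x, g x * m.pi lam κ x) *
        ∑ T, 6 * (m.W lam κ T * m.capH lam T) := h1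
    _ ≤ (∑ x, g x * m.pi lam κ x) * (6 * κ * Fintype.card X) := mul_le_mul_of_nonneg_left h3 hgp
    _ ≤ (2 * ∑ x, (m.deg x : ℝ) ^ 2 * m.pi lam κ x) * (6 * κ * Fintype.card X) :=
        mul_le_mul_of_nonneg_right h5 (by positivity)
    _ = 12 * κ * Fintype.card X * ∑ x, (m.deg x : ℝ) ^ 2 * m.pi lam κ x := by ring

theorem Phi_le_card (m : CMap X) {lam κ : ℝ} (hl : 0 < lam) (hκ : 0 < κ) :
    ∑ x, m.pi lam κ x ≤ lam * (Fintype.card X : ℝ) ^ 2 := by
  rw [sum_pi m hl κ]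
  have h1 : ∑ T, m.W lam κ T * m.cap lam T ≤ ∑ _T : X, lam * Fintype.card X := by
    refine Finset.sum_le_sum fun T _ => ?_
    calc m.W lam κ T * m.cap lam T ≤ 1 * m.cap lam T :=
          mul_le_mul_of_nonneg_right (W_le_one m lam κ T) (cap_pos m hl T).le
      _ ≤ lam * Fintype.card X := by rw [one_mul]; exact cap_le_card m hl T
  refine h1.trans ?_
  rw [Finset.sum_const, Finset.card_univ, nsmul_eq_mul]
  exact le_of_eq (by ring)

end UIPQ
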