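import Pool.Agent.Lib.UIPQ.B.FanFace

/-!
# FanQuad: the surgery gives a quadrangulation

PROOF. `no_loop'`: for a quadrangulation, SameCycle y x → ¬ SameCycle y (k x) (no_loop, transitivity).
`fan_conn`: let ~ be the equivalence relation of `Connected` for the new map (generated by r' and k'). By the formulas of Rot:
inr (i,0) ~ inr (i,1) (k'), all inr (i,0) ~ inl (k y) (rot_k0, rot_B), inl (k y) ~ inl y (k'), inr (i,1) ~ inl (a (i+1)) (rot_b),
inr (i,3) ~ inr (i,2) ~ inl (k (a (i+1))) ~ inl (a (i+1)) (k', rot_ki, k'). So every new dart is ~ inl y, and all marked darts are ~ inl y.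
For x ∈ X: inl x ~ inl (k x) (k'), and inl x ~ inl (r x): if k x, r x are not marked: rot_old. If r x = a μ is marked: inl x ~
inr (mark μ) (rot_before) ~ inl y ~ inl (a μ). If k x = a μ is marked, μ = 0: inl x = inl (k (a 0)) ~ inr (0,0) ~ ... ~ inr (6,0) ~
inl (f (a 0)) = inl (r x) (rot_k0, rot_B, rot_B6); μ = i+1: rot_ki, rot_B'. As m is connected, all inl x are equivalent.
`fan_isQuad`: connected, face4 (fan_face4), and `isQuad_iff`: 4 V' = |X'| + 8. |X'| = |X| + 28, 4 V = |X| + 8; `fan_vert`: 4 V' ≥ 4 V + 28 =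
|X'| + 8; `genus_le` for the new map with 4 F' = |X'| (card_face): 2 (V' + F') ≤ |X'| + 4, so 4 V' ≤ |X'| + 8.
-/

namespace UIPQ

variable {X : Type} [Fintype X]

theorem no_loop' (m : CMap X) (h : m.IsQuad) (y x : X) (hx : m.r.SameCycle y x) :
    ¬ m.r.SameCycle y (m.k x) := fun h1 => no_loop m h x (hx.symm.trans h1)

private theorem conn_aux (m : CMap X) (a : Fin 8 → X) (ha : GoodMarks m a) (hc : m.Connected) :
    (fanMap m a).Connected := by
  have er : ∀ z w, (fanMap m a).r z = w →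
      Relation.EqvGen (fun a' b => b = (fanMap m a).r a' ∨ b = (fanMap m a).k a') z w :=
    fun z w h => Relation.EqvGen.rel _ _ (Or.inl h.symm)
  have ek : ∀ z w, (fanMap m a).k z = w →
      Relation.EqvGen (fun a' b => b = (fanMap m a).r a' ∨ b = (fanMap m a).k a') z w :=
    fun z w h => Relation.EqvGen.rel _ _ (Or.inr h.symm)
  set E := Relation.EqvGen (fun a' b => b = (fanMap m a).r a' ∨ b = (fanMap m a).k a') with hE
  have tr : ∀ {u v w}, E u v → E v w → E u w := fun h1 h2 => Relation.EqvGen.trans _ _ _ h1 h2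
  have sy : ∀ {u v}, E u v → E v u := fun h1 => Relation.EqvGen.symm _ _ h1
  have rf : ∀ u, E u u := fun u => Relation.EqvGen.refl u
  have e01 : ∀ i, E (Sum.inr (i, 0)) (Sum.inr (i, 1)) := fun i => ek _ _ rfl
  have e23 : ∀ i, E (Sum.inr (i, 2)) (Sum.inr (i, 3)) := fun i => ek _ _ rfl
  have eK : ∀ x, E (Sum.inl x) (Sum.inl (m.k x)) := fun x => ek _ _ rfl
  have h0 : E (Sum.inl (a 0)) (Sum.inr (0, 0)) := tr (eK _) (er _ _ (rot_k0 ha))
  have h1 : E (Sum.inl (a 0)) (Sum.inr (1, 0)) := tr h0 (er _ _ (rot_B ha 0 (by decide)))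
  have h2 : E (Sum.inl (a 0)) (Sum.inr (2, 0)) := tr h1 (er _ _ (rot_B ha 1 (by decide)))
  have h3 : E (Sum.inl (a 0)) (Sum.inr (3, 0)) := tr h2 (er _ _ (rot_B ha 2 (by decide)))
  have h4 : E (Sum.inl (a 0)) (Sum.inr (4, 0)) := tr h3 (er _ _ (rot_B ha 3 (by decide)))
  have h5 : E (Sum.inl (a 0)) (Sum.inr (5, 0)) := tr h4 (er _ _ (rot_B ha 4 (by decide)))
  have h6 : E (Sum.inl (a 0)) (Sum.inr (6, 0)) := tr h5 (er _ _ (rot_B ha 5 (by decide)))
  have c0 : ∀ i, E (Sum.inl (a 0)) (Sum.inr (i, 0)) := by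
    intro i
    fin_cases i
    · exact h0
    · exact h1
    · exact h2
    · exact h3
    · exact h4
    · exact h5
    · exact h6
  have c1 : ∀ i, E (Sum.inl (a 0)) (Sum.inr (i, 1)) := fun i => tr (c0 i) (e01 i)
  have cm : ∀ μ, E (Sum.inl (a 0)) (Sum.inl (a μ)) := by
    intro μ
    refine Fin.cases (rf _) (fun i => ?_) μ
    exact tr (c1 i) (er _ _ (rot_b ha i))
  have c2 : ∀ i, E (Sum.inl (a 0)) (Sum.inr (i, 2)) := fun i =>
    tr (cm i.succ) (tr (eK _) (er _ _ (rot_ki ha i)))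
  have c3 : ∀ i, E (Sum.inl (a 0)) (Sum.inr (i, 3)) := fun i => tr (c2 i) (e23 i)
  have cr : ∀ p : Fan, E (Sum.inl (a 0)) (Sum.inr p) := by
    rintro ⟨i, j⟩
    fin_cases j
    · exact c0 i
    · exact c1 i
    · exact c2 i
    · exact c3 i
  have cf : ∀ μ, E (Sum.inl (a 0)) (Sum.inl (m.f (a μ))) := by
    intro μ
    refine Fin.cases ?_ (fun i => ?_) μ
    · exact tr (cr _) (er _ _ (rot_B6 ha))
    · exact tr (cr _) (er _ _ (rot_B' ha i))
  have eR : ∀ x, E (Sum.inl x) (Sum.inl (m.r x)) := by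
    intro x
    by_cases g1 : ∃ μ, m.k x = a μ
    · obtain ⟨μ, hμ⟩ := g1
      have hx : m.f (a μ) = m.r x := by rw [← hμ, CMap.f_apply, m.k_k]
      rw [← hx]
      have h7 := eK x
      rw [hμ] at h7
      exact tr h7 (tr (sy (cm μ)) (cf μ))
    · push Not at g1
      by_cases g2 : ∃ μ, m.r x = a μ
      · obtain ⟨μ, hμ⟩ := g2
        rw [hμ]
        exact tr (er _ _ (rot_before ha x μ hμ)) (tr (sy (cr _)) (cm μ))
      · push Not at g2
        exact er _ _ (rot_old ha x g1 g2)
  have cl : ∀ x, E (Sum.inl (a 0)) (Sum.inl x) := by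
    intro x
    have h := hc (a 0) x
    have key : ∀ u v : X, Relation.EqvGen (fun a b => b = m.r a ∨ b = m.k a) u v →
        E (Sum.inl u) (Sum.inl v) := by
      intro u v huv
      induction huv with
      | rel u v h =>
        rcases h with rfl | rfl
        · exact eR u
        · exact eK u
      | refl u => exact rf _
      | symm u v _ ih => exact sy ih
      | trans u v w _ _ ih1 ih2 => exact tr ih1 ih2
    exact key _ _ h
  have call : ∀ z, E (Sum.inl (a 0)) z := by
    rintro (x | p)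
    · exact cl x
    · exact cr p
  intro z w
  exact tr (sy (call z)) (call w)

theorem fan_conn (m : CMap X) (y : X) (q : Fin 7 → ℕ) (ha : GoodMarks m (fanA m y q))
    (hc : m.Connected) : (fan m y q).Connected :=
  conn_aux m _ ha hc

theorem fan_isQuad (m : CMap X) (h : m.IsQuad) (y : X) (q : Fin 7 → ℕ) (hq : q ∈ fans (m.deg y)) :
    (fan m y q).IsQuad := by
  have hy : ∀ x, m.r.SameCycle y x → ¬ m.r.SameCycle y (m.k x) := fun x hx => no_loop' m h y x hx
  have ha : GoodMarks m (fanA m y q) := fan_good m y q hq hy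
  have hc : (fan m y q).Connected := fan_conn m y q ha h.conn
  have hf : ∀ z, Function.minimalPeriod (fan m y q).f z = 4 := fan_face4 m _ ha h.face4
  rw [isQuad_iff _ hc hf]
  have h1 := (isQuad_iff m h.conn h.face4).1 h
  have h2 := fan_vert m y q hq hy
  have h3 := genus_le (fan m y q) hc
  have h4 := card_face (fan m y q) hf
  have h5 : Nat.card (X ⊕ Fan) = Nat.card X + 28 := by
    rw [Nat.card_sum]
    congr 1
    rw [Nat.card_prod, Nat.card_fin, Nat.card_fin]
  omega

end UIPQ
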