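import Pool.Agent.Lib.UIPQ.B.Inv
import Pool.Agent.Lib.UIPQ.B.FanQuad

/-!
# Count: the surgery is injective, and the comparison of the sums over all quadrangulations

PROOF. `fan_inj`: let fan m y q = fan m₂ y₂ q₂ =: m' with good marks (quadrangulations). The formulas of Rot hold for both. k on X is
read on inl: inl (k x) = k' (inl x): k = k₂. y = y₂: rot_b'0: r' (inr (0,3)) = inl y. a (i+1) = a₂ (i+1): rot_b. So the marks are equal;
f ⊕ c = τ f' τ with τ = exch a mark the same, hence f = f₂ and r = f k = r₂ (r x = f (k x)). q = q₂: q i < deg y is determined by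
r^[q i] y = a (i+1).
`rel_count`: N = 4n+4, N' = 4(n+7)+4, Z = Fin N'. Consider the finite set Ω of the quadruples (e, m, y, q), e : Fin N ⊕ Fan ≃ Z, m ∈ QF n,
y ∈ Fin N, q ∈ fans (deg y), and the map Ψ(e,m,y,q) = ((fan m y q).relabel e, e (inr (0,0))), with values in QF (n+7) × Z
(fan_isQuad, isQuad_relabel). CLAIM: every fibre has at most N! elements. Let Ψ(e,m,y,q) = (m'', B). By the formulas of Rot, in fan m y q:
inr (i,0) = r'^[i] (inr (0,0)), inr (i,1) = k' of it, inr (i,2) = f' (f' (inr (i,0))) (f' = r' k': k' (i,0) = (i,1) → inl (a (i+1)) (rot_b);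
k' → inl (k a (i+1)) → inr (i,2) (rot_ki)), inr (i,3) = k' of it. So e (inr (i,0)) = r''^[i] B, e (inr (i,1)) = k'' (...), ...: e ∘ inr is
determined by (m'',B). And e determines fan m y q = m''.relabel e⁻¹ and so (m, y, q) by fan_inj. So the fibre injects into the set of the
equivalences e with e ∘ inr = given; two such e, e₂ differ by the permutation e₂⁻¹ ∘ e of Fin N ⊕ Fan which fixes every inr, i.e. by a
permutation of Fin N: at most N! of them.
Then N'! ∑_{m ∈ QF n} ∑_y |fans (deg y)| F m y = ∑_Ω F m y ≤ ∑_Ω G(Ψ) ≤ N! ∑_{(m'',B)} G m'' B (the number of e is N'!: card_equiv;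
|Fin N ⊕ Fan| = N + 28 = N'). Divide by N! N'!.
-/

namespace UIPQ

open Finset

theorem fan_inj {X : Type} [Fintype X] (m m₂ : CMap X) (h : m.IsQuad) (h₂ : m₂.IsQuad) (y y₂ : X)
    (q q₂ : Fin 7 → ℕ) (hq : q ∈ fans (m.deg y)) (hq₂ : q₂ ∈ fans (m₂.deg y₂))
    (he : fan m y q = fan m₂ y₂ q₂) : m = m₂ ∧ y = y₂ ∧ q = q₂ := by
  have ha : GoodMarks m (fanA m y q) := fan_good m y q hq (no_loop' m h y)
  have ha₂ : GoodMarks m₂ (fanA m₂ y₂ q₂) := fan_good m₂ y₂ q₂ hq₂ (no_loop' m₂ h₂ y₂)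
  have hk : ∀ x, m.k x = m₂.k x := by
    intro x
    have h1 := congrArg (fun M : CMap (X ⊕ Fan) => M.k (Sum.inl x)) he
    have h2 : (Sum.inl (m.k x) : X ⊕ Fan) = Sum.inl (m₂.k x) := h1
    exact Sum.inl_injective h2
  have h0 : fanA m y q 0 = fanA m₂ y₂ q₂ 0 := by
    have h1 := congrArg (fun M : CMap (X ⊕ Fan) => M.r (Sum.inr ((0, 3) : Fan))) he
    have h2 : (fanMap m (fanA m y q)).r (Sum.inr (0, 3)) =
      (fanMap m₂ (fanA m₂ y₂ q₂)).r (Sum.inr (0, 3)) := h1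
    rw [rot_b'0 ha, rot_b'0 ha₂] at h2
    exact Sum.inl_injective h2
  have hs : ∀ i : Fin 7, fanA m y q i.succ = fanA m₂ y₂ q₂ i.succ := by
    intro i
    have h1 := congrArg (fun M : CMap (X ⊕ Fan) => M.r (Sum.inr ((i, 1) : Fan))) he
    have h2 : (fanMap m (fanA m y q)).r (Sum.inr (i, 1)) =
      (fanMap m₂ (fanA m₂ y₂ q₂)).r (Sum.inr (i, 1)) := h1
    rw [rot_b ha i, rot_b ha₂ i] at h2
    exact Sum.inl_injective h2
  have hA : fanA m y q = fanA m₂ y₂ q₂ := by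
    funext μ
    refine Fin.cases ?_ ?_ μ
    · exact h0
    · exact hs
  have hy : y = y₂ := h0
  have hf : ∀ x, m.f x = m₂.f x := by
    intro x
    have h1 : (fanMap m (fanA m y q)).f (exch (fanA m y q) mark (Sum.inl x)) =
        (fanMap m₂ (fanA m₂ y₂ q₂)).f (exch (fanA m y q) mark (Sum.inl x)) :=
      congrArg (fun M : CMap (X ⊕ Fan) => M.f (exch (fanA m y q) mark (Sum.inl x))) he
    rw [fanMap_f, fanMap_f, ← hA, exch_exch ha] at h1
    have h2 := (exch (fanA m y q) mark).injective h1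
    exact Sum.inl_injective h2
  have hr : ∀ x, m.r x = m₂.r x := by
    intro x
    have h1 := hf (m.k x)
    rw [CMap.f_apply, m.k_k] at h1
    rw [h1, hk x, CMap.f_apply, m₂.k_k]
  have hm : m = m₂ := CMap.ext (Equiv.ext hr) (Equiv.ext hk)
  refine ⟨hm, hy, ?_⟩
  subst hm
  subst hy
  funext i
  have h1 : m.r^[q i] y = m.r^[q₂ i] y := hs i
  have h2 := (mem_fans.1 hq).2.2 i
  have h3 := (mem_fans.1 hq₂).2.2 i
  exact Function.iterate_injOn_Iio_minimalPeriod h2 h3 h1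

private theorem relabel_inj {X X' : Type} {m m₂ : CMap X} (e : X ≃ X')
    (h : m.relabel e = m₂.relabel e) : m = m₂ := by
  have h1 := congrArg (fun M : CMap X' => M.relabel e.symm) h
  simp only [relabel_trans, Equiv.self_trans_symm, relabel_refl] at h1
  exact h1

private theorem inr_val {X Z : Type} (m : CMap X) (y : X) (q : Fin 7 → ℕ)
    (ha : GoodMarks m (fanA m y q)) (e : X ⊕ Fan ≃ Z) :
    (∀ i : Fin 7, e (Sum.inr (i, 0)) =
      ((fan m y q).relabel e).r^[i.val] (e (Sum.inr (0, 0)))) ∧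
    (∀ i : Fin 7, e (Sum.inr (i, 1)) = ((fan m y q).relabel e).k (e (Sum.inr (i, 0)))) ∧
    (∀ i : Fin 7, e (Sum.inr (i, 2)) = ((fan m y q).relabel e).f
      (((fan m y q).relabel e).f (e (Sum.inr (i, 0))))) ∧
    (∀ i : Fin 7, e (Sum.inr (i, 3)) = ((fan m y q).relabel e).k (e (Sum.inr (i, 2)))) := by
  have hk : ∀ p : Fan, (fan m y q).k (Sum.inr p) = Sum.inr (fanK p) := fun p => rfl
  have hkl : ∀ x : X, (fan m y q).k (Sum.inl x) = Sum.inl (m.k x) := fun x => rfl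
  have hB : ∀ i : Fin 7, i ≠ 6 → (fan m y q).r (Sum.inr (i, 0)) = Sum.inr (i + 1, 0) :=
    fun i hi => rot_B ha i hi
  have hb : ∀ i : Fin 7, (fan m y q).r (Sum.inr (i, 1)) = Sum.inl (fanA m y q i.succ) :=
    fun i => rot_b ha i
  have hki : ∀ i : Fin 7, (fan m y q).r (Sum.inl (m.k (fanA m y q i.succ))) = Sum.inr (i, 2) :=
    fun i => rot_ki ha i
  refine ⟨?_, ?_, ?_, ?_⟩
  · have key : ∀ n : ℕ, ∀ hn : n < 7, e (Sum.inr ((⟨n, hn⟩ : Fin 7), (0 : Fin 4))) =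
        ((fan m y q).relabel e).r^[n] (e (Sum.inr (0, 0))) := by
      intro n
      induction n with
      | zero => intro hn; rfl
      | succ n ih =>
        intro hn
        rw [Function.iterate_succ_apply', ← ih (by omega), relabel_r, hB _ (by
          intro h6
          have := congrArg Fin.val h6
          simp at this
          omega)]
        congr 3
        apply Fin.ext
        rw [Fin.val_add]
        simp
        omega
    intro i
    exact key i.val i.isLt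
  · intro i
    rw [relabel_k, hk]
    rfl
  · intro i
    have h1 : fanK (i, 0) = (i, 1) := rfl
    have h2 : (fan m y q).f (Sum.inr (i, 0)) = Sum.inl (fanA m y q i.succ) := by
      rw [CMap.f_apply, hk, h1, hb]
    have h3 : (fan m y q).f (Sum.inl (fanA m y q i.succ)) = Sum.inr (i, 2) := by
      rw [CMap.f_apply, hkl, hki]
    rw [relabel_f, relabel_f, h2, h3]
  · intro i
    rw [relabel_k, hk]
    rfl

private theorem inr_det {X Z : Type} (m m₂ : CMap X) (y y₂ : X) (q q₂ : Fin 7 → ℕ)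
    (ha : GoodMarks m (fanA m y q)) (ha₂ : GoodMarks m₂ (fanA m₂ y₂ q₂)) (e e₂ : X ⊕ Fan ≃ Z)
    (hM : (fan m y q).relabel e = (fan m₂ y₂ q₂).relabel e₂)
    (hB : e (Sum.inr (0, 0)) = e₂ (Sum.inr (0, 0))) (p : Fan) : e (Sum.inr p) = e₂ (Sum.inr p) := by
  obtain ⟨h0, h1, h2, h3⟩ := inr_val m y q ha e
  obtain ⟨g0, g1, g2, g3⟩ := inr_val m₂ y₂ q₂ ha₂ e₂
  have f0 : ∀ i : Fin 7, e (Sum.inr (i, 0)) = e₂ (Sum.inr (i, 0)) := by
    intro i
    rw [h0 i, g0 i, hM, hB]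
  have f2 : ∀ i : Fin 7, e (Sum.inr (i, 2)) = e₂ (Sum.inr (i, 2)) := by
    intro i
    rw [h2 i, g2 i, hM, f0 i]
  obtain ⟨i, j⟩ := p
  fin_cases j
  · exact f0 i
  · change e (Sum.inr (i, 1)) = e₂ (Sum.inr (i, 1))
    rw [h1 i, g1 i, hM, f0 i]
  · exact f2 i
  · change e (Sum.inr (i, 3)) = e₂ (Sum.inr (i, 3))
    rw [h3 i, g3 i, hM, f2 i]

/-- the equivalences with given values on the right summand -/
private theorem card_given {X Y Z : Type} [Fintype X] [DecidableEq X] [Fintype Y] [DecidableEq Y]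
    (S : Finset (X ⊕ Y ≃ Z)) (hS : ∀ e ∈ S, ∀ e₂ ∈ S, ∀ p : Y, e (Sum.inr p) = e₂ (Sum.inr p)) :
    S.card ≤ (Fintype.card X).factorial := by
  classical
  rcases S.eq_empty_or_nonempty with rfl | ⟨e0, he0⟩
  · simp
  have hex : ∀ e : X ⊕ Y ≃ Z, e ∈ S → ∃ σ : Equiv.Perm X,
      e.trans e0.symm = Equiv.Perm.sumCongr σ (1 : Equiv.Perm Y) := by
    intro e he
    have h1 : ∀ p : Y, (e.trans e0.symm) (Sum.inr p) = Sum.inr p := by
      intro p
      rw [Equiv.trans_apply, hS e he e0 he0 p, Equiv.symm_apply_apply]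
    have h2 : Set.MapsTo (e.trans e0.symm : Equiv.Perm (X ⊕ Y)) (Set.range Sum.inl)
        (Set.range Sum.inl) := by
      rintro _ ⟨x, rfl⟩
      rcases hx : (e.trans e0.symm) (Sum.inl x) with x' | p
      · exact ⟨x', rfl⟩
      · exfalso
        rw [← h1 p] at hx
        have h3 := (e.trans e0.symm).injective hx
        simp at h3
    obtain ⟨⟨σ, τ⟩, hστ⟩ := Equiv.Perm.mem_sumCongrHom_range_of_perm_mapsTo_inl h2
    refine ⟨σ, ?_⟩
    have h4 : (Equiv.Perm.sumCongr σ τ : Equiv.Perm (X ⊕ Y)) = e.trans e0.symm := hστ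
    rw [← h4]
    congr 1
    ext p
    have h5 := h1 p
    rw [← h4] at h5
    have h6 : (Sum.inr (τ p) : X ⊕ Y) = Sum.inr p := h5
    simpa using h6
  choose! σ hσ using hex
  have hcard : S.card ≤ (Finset.univ : Finset (Equiv.Perm X)).card := by
    apply Finset.card_le_card_of_injOn σ (fun e _ => Finset.mem_univ _)
    intro e he e₂ he₂ hee
    have h1 := hσ e he
    have h2 := hσ e₂ he₂
    rw [hee, ← h2] at h1
    ext z
    have h3 := Equiv.congr_fun h1 z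
    rw [Equiv.trans_apply, Equiv.trans_apply] at h3
    exact e0.symm.injective h3
  rwa [Finset.card_univ, Fintype.card_perm] at hcard

theorem rel_count (n : ℕ) (F : CMap (Fin (4 * n + 4)) → Fin (4 * n + 4) → ℝ)
    (G : CMap (Fin (4 * (n + 7) + 4)) → Fin (4 * (n + 7) + 4) → ℝ) (hG : ∀ m x, 0 ≤ G m x)
    (hFG : ∀ m ∈ QF n, ∀ y, ∀ q ∈ fans (m.deg y),
      ∀ e : Fin (4 * n + 4) ⊕ Fan ≃ Fin (4 * (n + 7) + 4),
        F m y ≤ G ((fan m y q).relabel e) (e (Sum.inr (0, 0)))) :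
    Sn n (fun m y => ((fans (m.deg y)).card : ℝ) * F m y) ≤ Sn (n + 7) G := by
  classical
  have hX : Fintype.card (Fin (4 * n + 4) ⊕ Fan) = Fintype.card (Fin (4 * (n + 7) + 4)) := by
    simp [Fan]
    ring
  obtain ⟨ebase⟩ : Nonempty (Fin (4 * n + 4) ⊕ Fan ≃ Fin (4 * (n + 7) + 4)) :=
    Fintype.card_eq.1 hX
  have hE : Fintype.card (Fin (4 * n + 4) ⊕ Fan ≃ Fin (4 * (n + 7) + 4)) =
      (4 * (n + 7) + 4).factorial := by
    rw [Fintype.card_equiv ebase, hX, Fintype.card_fin]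
  let T : Finset (Σ _ : CMap (Fin (4 * n + 4)) × Fin (4 * n + 4), (Fin 7 → ℕ)) :=
    (QF n ×ˢ (univ : Finset (Fin (4 * n + 4)))).sigma (fun p => fans (p.1.deg p.2))
  let Om : Finset ((Fin (4 * n + 4) ⊕ Fan ≃ Fin (4 * (n + 7) + 4)) ×
      (Σ _ : CMap (Fin (4 * n + 4)) × Fin (4 * n + 4), (Fin 7 → ℕ))) := univ ×ˢ T
  have hT : ∀ w ∈ T, w.1.1.IsQuad ∧ w.2 ∈ fans (w.1.1.deg w.1.2) := by
    intro w hw
    rw [Finset.mem_sigma] at hw
    exact ⟨mem_QF.1 (Finset.mem_product.1 hw.1).1, hw.2⟩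
  have hgood : ∀ w ∈ T, GoodMarks w.1.1 (fanA w.1.1 w.1.2 w.2) := by
    intro w hw
    obtain ⟨h1, h2⟩ := hT w hw
    exact fan_good _ _ _ h2 (no_loop' _ h1 _)
  let Ps : ((Fin (4 * n + 4) ⊕ Fan ≃ Fin (4 * (n + 7) + 4)) ×
      (Σ _ : CMap (Fin (4 * n + 4)) × Fin (4 * n + 4), (Fin 7 → ℕ))) →
      CMap (Fin (4 * (n + 7) + 4)) × Fin (4 * (n + 7) + 4) := fun v =>
    ((fan v.2.1.1 v.2.1.2 v.2.2).relabel v.1, v.1 (Sum.inr (0, 0)))
  -- the sum over `T`
  have hsumT : ∑ m ∈ QF n, ∑ y, ((fans (m.deg y)).card : ℝ) * F m y =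
      ∑ w ∈ T, F w.1.1 w.1.2 := by
    rw [Finset.sum_sigma, Finset.sum_product]
    refine Finset.sum_congr rfl fun m _ => Finset.sum_congr rfl fun y _ => ?_
    change _ = ∑ _s ∈ fans (m.deg y), F m y
    rw [Finset.sum_const, nsmul_eq_mul]
  have hmaps : ∀ v ∈ Om, Ps v ∈ QF (n + 7) ×ˢ (univ : Finset (Fin (4 * (n + 7) + 4))) := by
    intro v hv
    obtain ⟨h1, h2⟩ := hT v.2 (Finset.mem_product.1 hv).2
    refine Finset.mem_product.2 ⟨?_, Finset.mem_univ _⟩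
    rw [mem_QF]
    exact isQuad_relabel _ _ (fan_isQuad _ h1 _ _ h2)
  have hfib : ∀ z, (Om.filter (fun v => Ps v = z)).card ≤ (4 * n + 4).factorial := by
    intro z
    have hinj : Set.InjOn (fun v : ((Fin (4 * n + 4) ⊕ Fan ≃ Fin (4 * (n + 7) + 4)) ×
      (Σ _ : CMap (Fin (4 * n + 4)) × Fin (4 * n + 4), (Fin 7 → ℕ))) => v.1)
        (↑(Om.filter (fun v => Ps v = z)) : Set _) := by
      rintro ⟨e, ⟨⟨m, y⟩, q⟩⟩ hv ⟨e₂, ⟨⟨m₂, y₂⟩, q₂⟩⟩ hv₂ hee
      have hee' : e = e₂ := hee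
      subst hee'
      rw [Finset.mem_coe, Finset.mem_filter] at hv hv₂
      obtain ⟨h1, h2⟩ := hT _ (Finset.mem_product.1 hv.1).2
      obtain ⟨h3, h4⟩ := hT _ (Finset.mem_product.1 hv₂.1).2
      have h5 : (fan m y q).relabel e = (fan m₂ y₂ q₂).relabel e :=
        congrArg Prod.fst (hv.2.trans hv₂.2.symm)
      obtain ⟨rfl, rfl, rfl⟩ := fan_inj m m₂ h1 h3 y y₂ q q₂ h2 h4 (relabel_inj e h5)
      rfl
    rw [← Finset.card_image_of_injOn hinj]
    have h1 := card_given (X := Fin (4 * n + 4)) (Y := Fan) (Z := Fin (4 * (n + 7) + 4))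
      ((Om.filter (fun v => Ps v = z)).image (fun v => v.1)) ?_
    · rwa [Fintype.card_fin] at h1
    · intro e he e₂ he₂ p
      obtain ⟨⟨e, ⟨⟨m, y⟩, q⟩⟩, hv, rfl⟩ := Finset.mem_image.1 he
      obtain ⟨⟨e₂, ⟨⟨m₂, y₂⟩, q₂⟩⟩, hv₂, rfl⟩ := Finset.mem_image.1 he₂
      rw [Finset.mem_filter] at hv hv₂
      have g1 := hgood _ (Finset.mem_product.1 hv.1).2
      have g2 := hgood _ (Finset.mem_product.1 hv₂.1).2
      have h5 : (fan m y q).relabel e = (fan m₂ y₂ q₂).relabel e₂ :=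
        congrArg Prod.fst (hv.2.trans hv₂.2.symm)
      have h6 : e (Sum.inr (0, 0)) = e₂ (Sum.inr (0, 0)) :=
        congrArg Prod.snd (hv.2.trans hv₂.2.symm)
      exact inr_det m m₂ y y₂ q q₂ g1 g2 e e₂ h5 h6 p
  have hOm : ∑ v ∈ Om, F v.2.1.1 v.2.1.2 =
      ((4 * (n + 7) + 4).factorial : ℝ) * ∑ w ∈ T, F w.1.1 w.1.2 := by
    rw [Finset.sum_product]
    change ∑ _x : (Fin (4 * n + 4) ⊕ Fan ≃ Fin (4 * (n + 7) + 4)), ∑ w ∈ T, F w.1.1 w.1.2 = _
    rw [Finset.sum_const, Finset.card_univ, hE, nsmul_eq_mul]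
  have hle1 : ∑ v ∈ Om, F v.2.1.1 v.2.1.2 ≤ ∑ v ∈ Om, G (Ps v).1 (Ps v).2 := by
    apply Finset.sum_le_sum
    intro v hv
    obtain ⟨h1, h2⟩ := hT v.2 (Finset.mem_product.1 hv).2
    exact hFG _ (mem_QF.2 h1) _ _ h2 _
  have hle2 : ∑ v ∈ Om, G (Ps v).1 (Ps v).2 ≤
      ((4 * n + 4).factorial : ℝ) * ∑ m ∈ QF (n + 7), ∑ x, G m x := by
    rw [← Finset.sum_fiberwise_of_maps_to hmaps, ← Finset.sum_product' (QF (n + 7)) univ G,
      Finset.mul_sum]
    apply Finset.sum_le_sum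
    intro z _
    have h1 : ∑ v ∈ Om.filter (fun v => Ps v = z), G (Ps v).1 (Ps v).2 =
        ((Om.filter (fun v => Ps v = z)).card : ℝ) * G z.1 z.2 := by
      rw [← nsmul_eq_mul, ← Finset.sum_const]
      refine Finset.sum_congr rfl fun v hv => ?_
      rw [(Finset.mem_filter.1 hv).2]
    rw [h1]
    exact mul_le_mul_of_nonneg_right (by exact_mod_cast hfib z) (hG _ _)
  have hfin : ((4 * (n + 7) + 4).factorial : ℝ) * ∑ m ∈ QF n, ∑ y,
      ((fans (m.deg y)).card : ℝ) * F m y ≤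
      ((4 * n + 4).factorial : ℝ) * ∑ m ∈ QF (n + 7), ∑ x, G m x := by
    rw [hsumT, ← hOm]
    exact hle1.trans hle2
  have hp1 : (0 : ℝ) < ((4 * n + 4).factorial : ℝ) := by positivity
  have hp2 : (0 : ℝ) < ((4 * (n + 7) + 4).factorial : ℝ) := by positivity
  unfold Sn
  rw [div_le_div_iff₀ hp1 hp2]
  linarith

end UIPQ
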