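import Pool.Agent.Lib.UIPQ.BDefs

/-!
# Rot: the rotation of the map after the surgery

PROOF. `exchFun_invol`: for α, β injective exchFun is involutive (the chosen index is the index). exch on marks: exch (inl (α μ)) =
inr (β μ), exch (inr (β μ)) = inl (α μ), exch fixes inl x for x not in the range of α and inr p for p not in the range of β. The
range of `mark` is {(6,1)} ∪ {(i,3)} (mark 0 = (6,1), mark (i+1) = (i,3)); mark is injective.
For a map m and marks a with: a injective, k (a μ) ≠ a ν, f (a μ) ≠ a ν (GoodMarks), r' z = exch ((f ⊕ c) (exch (k' z))):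
all the formulas are direct computations: e.g. r' (inl x) with k x, r x not marked: exch (inl (k x)) = inl (k x), f (k x) = r x
(k k = id), exch (inl (r x)) = inl (r x). If r x = a μ then k x is not marked (f (k x) = r x = a μ and GoodMarks.hf) and the result is
inr (mark μ). If x = k (a μ): exch (inl (a μ)) = inr (mark μ), fanC (mark (i+1)) = (i,2), fanC (mark 0) = (0,0) (6 + 1 = 0 in Fin 7),
fixed by exch. For inr (i,0): k' = (i,1), if i ≠ 6 fixed by exch, fanC = (i+1,0); for i = 6: exch = inl (a 0), f (a 0), fixed.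
inr (i,2): k' = (i,3) → inl (a (i+1)) → inl (f (a (i+1))). inr (i,1): k' = (i,0) → (i,3) → inl (a (i+1)).
inr (i,3): k' = (i,2) → (i-1,1): for i ≠ 0 fixed, for i = 0 it is (6,1) → inl (a 0).
`fan_good`: in a map without loops at y (y and k x not in the same r-orbit if y, x are), q ∈ fans (deg y): the darts r^[l] y,
l < deg y, are distinct and at the vertex of y, and k (a μ), f (a μ) = r (k (a μ)) are not at this vertex.
-/

namespace UIPQ

variable {X : Type}

/-- Hypotheses on the marked darts. -/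
structure GoodMarks (m : CMap X) (a : Fin 8 → X) : Prop where
  inj : Function.Injective a
  hk : ∀ μ ν, m.k (a μ) ≠ a ν
  hf : ∀ μ ν, m.f (a μ) ≠ a ν

private theorem ex_inl {A B M : Type} {α : M → A} (β : M → B) (hα : Function.Injective α) (μ : M) :
    exchFun α β (Sum.inl (α μ)) = Sum.inr (β μ) := by
  have h : ∃ ν, α ν = α μ := ⟨μ, rfl⟩
  simp only [exchFun]
  rw [dif_pos h, hα h.choose_spec]

private theorem ex_inr {A B M : Type} (α : M → A) {β : M → B} (hβ : Function.Injective β) (μ : M) :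
    exchFun α β (Sum.inr (β μ)) = Sum.inl (α μ) := by
  have h : ∃ ν, β ν = β μ := ⟨μ, rfl⟩
  simp only [exchFun]
  rw [dif_pos h, hβ h.choose_spec]

private theorem ex_inl_of {A B M : Type} (α : M → A) (β : M → B) {x : A} (hx : ∀ μ, α μ ≠ x) :
    exchFun α β (Sum.inl x) = Sum.inl x := by
  simp only [exchFun]
  rw [dif_neg (by push Not; exact hx)]

private theorem ex_inr_of {A B M : Type} (α : M → A) (β : M → B) {x : B} (hx : ∀ μ, β μ ≠ x) :
    exchFun α β (Sum.inr x) = Sum.inr x := by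
  simp only [exchFun]
  rw [dif_neg (by push Not; exact hx)]

private theorem ex_inv {A B M : Type} {α : M → A} {β : M → B} (hα : Function.Injective α)
    (hβ : Function.Injective β) : Function.Involutive (exchFun α β) := by
  rintro (x | x)
  · by_cases h : ∃ μ, α μ = x
    · obtain ⟨μ, rfl⟩ := h
      rw [ex_inl β hα, ex_inr α hβ]
    · push Not at h
      rw [ex_inl_of α β h, ex_inl_of α β h]
  · by_cases h : ∃ μ, β μ = x
    · obtain ⟨μ, rfl⟩ := h
      rw [ex_inr α hβ, ex_inl β hα]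
    · push Not at h
      rw [ex_inr_of α β h, ex_inr_of α β h]

private theorem ex_eq {A B M : Type} {α : M → A} {β : M → B} (hα : Function.Injective α)
    (hβ : Function.Injective β) (z : A ⊕ B) : exch α β z = exchFun α β z := by
  unfold exch
  rw [dif_pos (ex_inv hα hβ)]
  rfl

private theorem mark_inj : Function.Injective mark := by
  intro a b
  revert a b
  decide

private theorem mark_succ (i : Fin 7) : mark i.succ = (i, 3) := rfl

private theorem mark_zero : mark 0 = (6, 1) := rfl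

private theorem mark_ne0 (μ : Fin 8) (i : Fin 7) : mark μ ≠ (i, 0) := by
  revert μ i
  decide

private theorem mark_ne2 (μ : Fin 8) (i : Fin 7) : mark μ ≠ (i, 2) := by
  revert μ i
  decide

private theorem mark_ne1 (μ : Fin 8) (i : Fin 7) (hi : i ≠ 6) : mark μ ≠ (i, 1) := by
  revert μ i
  decide

private theorem fC0 (i : Fin 7) : fanC (i, 0) = (i, 3) := rfl
private theorem fC1 (i : Fin 7) : fanC (i, 1) = (i + 1, 0) := rfl
private theorem fC2 (i : Fin 7) : fanC (i, 2) = (i - 1, 1) := rfl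
private theorem fC3 (i : Fin 7) : fanC (i, 3) = (i, 2) := rfl
private theorem fK0 (i : Fin 7) : fanK (i, 0) = (i, 1) := rfl
private theorem fK1 (i : Fin 7) : fanK (i, 1) = (i, 0) := rfl
private theorem fK2 (i : Fin 7) : fanK (i, 2) = (i, 3) := rfl
private theorem fK3 (i : Fin 7) : fanK (i, 3) = (i, 2) := rfl

theorem exch_inl {m : CMap X} {a : Fin 8 → X} (h : GoodMarks m a) (μ : Fin 8) :
    exch a mark (Sum.inl (a μ)) = Sum.inr (mark μ) := by
  rw [ex_eq h.inj mark_inj, ex_inl mark h.inj]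

theorem exch_inr {m : CMap X} {a : Fin 8 → X} (h : GoodMarks m a) (μ : Fin 8) :
    exch a mark (Sum.inr (mark μ)) = Sum.inl (a μ) := by
  rw [ex_eq h.inj mark_inj, ex_inr a mark_inj]

theorem exch_inl_of {m : CMap X} {a : Fin 8 → X} (h : GoodMarks m a) (x : X) (hx : ∀ μ, a μ ≠ x) :
    exch a mark (Sum.inl x) = Sum.inl x := by
  rw [ex_eq h.inj mark_inj, ex_inl_of a mark hx]

theorem exch_inr_of {m : CMap X} {a : Fin 8 → X} (h : GoodMarks m a) (p : Fan)
    (hp : ∀ μ, mark μ ≠ p) : exch a mark (Sum.inr p) = Sum.inr p := by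
  rw [ex_eq h.inj mark_inj, ex_inr_of a mark hp]

theorem exch_exch {m : CMap X} {a : Fin 8 → X} (h : GoodMarks m a) (z : X ⊕ Fan) :
    exch a mark (exch a mark z) = z := by
  rw [ex_eq h.inj mark_inj, ex_eq h.inj mark_inj]
  exact ex_inv h.inj mark_inj z

theorem fanMap_f (m : CMap X) (a : Fin 8 → X) (z : X ⊕ Fan) :
    (fanMap m a).f z = exch a mark (Sum.map m.f fanC (exch a mark z)) := by
  have h := (fanMap m a).k_k z
  change exch a mark (Sum.map m.f fanC (exch a mark ((fanMap m a).k ((fanMap m a).k z)))) = _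
  rw [h]

private theorem fm_r (m : CMap X) (a : Fin 8 → X) (z : X ⊕ Fan) :
    (fanMap m a).r z = exch a mark (Sum.map m.f fanC (exch a mark (Sum.map m.k fanK z))) := rfl

theorem rot_old {m : CMap X} {a : Fin 8 → X} (h : GoodMarks m a) (x : X)
    (h1 : ∀ μ, m.k x ≠ a μ) (h2 : ∀ μ, m.r x ≠ a μ) :
    (fanMap m a).r (Sum.inl x) = Sum.inl (m.r x) := by
  rw [fm_r, Sum.map_inl, exch_inl_of h _ (fun μ => (h1 μ).symm), Sum.map_inl, m.f_apply, m.k_k,
    exch_inl_of h _ (fun μ => (h2 μ).symm)]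

theorem rot_before {m : CMap X} {a : Fin 8 → X} (h : GoodMarks m a) (x : X) (μ : Fin 8)
    (hx : m.r x = a μ) : (fanMap m a).r (Sum.inl x) = Sum.inr (mark μ) := by
  have h1 : ∀ ν, a ν ≠ m.k x := by
    intro ν hν
    apply h.hf ν μ
    rw [hν, m.f_apply, m.k_k, hx]
  rw [fm_r, Sum.map_inl, exch_inl_of h _ h1, Sum.map_inl, m.f_apply, m.k_k, hx, exch_inl h]

theorem rot_k0 {m : CMap X} {a : Fin 8 → X} (h : GoodMarks m a) :
    (fanMap m a).r (Sum.inl (m.k (a 0))) = Sum.inr (0, 0) := by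
  rw [fm_r, Sum.map_inl, m.k_k, exch_inl h, mark_zero, Sum.map_inr, fC1]
  exact exch_inr_of h _ fun μ => mark_ne0 μ 0

theorem rot_ki {m : CMap X} {a : Fin 8 → X} (h : GoodMarks m a) (i : Fin 7) :
    (fanMap m a).r (Sum.inl (m.k (a i.succ))) = Sum.inr (i, 2) := by
  rw [fm_r, Sum.map_inl, m.k_k, exch_inl h, mark_succ, Sum.map_inr, fC3]
  exact exch_inr_of h _ fun μ => mark_ne2 μ i

theorem rot_B {m : CMap X} {a : Fin 8 → X} (h : GoodMarks m a) (i : Fin 7) (hi : i ≠ 6) :
    (fanMap m a).r (Sum.inr (i, 0)) = Sum.inr (i + 1, 0) := by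
  rw [fm_r, Sum.map_inr, fK0, exch_inr_of h _ (fun μ => mark_ne1 μ i hi), Sum.map_inr, fC1]
  exact exch_inr_of h _ fun μ => mark_ne0 μ (i + 1)

theorem rot_B6 {m : CMap X} {a : Fin 8 → X} (h : GoodMarks m a) :
    (fanMap m a).r (Sum.inr (6, 0)) = Sum.inl (m.f (a 0)) := by
  rw [fm_r, Sum.map_inr, fK0, ← mark_zero, exch_inr h, Sum.map_inl]
  exact exch_inl_of h _ fun μ => (h.hf 0 μ).symm

theorem rot_B' {m : CMap X} {a : Fin 8 → X} (h : GoodMarks m a) (i : Fin 7) :
    (fanMap m a).r (Sum.inr (i, 2)) = Sum.inl (m.f (a i.succ)) := by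
  rw [fm_r, Sum.map_inr, fK2, ← mark_succ, exch_inr h, Sum.map_inl]
  exact exch_inl_of h _ fun μ => (h.hf i.succ μ).symm

theorem rot_b {m : CMap X} {a : Fin 8 → X} (h : GoodMarks m a) (i : Fin 7) :
    (fanMap m a).r (Sum.inr (i, 1)) = Sum.inl (a i.succ) := by
  rw [fm_r, Sum.map_inr, fK1, exch_inr_of h _ (fun μ => mark_ne0 μ i), Sum.map_inr, fC0,
    ← mark_succ, exch_inr h]

theorem rot_b' {m : CMap X} {a : Fin 8 → X} (h : GoodMarks m a) (i : Fin 7) (hi : i ≠ 0) :
    (fanMap m a).r (Sum.inr (i, 3)) = Sum.inr (i - 1, 1) := by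
  have h1 : i - 1 ≠ 6 := by
    revert i
    decide
  rw [fm_r, Sum.map_inr, fK3, exch_inr_of h _ (fun μ => mark_ne2 μ i), Sum.map_inr, fC2]
  exact exch_inr_of h _ fun μ => mark_ne1 μ (i - 1) h1

theorem rot_b'0 {m : CMap X} {a : Fin 8 → X} (h : GoodMarks m a) :
    (fanMap m a).r (Sum.inr (0, 3)) = Sum.inl (a 0) := by
  have h1 : ((0 - 1 : Fin 7), (1 : Fin 4)) = mark 0 := by decide
  rw [fm_r, Sum.map_inr, fK3, exch_inr_of h _ (fun μ => mark_ne2 μ 0), Sum.map_inr, fC2, h1,
    exch_inr h]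

theorem mem_fans {d : ℕ} {q : Fin 7 → ℕ} :
    q ∈ fans d ↔ StrictMono q ∧ 1 ≤ q 0 ∧ ∀ i, q i < d := by
  unfold fans
  rw [Finset.mem_filter, Fintype.mem_piFinset]
  simp only [Finset.mem_range]
  tauto

theorem fan_good [Finite X] (m : CMap X) (y : X) (q : Fin 7 → ℕ) (hq : q ∈ fans (m.deg y))
    (hy : ∀ x, m.r.SameCycle y x → ¬ m.r.SameCycle y (m.k x)) : GoodMarks m (fanA m y q) := by
  obtain ⟨h1, h2, h3⟩ := mem_fans.1 hq
  have hd : 0 < m.deg y := lt_of_le_of_lt (Nat.zero_le _) (h3 0)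
  obtain ⟨Q, hQ⟩ : ∃ Q : Fin 8 → ℕ, Q = Fin.cons 0 q := ⟨_, rfl⟩
  have ha : ∀ μ, fanA m y q μ = m.r^[Q μ] y := by
    intro μ
    refine Fin.cases ?_ (fun i => ?_) μ
    · rw [hQ]
      rfl
    · rw [hQ]
      rfl
  have hQd : ∀ μ, Q μ < m.deg y := by
    intro μ
    refine Fin.cases ?_ (fun i => ?_) μ
    · rw [hQ]
      exact hd
    · rw [hQ]
      exact h3 i
  have hQi : Function.Injective Q := by
    rw [hQ]
    refine Fin.cons_injective_iff.2 ⟨?_, h1.injective⟩
    rintro ⟨i, hi⟩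
    have h4 := h1.monotone (Fin.zero_le i)
    omega
  have hs : ∀ μ, m.r.SameCycle y (fanA m y q μ) := by
    intro μ
    rw [ha, Equiv.Perm.iterate_eq_pow]
    exact ⟨(Q μ : ℤ), by rw [zpow_natCast]⟩
  refine ⟨?_, ?_, ?_⟩
  · intro μ ν hμν
    rw [ha, ha] at hμν
    exact hQi (Function.iterate_injOn_Iio_minimalPeriod (hQd μ) (hQd ν) hμν)
  · intro μ ν hμν
    apply hy _ (hs μ)
    rw [hμν]
    exact hs ν
  · intro μ ν hμν
    apply hy _ (hs μ)
    have h4 := hs ν
    rw [← hμν, m.f_apply] at h4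
    exact Equiv.Perm.sameCycle_apply_right.1 h4

end UIPQ
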