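import Pool.Agent.Lib.UIPQ.B.FormH
import Pool.Agent.Lib.UIPQ.B.Rot

/-!
# Weight: comparison of the weights before and after the surgery

PROOF. Let χ on X with χ T = 1, d = deg y. Extend it: χ' (inl x) = χ x, χ' (inr (i,0)) = χ (k y), χ' (inr (i,2)) = χ (k (a (i+1))),
χ' (inr (i,1)) = χ (a (i+1)), χ' (inr (i,3)) = χ (r⁻¹ (a (i+1))). a = fanA m y q.
D = ∑_{x at y} (χ x - χ (r x))²; for x, x' at y: (χ x - χ x')² ≤ d D (Cauchy-Schwarz along the at most d - 1 steps). D ≤ EH χ. For every x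
(χ x - χ (k x))² ≤ EH χ (the darts x and k x both occur in (1/2)∑).
EH' χ' = (1/2) ∑_z (χ' z - χ' (k' z))² + ∑_z (χ' z - χ' (r' z))². Old darts in the first sum: as in EH χ. The pair inr (i,0), inr (i,1):
(χ (k y) - χ (a (i+1)))² ≤ 2 (χ (k y) - χ y)² + 2 (χ y - χ (a (i+1)))² ≤ 2 EH + 2 d EH. The pair inr (i,2), inr (i,3): ≤ 2 EH + 2 EH.
Second sum by the formulas of Rot: rot_old: as in EH; rot_before (r x = a (i+1)): χ' (inr (i,3)) = χ x: 0; (r x = a 0): χ x - χ (a 7) : ≤ d EH;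
rot_k0, rot_B, rot_ki, rot_b: 0; rot_B6: χ (k y) - χ (r (k y)): a term of EH; rot_B': χ (k a) - χ (r (k a)): a term of EH; (these
terms of EH do not occur in the old darts, as the r' of inl (k a) is a new dart); rot_b': ≤ d EH each; rot_b'0: ≤ d EH.
Total EH' ≤ EH (1 + 7 (2 + 2d + 4) + 8 d) ≤ 65 d EH (d ≥ 1: 43 + 22 d ≤ 65 d). ∑ χ'² ≤ ∑ χ² + 28 ∑ χ² ≤ 65 d ∑ χ².
So capH' (inl T) ≤ 65 d capH T (infimum over χ; csInf), and W T = min 1 (κ/capH T) ≤ 65 d min 1 (κ/capH' (inl T)).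
-/

namespace UIPQ

open Finset

variable {X : Type} [Fintype X]

private theorem bw_k_le (m : CMap X) (χ : X → ℝ) (x : X) :
    (χ x - χ (m.k x)) ^ 2 ≤ m.EH χ := by
  classical
  have h1 : ∑ z ∈ ({x, m.k x} : Finset X), (χ z - χ (m.k z)) ^ 2 ≤ ∑ z, (χ z - χ (m.k z)) ^ 2 :=
    Finset.sum_le_univ_sum_of_nonneg fun z => sq_nonneg _
  rw [Finset.sum_pair (m.k_ne x).symm, m.k_k] at h1
  have h2 : 0 ≤ ∑ z, (χ z - χ (m.r z)) ^ 2 := Finset.sum_nonneg fun z _ => sq_nonneg _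
  unfold CMap.EH
  nlinarith [h1, h2]

private theorem bw_r_sum_le (m : CMap X) (χ : X → ℝ) :
    ∑ z, (χ z - χ (m.r z)) ^ 2 ≤ m.EH χ := by
  have h2 : 0 ≤ ∑ z, (χ z - χ (m.k z)) ^ 2 := Finset.sum_nonneg fun z _ => sq_nonneg _
  unfold CMap.EH
  linarith

private theorem bw_r_le (m : CMap X) (χ : X → ℝ) (x : X) :
    (χ x - χ (m.r x)) ^ 2 ≤ m.EH χ :=
  (Finset.single_le_sum (f := fun z => (χ z - χ (m.r z)) ^ 2) (fun z _ => sq_nonneg _)
    (Finset.mem_univ x)).trans (bw_r_sum_le m χ)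

private theorem bw_at_aux (m : CMap X) (χ : X → ℝ) (y : X) {s t : ℕ} (hst : s ≤ t)
    (ht : t < m.deg y) :
    (χ (m.r^[s] y) - χ (m.r^[t] y)) ^ 2 ≤ (m.deg y : ℝ) * m.EH χ := by
  classical
  obtain ⟨n, rfl⟩ := Nat.exists_eq_add_of_le hst
  have h1 : ∑ i ∈ Finset.range n, (χ (m.r^[s + i] y) - χ (m.r^[s + (i + 1)] y)) =
      χ (m.r^[s] y) - χ (m.r^[s + n] y) :=
    Finset.sum_range_sub' (fun i => χ (m.r^[s + i] y)) n
  rw [← h1]
  refine (sq_sum_le_card_mul_sum_sq (s := Finset.range n)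
    (f := fun i => χ (m.r^[s + i] y) - χ (m.r^[s + (i + 1)] y))).trans ?_
  rw [Finset.card_range]
  have h2 : ∑ i ∈ Finset.range n, (χ (m.r^[s + i] y) - χ (m.r^[s + (i + 1)] y)) ^ 2 ≤ m.EH χ := by
    have hinj : Set.InjOn (fun i => m.r^[s + i] y) (Finset.range n : Set ℕ) := by
      intro i hi j hj hij
      have hi' : i < n := Finset.mem_range.1 hi
      have hj' : j < n := Finset.mem_range.1 hj
      have h3 := Function.iterate_injOn_Iio_minimalPeriod (f := m.r) (x := y)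
        (show s + i < Function.minimalPeriod m.r y from by
          have : s + n < Function.minimalPeriod m.r y := ht
          omega)
        (show s + j < Function.minimalPeriod m.r y from by
          have : s + n < Function.minimalPeriod m.r y := ht
          omega) hij
      omega
    have h4 : ∑ i ∈ Finset.range n, (χ (m.r^[s + i] y) - χ (m.r^[s + (i + 1)] y)) ^ 2 =
        ∑ z ∈ (Finset.range n).image (fun i => m.r^[s + i] y), (χ z - χ (m.r z)) ^ 2 := by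
      rw [Finset.sum_image hinj]
      refine Finset.sum_congr rfl fun i _ => ?_
      rw [← add_assoc, Function.iterate_succ_apply']
    rw [h4]
    exact (Finset.sum_le_univ_sum_of_nonneg fun z => sq_nonneg _).trans (bw_r_sum_le m χ)
  have h5 : (n : ℝ) ≤ (m.deg y : ℝ) := by
    exact_mod_cast (show n ≤ m.deg y by omega)
  exact mul_le_mul h5 h2 (Finset.sum_nonneg fun i _ => sq_nonneg _) (Nat.cast_nonneg _)

private theorem bw_at (m : CMap X) (χ : X → ℝ) (y : X) {s t : ℕ} (hs : s < m.deg y)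
    (ht : t < m.deg y) :
    (χ (m.r^[s] y) - χ (m.r^[t] y)) ^ 2 ≤ (m.deg y : ℝ) * m.EH χ := by
  rcases le_total s t with h | h
  · exact bw_at_aux m χ y h ht
  · rw [← neg_sub, neg_sq]
    exact bw_at_aux m χ y h hs

/-- the extension of a function to the new darts -/
private noncomputable def bwE (m : CMap X) (a : Fin 8 → X) (χ : X → ℝ) : X ⊕ Fan → ℝ :=
  Sum.elim χ (fun p => ![χ (m.k (a 0)), χ (a p.1.succ), χ (m.k (a p.1.succ)),
    χ (m.r⁻¹ (a p.1.succ))] p.2)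

private theorem bw_EH (m : CMap X) (y : X) (q : Fin 7 → ℕ)
    (hq : q ∈ fans (m.deg y)) (hy : ∀ x, m.r.SameCycle y x → ¬ m.r.SameCycle y (m.k x)) (χ : X → ℝ) :
    (fan m y q).EH (bwE m (fanA m y q) χ) ≤ 65 * (m.deg y : ℝ) * m.EH χ := by
  classical
  have hG := fan_good m y q hq hy
  obtain ⟨hq1, hq2, hq3⟩ := mem_fans.1 hq
  have hq4 : ∀ i, 1 ≤ q i := fun i => hq2.trans (hq1.monotone (Fin.zero_le i))
  have hd : 2 ≤ m.deg y := by
    have := hq3 0
    omega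
  have hd' : (2 : ℝ) ≤ (m.deg y : ℝ) := by exact_mod_cast hd
  obtain ⟨a, ha⟩ : ∃ a, a = fanA m y q := ⟨_, rfl⟩
  obtain ⟨E, hE⟩ : ∃ E, E = m.EH χ := ⟨_, rfl⟩
  obtain ⟨D, hD⟩ : ∃ D, D = (m.deg y : ℝ) := ⟨_, rfl⟩
  have ha0 : a 0 = m.r^[0] y := by rw [ha]; rfl
  have has : ∀ i : Fin 7, a i.succ = m.r^[q i] y := fun i => by
    rw [ha]
    exact Fin.cons_succ _ _ _
  have hap : ∀ i : Fin 7, m.r⁻¹ (a i.succ) = m.r^[q i - 1] y := fun i => by
    rw [has, Equiv.Perm.inv_eq_iff_eq, ← Function.iterate_succ_apply' m.r,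
      show (q i - 1).succ = q i by have := hq4 i; omega]
  have hap0 : m.r⁻¹ (a 0) = m.r^[m.deg y - 1] y := by
    rw [ha0, Equiv.Perm.inv_eq_iff_eq, ← Function.iterate_succ_apply' m.r,
      show (m.deg y - 1).succ = m.deg y by omega]
    exact (Function.isPeriodicPt_minimalPeriod m.r y).eq.symm
  have hE0 : 0 ≤ E := by
    rw [hE]
    exact (sq_nonneg _).trans (bw_k_le m χ y)
  have hDE : E ≤ D * E := by nlinarith
  rw [← ha] at hG ⊢
  rw [← hE, ← hD]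
  rw [← hD] at hd'
  have hkE : ∀ x, (χ x - χ (m.k x)) ^ 2 ≤ E := fun x => hE ▸ bw_k_le m χ x
  have hrE : ∀ x, (χ x - χ (m.r x)) ^ 2 ≤ E := fun x => hE ▸ bw_r_le m χ x
  have hat : ∀ s t, s < m.deg y → t < m.deg y → (χ (m.r^[s] y) - χ (m.r^[t] y)) ^ 2 ≤ D * E :=
    fun s t hs ht => by
      rw [hE, hD]
      exact bw_at m χ y hs ht
  -- the values
  have v0 : ∀ i : Fin 7, bwE m a χ (Sum.inr (i, 0)) = χ (m.k (a 0)) := fun i => rfl
  have v1 : ∀ i : Fin 7, bwE m a χ (Sum.inr (i, 1)) = χ (a i.succ) := fun i => rfl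
  have v2 : ∀ i : Fin 7, bwE m a χ (Sum.inr (i, 2)) = χ (m.k (a i.succ)) := fun i => rfl
  have v3 : ∀ i : Fin 7, bwE m a χ (Sum.inr (i, 3)) = χ (m.r⁻¹ (a i.succ)) := fun i => rfl
  have vl : ∀ x, bwE m a χ (Sum.inl x) = χ x := fun x => rfl
  have k0 : ∀ i : Fin 7, (fanMap m a).k (Sum.inr (i, 0)) = Sum.inr (i, 1) := fun i => rfl
  have k1 : ∀ i : Fin 7, (fanMap m a).k (Sum.inr (i, 1)) = Sum.inr (i, 0) := fun i => rfl
  have k2 : ∀ i : Fin 7, (fanMap m a).k (Sum.inr (i, 2)) = Sum.inr (i, 3) := fun i => rfl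
  have k3 : ∀ i : Fin 7, (fanMap m a).k (Sum.inr (i, 3)) = Sum.inr (i, 2) := fun i => rfl
  have kl : ∀ x, (fanMap m a).k (Sum.inl x) = Sum.inl (m.k x) := fun x => rfl
  have hfan : fan m y q = fanMap m a := by rw [ha]; rfl
  rw [hfan]
  -- elementary bounds
  have b01 : ∀ i : Fin 7, (χ (m.k (a 0)) - χ (a i.succ)) ^ 2 ≤ 2 * E + 2 * (D * E) := fun i => by
    have e1 := hkE (a 0)
    have e2 : (χ (a 0) - χ (a i.succ)) ^ 2 ≤ D * E := by
      rw [ha0, has]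
      exact hat _ _ (by omega) (hq3 i)
    nlinarith [sq_nonneg ((χ (m.k (a 0)) - χ (a 0)) - (χ (a 0) - χ (a i.succ)))]
  have hai : ∀ z : X, m.r (m.r⁻¹ z) = z := fun z => m.r.apply_symm_apply z
  have hia : ∀ z : X, m.r⁻¹ (m.r z) = z := fun z => m.r.symm_apply_apply z
  have bra : ∀ i : Fin 7, (χ (a i.succ) - χ (m.r⁻¹ (a i.succ))) ^ 2 ≤ E := fun i => by
    have e1 := hrE (m.r⁻¹ (a i.succ))
    rw [hai] at e1
    rw [← neg_sub, neg_sq]
    exact e1
  have b23 : ∀ i : Fin 7, (χ (m.k (a i.succ)) - χ (m.r⁻¹ (a i.succ))) ^ 2 ≤ 4 * E := fun i => by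
    have e1 := hkE (a i.succ)
    have e2 := bra i
    nlinarith [sq_nonneg ((χ (m.k (a i.succ)) - χ (a i.succ)) -
      (χ (a i.succ) - χ (m.r⁻¹ (a i.succ))))]
  -- first sum
  have hS1 : (∑ z, (bwE m a χ z - bwE m a χ ((fanMap m a).k z)) ^ 2) / 2 ≤
      (∑ x, (χ x - χ (m.k x)) ^ 2) / 2 + 7 * (6 * E + 2 * (D * E)) := by
    rw [Fintype.sum_sum_type, Fintype.sum_prod_type]
    have h1 : ∑ i : Fin 7, ∑ j : Fin 4, (bwE m a χ (Sum.inr (i, j)) -
        bwE m a χ ((fanMap m a).k (Sum.inr (i, j)))) ^ 2 ≤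
        ∑ i : Fin 7, 2 * (6 * E + 2 * (D * E)) := by
      refine Finset.sum_le_sum fun i _ => ?_
      rw [Fin.sum_univ_four, k0, k1, k2, k3, v0, v1, v2, v3]
      have e1 := b01 i
      have e2 := b23 i
      have e3 : (χ (a i.succ) - χ (m.k (a 0))) ^ 2 = (χ (m.k (a 0)) - χ (a i.succ)) ^ 2 := by ring
      have e4 : (χ (m.r⁻¹ (a i.succ)) - χ (m.k (a i.succ))) ^ 2 =
        (χ (m.k (a i.succ)) - χ (m.r⁻¹ (a i.succ))) ^ 2 := by ring
      rw [e3, e4]
      linarith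
    rw [Finset.sum_const, Finset.card_univ, Fintype.card_fin, nsmul_eq_mul] at h1
    have h2 : ∑ x : X, (bwE m a χ (Sum.inl x) - bwE m a χ ((fanMap m a).k (Sum.inl x))) ^ 2 =
        ∑ x, (χ x - χ (m.k x)) ^ 2 := rfl
    rw [h2]
    push_cast at h1
    linarith
  -- second sum, old darts
  have hS2 : ∑ x : X, (bwE m a χ (Sum.inl x) - bwE m a χ ((fanMap m a).r (Sum.inl x))) ^ 2 ≤
      (∑ x, (χ x - χ (m.r x)) ^ 2) + D * E := by
    have h1 : ∀ x : X, (bwE m a χ (Sum.inl x) - bwE m a χ ((fanMap m a).r (Sum.inl x))) ^ 2 ≤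
        (χ x - χ (m.r x)) ^ 2 + if x = m.r⁻¹ (a 0) then D * E else 0 := by
      intro x
      have hnn : (0 : ℝ) ≤ if x = m.r⁻¹ (a 0) then D * E else 0 := by
        split_ifs
        · exact hE0.trans hDE
        · exact le_rfl
      have hz : bwE m a χ ((fanMap m a).r (Sum.inl x)) = χ x →
          (bwE m a χ (Sum.inl x) - bwE m a χ ((fanMap m a).r (Sum.inl x))) ^ 2 ≤
            (χ x - χ (m.r x)) ^ 2 + if x = m.r⁻¹ (a 0) then D * E else 0 := by
        intro h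
        rw [h, vl, sub_self, zero_pow two_ne_zero]
        have := sq_nonneg (χ x - χ (m.r x))
        linarith
      by_cases h2 : ∃ μ, m.r x = a μ
      · obtain ⟨μ, hμ⟩ := h2
        induction μ using Fin.cases with
        | zero =>
          have h3 : x = m.r⁻¹ (a 0) := by rw [← hμ, hia]
          rw [rot_before hG x 0 hμ, if_pos h3, vl]
          have h4 : bwE m a χ (Sum.inr (mark 0)) = χ (a (6 : Fin 7).succ) := rfl
          rw [h4, h3, hap0, has]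
          have h5 := hat (m.deg y - 1) (q 6) (by omega) (hq3 6)
          have h6 := sq_nonneg (χ (m.r^[m.deg y - 1] y) - χ (m.r (m.r^[m.deg y - 1] y)))
          linarith
        | succ i =>
          apply hz
          rw [rot_before hG x i.succ hμ]
          have h4 : bwE m a χ (Sum.inr (mark i.succ)) = χ (m.r⁻¹ (a i.succ)) := rfl
          rw [h4, ← hμ, hia]
      · by_cases h3 : ∃ μ, m.k x = a μ
        · obtain ⟨μ, hμ⟩ := h3
          apply hz
          have h4 : x = m.k (a μ) := by rw [← hμ, m.k_k]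
          induction μ using Fin.cases with
          | zero => rw [h4, rot_k0 hG, v0]
          | succ i => rw [h4, rot_ki hG, v2]
        · rw [rot_old hG x (fun μ hμ => h3 ⟨μ, hμ⟩) (fun μ hμ => h2 ⟨μ, hμ⟩), vl, vl]
          linarith
    refine (Finset.sum_le_sum fun x _ => h1 x).trans ?_
    rw [Finset.sum_add_distrib, Finset.sum_ite_eq', if_pos (Finset.mem_univ _)]
  -- second sum, new darts
  have hS3 : ∑ i : Fin 7, ∑ j : Fin 4, (bwE m a χ (Sum.inr (i, j)) -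
      bwE m a χ ((fanMap m a).r (Sum.inr (i, j)))) ^ 2 ≤ 7 * (2 * E + D * E) := by
    have h1 : ∀ i : Fin 7, ∑ j : Fin 4, (bwE m a χ (Sum.inr (i, j)) -
        bwE m a χ ((fanMap m a).r (Sum.inr (i, j)))) ^ 2 ≤ 2 * E + D * E := by
      intro i
      rw [Fin.sum_univ_four]
      have e0 : (bwE m a χ (Sum.inr (i, 0)) - bwE m a χ ((fanMap m a).r (Sum.inr (i, 0)))) ^ 2 ≤ E := by
        by_cases hi : i = 6
        · rw [hi, rot_B6 hG, v0, vl, CMap.f_apply]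
          exact hrE _
        · rw [rot_B hG i hi, v0, v0, sub_self, zero_pow two_ne_zero]
          exact hE0
      have e1 : (bwE m a χ (Sum.inr (i, 1)) - bwE m a χ ((fanMap m a).r (Sum.inr (i, 1)))) ^ 2 = 0 := by
        rw [rot_b hG, v1, vl, sub_self, zero_pow two_ne_zero]
      have e2 : (bwE m a χ (Sum.inr (i, 2)) - bwE m a χ ((fanMap m a).r (Sum.inr (i, 2)))) ^ 2 ≤ E := by
        rw [rot_B' hG, v2, vl, CMap.f_apply]
        exact hrE _
      have e3 : (bwE m a χ (Sum.inr (i, 3)) - bwE m a χ ((fanMap m a).r (Sum.inr (i, 3)))) ^ 2 ≤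
          D * E := by
        by_cases hi : i = 0
        · rw [hi, rot_b'0 hG, v3, vl, hap, ha0]
          exact hat _ _ (by have := hq3 0; omega) (by omega)
        · rw [rot_b' hG i hi, v3, v1, hap, has]
          exact hat _ _ (by have := hq3 i; omega) (hq3 _)
      linarith
    refine (Finset.sum_le_sum fun i _ => h1 i).trans ?_
    rw [Finset.sum_const, Finset.card_univ, Fintype.card_fin, nsmul_eq_mul]
    push_cast
    linarith
  have hS4 : ∑ z, (bwE m a χ z - bwE m a χ ((fanMap m a).r z)) ^ 2 ≤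
      (∑ x, (χ x - χ (m.r x)) ^ 2) + D * E + 7 * (2 * E + D * E) := by
    rw [Fintype.sum_sum_type, Fintype.sum_prod_type]
    linarith
  have hEe : (∑ x, (χ x - χ (m.k x)) ^ 2) / 2 + ∑ x, (χ x - χ (m.r x)) ^ 2 = E := by
    rw [hE]
    rfl
  have h57 : 57 * E ≤ 43 * (D * E) := by nlinarith
  have hgoal : (fanMap m a).EH (bwE m a χ) =
      (∑ z, (bwE m a χ z - bwE m a χ ((fanMap m a).k z)) ^ 2) / 2 +
        ∑ z, (bwE m a χ z - bwE m a χ ((fanMap m a).r z)) ^ 2 := rfl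
  rw [hgoal, mul_assoc]
  linarith

private theorem bw_sq (m : CMap X) (a : Fin 8 → X) (χ : X → ℝ) :
    ∑ z, bwE m a χ z ^ 2 ≤ 29 * ∑ x, χ x ^ 2 := by
  have h0 : ∀ x, χ x ^ 2 ≤ ∑ x, χ x ^ 2 := fun x =>
    Finset.single_le_sum (f := fun z => χ z ^ 2) (fun z _ => sq_nonneg _) (Finset.mem_univ x)
  rw [Fintype.sum_sum_type, Fintype.sum_prod_type]
  have h1 : ∑ i : Fin 7, ∑ j : Fin 4, bwE m a χ (Sum.inr (i, j)) ^ 2 ≤
      ∑ i : Fin 7, 4 * ∑ x, χ x ^ 2 := by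
    refine Finset.sum_le_sum fun i _ => ?_
    rw [Fin.sum_univ_four]
    have e0 : bwE m a χ (Sum.inr (i, 0)) ^ 2 ≤ ∑ x, χ x ^ 2 := h0 _
    have e1 : bwE m a χ (Sum.inr (i, 1)) ^ 2 ≤ ∑ x, χ x ^ 2 := h0 _
    have e2 : bwE m a χ (Sum.inr (i, 2)) ^ 2 ≤ ∑ x, χ x ^ 2 := h0 _
    have e3 : bwE m a χ (Sum.inr (i, 3)) ^ 2 ≤ ∑ x, χ x ^ 2 := h0 _
    linarith
  rw [Finset.sum_const, Finset.card_univ, Fintype.card_fin, nsmul_eq_mul] at h1
  have h2 : ∑ x : X, bwE m a χ (Sum.inl x) ^ 2 = ∑ x, χ x ^ 2 := rfl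
  rw [h2]
  push_cast at h1
  linarith

omit [Fintype X] in
private theorem bw_deg (m : CMap X) (y : X) (q : Fin 7 → ℕ) (hq : q ∈ fans (m.deg y)) :
    (2 : ℝ) ≤ (m.deg y : ℝ) := by
  obtain ⟨-, hq2, hq3⟩ := mem_fans.1 hq
  have h1 := hq3 0
  exact_mod_cast (show 2 ≤ m.deg y by omega)

theorem capH_fan (m : CMap X) {lam : ℝ} (hl : 0 < lam) (y : X) (q : Fin 7 → ℕ)
    (hq : q ∈ fans (m.deg y)) (hy : ∀ x, m.r.SameCycle y x → ¬ m.r.SameCycle y (m.k x)) (T : X) :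
    (fan m y q).capH lam (Sum.inl T) ≤ 65 * (m.deg y : ℝ) * m.capH lam T := by
  have hd := bw_deg m y q hq
  have hpos : (0 : ℝ) < 65 * (m.deg y : ℝ) := by linarith
  have h1 : (fan m y q).capH lam (Sum.inl T) / (65 * (m.deg y : ℝ)) ≤ m.capH lam T := by
    refine le_csInf ⟨_, fun _ => 1, rfl, rfl⟩ ?_
    rintro e ⟨χ, hχ, rfl⟩
    rw [div_le_iff₀ hpos]
    refine (capH_le_of (fan m y q) hl (Sum.inl T) (bwE m (fanA m y q) χ) hχ).trans ?_
    have h2 := bw_EH m y q hq hy χ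
    have h3 := bw_sq m (fanA m y q) χ
    have h4 : 0 ≤ ∑ x, χ x ^ 2 := Finset.sum_nonneg fun x _ => sq_nonneg _
    have h5 : lam * ∑ z, bwE m (fanA m y q) χ z ^ 2 ≤ 65 * (m.deg y : ℝ) * (lam * ∑ x, χ x ^ 2) := by
      have h6 : lam * ∑ z, bwE m (fanA m y q) χ z ^ 2 ≤ lam * (29 * ∑ x, χ x ^ 2) :=
        mul_le_mul_of_nonneg_left h3 hl.le
      have h7 : 0 ≤ lam * ∑ x, χ x ^ 2 := mul_nonneg hl.le h4
      nlinarith
    rw [add_mul]
    have h8 : m.EH χ * (65 * (m.deg y : ℝ)) = 65 * (m.deg y : ℝ) * m.EH χ := mul_comm _ _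
    have h9 : (lam * ∑ x, χ x ^ 2) * (65 * (m.deg y : ℝ)) =
      65 * (m.deg y : ℝ) * (lam * ∑ x, χ x ^ 2) := mul_comm _ _
    rw [h8, h9]
    linarith
  rw [div_le_iff₀ hpos] at h1
  rw [mul_comm (65 * (m.deg y : ℝ))]
  exact h1

theorem W_fan (m : CMap X) {lam κ : ℝ} (hl : 0 < lam) (hκ : 0 < κ) (y : X) (q : Fin 7 → ℕ)
    (hq : q ∈ fans (m.deg y)) (hy : ∀ x, m.r.SameCycle y x → ¬ m.r.SameCycle y (m.k x)) (T : X) :
    m.W lam κ T ≤ 65 * (m.deg y : ℝ) * (fan m y q).W lam κ (Sum.inl T) := by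
  have hd := bw_deg m y q hq
  have h1 := capH_fan m hl y q hq hy T
  have hc : 0 < m.capH lam T := hl.trans_le (le_capH m hl T)
  have hc' : 0 < (fan m y q).capH lam (Sum.inl T) := hl.trans_le (le_capH _ hl _)
  unfold CMap.W
  rcases le_total 1 (κ / (fan m y q).capH lam (Sum.inl T)) with h | h
  · rw [min_eq_left h]
    refine (min_le_left _ _).trans ?_
    linarith
  · rw [min_eq_right h]
    refine (min_le_right _ _).trans ?_
    rw [mul_div_assoc', div_le_div_iff₀ hc hc']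
    have h2 := mul_le_mul_of_nonneg_left h1 hκ.le
    linarith

end UIPQ
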