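import Pool.Agent.Lib.UIPQ.B.Energy
import Pool.Agent.Lib.UIPQ.B.Weight
import Pool.Agent.Lib.UIPQ.B.FanQuad

/-!
# PiStar: the weighted energy of a star is controlled by the stars of the eight new vertices

PROOF. m' = fan m y q, d = deg y. star y = ∑_T W T ∑_{x at y} 2 be (pot T) (pot T) x ≤ ∑_T (65 d W' (inl T)) (32 d ∑_{z ∈ fanSet} 2 be' z)
(W_fan, energy_cmp) ≤ 2080 d² ∑_{z ∈ fanSet} 2 pi' z (pi' has more terms, all nonnegative: be_nonneg, W_pos). Every z ∈ fanSet is in
the r'-orbit of a foot (fanSet_foot) and the degree of the foot is ≤ d + 14 (foot_fan, fan_deg): so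
∑_{z∈fanSet} 2 pi' z ≤ ∑_i [deg' (foot i) ≤ d + 14] star' (foot i).
-/

namespace UIPQ

open Finset Classical

variable {X : Type} [Fintype X]

private theorem piStar_pi (m : CMap X) {lam κ : ℝ} (hl : 0 < lam) (hκ : 0 < κ) (y : X) :
    0 ≤ m.pi lam κ y :=
  Finset.sum_nonneg fun T _ => mul_nonneg (W_pos m hl hκ T).le (be_nonneg m hl.le _ y)

theorem star_nonneg (m : CMap X) {lam κ : ℝ} (hl : 0 < lam) (hκ : 0 < κ) (y : X) :
    0 ≤ m.star lam κ y :=
  Finset.sum_nonneg fun x _ => mul_nonneg zero_le_two (piStar_pi m hl hκ x)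

theorem pi_nonneg (m : CMap X) {lam κ : ℝ} (hl : 0 < lam) (hκ : 0 < κ) (y : X) :
    0 ≤ m.pi lam κ y := piStar_pi m hl hκ y

/-- interchange of the sums over the darts and over the potentials -/
private theorem piStar_comm (m : CMap X) (lam κ : ℝ) (s : Finset X) :
    ∑ x ∈ s, 2 * m.pi lam κ x =
      ∑ T, m.W lam κ T * ∑ x ∈ s, 2 * m.be lam (m.pot lam T) (m.pot lam T) x := by
  unfold CMap.pi
  simp only [Finset.mul_sum]
  rw [Finset.sum_comm]
  refine Finset.sum_congr rfl fun T _ => Finset.sum_congr rfl fun x _ => ?_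
  ring

/-- a sum over a set covered by eight sets -/
private theorem piStar_cover {Z : Type} (s : Finset Z) (f : Z → ℝ) (hf : ∀ z, 0 ≤ f z)
    (t : Fin 8 → Finset Z) (h : ∀ z ∈ s, ∃ i, z ∈ t i) : ∑ z ∈ s, f z ≤ ∑ i, ∑ z ∈ t i, f z := by
  have h1 : ∀ z ∈ s, f z ≤ ∑ i, if z ∈ t i then f z else 0 := by
    intro z hz
    obtain ⟨i, hi⟩ := h z hz
    have h2 : f z = if z ∈ t i then f z else 0 := (if_pos hi).symm
    calc f z = if z ∈ t i then f z else 0 := h2
      _ ≤ ∑ i, if z ∈ t i then f z else 0 :=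
        Finset.single_le_sum (f := fun i => if z ∈ t i then f z else 0)
          (fun j _ => by
            show 0 ≤ if z ∈ t j then f z else 0
            split_ifs
            · exact hf z
            · exact le_rfl) (Finset.mem_univ i)
  refine (Finset.sum_le_sum h1).trans ?_
  rw [Finset.sum_comm]
  refine Finset.sum_le_sum fun i _ => ?_
  rw [← Finset.sum_filter]
  refine Finset.sum_le_sum_of_subset_of_nonneg ?_ fun z _ _ => hf z
  intro z hz
  exact (Finset.mem_filter.1 hz).2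

theorem star_fan (m : CMap X) (h : m.IsQuad) {lam κ : ℝ} (hl : 0 < lam) (hκ : 0 < κ) (y : X)
    (q : Fin 7 → ℕ) (hq : q ∈ fans (m.deg y)) :
    m.star lam κ y ≤ 2080 * (m.deg y : ℝ) ^ 2 * ∑ i : Fin 8,
      if (fan m y q).deg ((fan m y q).foot (Sum.inr (0, 0)) i) ≤ m.deg y + 14 then
        (fan m y q).star lam κ ((fan m y q).foot (Sum.inr (0, 0)) i) else 0 := by
  have hy : ∀ x, m.r.SameCycle y x → ¬ m.r.SameCycle y (m.k x) := fun x hx => no_loop' m h y x hx
  have hd : (0 : ℝ) ≤ (m.deg y : ℝ) := Nat.cast_nonneg _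
  -- the eight new vertices
  have h1 : ∑ z ∈ fanSet m y, 2 * (fan m y q).pi lam κ z ≤ ∑ i : Fin 8,
      if (fan m y q).deg ((fan m y q).foot (Sum.inr (0, 0)) i) ≤ m.deg y + 14 then
        (fan m y q).star lam κ ((fan m y q).foot (Sum.inr (0, 0)) i) else 0 := by
    refine (piStar_cover (fanSet m y) (fun z => 2 * (fan m y q).pi lam κ z)
      (fun z => mul_nonneg zero_le_two (piStar_pi _ hl hκ z))
      (fun i => univ.filter
        (fun z => (fan m y q).r.SameCycle ((fan m y q).foot (Sum.inr (0, 0)) i) z)) ?_).trans ?_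
    · intro z hz
      obtain ⟨i, hi⟩ := fanSet_foot m y q hq hy z hz
      exact ⟨i, Finset.mem_filter.2 ⟨Finset.mem_univ z, hi⟩⟩
    · refine (Finset.sum_congr rfl fun i _ => ?_).le
      rw [if_pos (fan_deg m y q hq hy _ (foot_fan m y q hq hy i))]
      unfold CMap.star
      refine Finset.sum_congr ?_ fun _ _ => rfl
      ext z
      simp only [Finset.mem_filter]
  -- the potentials of the old darts
  have h2 : ∑ T : X, (fan m y q).W lam κ (Sum.inl T) * ∑ z ∈ fanSet m y, 2 * (fan m y q).be lam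
      ((fan m y q).pot lam (Sum.inl T)) ((fan m y q).pot lam (Sum.inl T)) z ≤
      ∑ z ∈ fanSet m y, 2 * (fan m y q).pi lam κ z := by
    rw [piStar_comm, Fintype.sum_sum_type]
    refine le_add_of_nonneg_right (Finset.sum_nonneg fun T _ => ?_)
    exact mul_nonneg (W_pos _ hl hκ _).le
      (Finset.sum_nonneg fun z _ => mul_nonneg zero_le_two (be_nonneg _ hl.le _ z))
  have h3 : m.star lam κ y ≤ 2080 * (m.deg y : ℝ) ^ 2 * ∑ T : X, (fan m y q).W lam κ (Sum.inl T) *
      ∑ z ∈ fanSet m y, 2 * (fan m y q).be lam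
        ((fan m y q).pot lam (Sum.inl T)) ((fan m y q).pot lam (Sum.inl T)) z := by
    unfold CMap.star
    rw [piStar_comm, Finset.mul_sum]
    refine Finset.sum_le_sum fun T _ => ?_
    have h4 := W_fan m hl hκ y q hq hy T
    have h5 := energy_cmp m hl y q hq hy T
    have h6 : 0 ≤ ∑ x ∈ univ.filter (fun x => m.r.SameCycle y x),
        2 * m.be lam (m.pot lam T) (m.pot lam T) x :=
      Finset.sum_nonneg fun x _ => mul_nonneg zero_le_two (be_nonneg m hl.le _ x)
    have h7 : 0 ≤ 65 * (m.deg y : ℝ) * (fan m y q).W lam κ (Sum.inl T) :=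
      mul_nonneg (mul_nonneg (by norm_num) hd) (W_pos _ hl hκ _).le
    refine (mul_le_mul h4 h5 h6 h7).trans_eq ?_
    ring
  have h8 : (0 : ℝ) ≤ 2080 * (m.deg y : ℝ) ^ 2 := by positivity
  exact h3.trans (mul_le_mul_of_nonneg_left (h2.trans h1) h8)

end UIPQ
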