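import Pool.Agent.Lib.UIPQ.B.Count
import Pool.Agent.Lib.UIPQ.B.PiStar

/-!
# Decay: the part of the weighted energy near vertices of degree d

PROOF. Let P d = Sn n (fun m x => if m.deg x = d then pi x else 0).
`fans_card`: for d ≥ 8, |fans d| ≥ (d/14)^7: let s = (d-1)/7 (floor) ≥ 1; the functions q i = 1 + i s + t i with t i < s are strictly
increasing, 1 ≤ q 0, q 6 < 1 + 7 s ≤ d, and t ↦ q is injective: |fans d| ≥ s^7, and s ≥ d/14 (d < 14: s ≥ 1 > d/14; d ≥ 14: s ≥ (d-7)/7 ≥ d/14).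
`star_sum`: for a predicate p on degrees, ∑_z [p (deg z)] star z = ∑_x [p (deg x)] deg x · 2 pi x (exchange the sums; deg is constant on
the r-orbits and the r-orbit of x has deg x elements: card of filter SameCycle = minimalPeriod).
`decay`: apply `rel_count` with F m y = if deg y = d then star y else 0 and
 G m B = 2080 d² ∑_i if deg (foot B i) ≤ d + 14 then star (foot B i) else 0 (star_fan, and the invariance deg_relabel, foot_relabel,
star_relabel). Left side: |fans d| · Sn n (if deg = d then star) = |fans d| · 2 d P d (star_sum). Right side: for each i, B ↦ foot B i is a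
bijection (k ∘ r^i, or k ∘ f ∘ f), so it is 2080 d² · 8 · Sn (n+7) (if deg z ≤ d+14 then star z) ≤ 2080 d² · 8 · 2 (d+14) Sn (n+7) pi.
So (d/14)^7 · 2 d P d ≤ 33280 d² (d+14) Φ(n+7) ≤ 99840 d³ Φ(n+7) (d + 14 ≤ 3d), P d ≤ 49920 · 14^7 · d^(-5) Φ(n+7), Φ(n) = Sn n pi.
-/

namespace UIPQ

open Finset Classical

private theorem decay_per {X : Type} [Fintype X] (f : Equiv.Perm X) (x : X) : x ∈ Function.periodicPts f :=
  Function.Injective.mem_periodicPts f.injective x

private theorem decay_card {X : Type} [Fintype X] (m : CMap X) (x : X) :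
    (univ.filter (fun z => m.r.SameCycle x z)).card = m.deg x := by
  have hpos : 0 < m.deg x := Function.minimalPeriod_pos_of_mem_periodicPts (decay_per m.r x)
  have himg : univ.filter (fun z => m.r.SameCycle x z) = (range (m.deg x)).image (fun j => m.r^[j] x) := by
    ext z
    simp only [mem_filter, mem_univ, true_and, mem_image, mem_range]
    constructor
    · intro h
      obtain ⟨j, hj⟩ := h.exists_nat_pow_eq
      refine ⟨j % m.deg x, Nat.mod_lt _ hpos, ?_⟩
      rw [CMap.deg, Function.iterate_mod_minimalPeriod_eq, Equiv.Perm.iterate_eq_pow]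
      exact hj
    · rintro ⟨j, -, rfl⟩
      refine ⟨(j : ℤ), ?_⟩
      rw [zpow_natCast, Equiv.Perm.iterate_eq_pow]
  rw [himg, card_image_of_injOn, card_range]
  intro a ha b hb hab
  exact Function.iterate_injOn_Iio_minimalPeriod (f := m.r) (x := x) (by simpa [CMap.deg] using ha)
    (by simpa [CMap.deg] using hb) hab

private theorem decay_deg {X : Type} [Fintype X] {m : CMap X} {x z : X} (h : m.r.SameCycle x z) :
    m.deg z = m.deg x := by
  obtain ⟨j, hj⟩ := h.exists_nat_pow_eq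
  rw [← hj, ← Equiv.Perm.iterate_eq_pow]
  exact Function.minimalPeriod_apply_iterate (decay_per m.r x) j

private theorem decay_deg_le {X : Type} [Fintype X] (m : CMap X) (x : X) : m.deg x ≤ Fintype.card X := by
  rw [← decay_card]
  exact card_le_univ _

private theorem decay_Sn_mono {n : ℕ} {F G : CMap (Fin (4 * n + 4)) → Fin (4 * n + 4) → ℝ}
    (h : ∀ m ∈ QF n, ∀ x, F m x ≤ G m x) : Sn n F ≤ Sn n G := by
  unfold Sn
  refine div_le_div_of_nonneg_right ?_ (Nat.cast_nonneg _)
  exact sum_le_sum fun m hm => sum_le_sum fun x _ => h m hm x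

private theorem decay_Sn_nonneg {n : ℕ} {F : CMap (Fin (4 * n + 4)) → Fin (4 * n + 4) → ℝ}
    (h : ∀ m ∈ QF n, ∀ x, 0 ≤ F m x) : 0 ≤ Sn n F := by
  unfold Sn
  exact div_nonneg (sum_nonneg fun m hm => sum_nonneg fun x _ => h m hm x) (Nat.cast_nonneg _)

private theorem decay_Sn_congr {n : ℕ} {F G : CMap (Fin (4 * n + 4)) → Fin (4 * n + 4) → ℝ}
    (h : ∀ m ∈ QF n, ∑ x, F m x = ∑ x, G m x) : Sn n F = Sn n G := by
  unfold Sn
  rw [sum_congr rfl h]

private theorem decay_Sn_mul {n : ℕ} (c : ℝ) (F : CMap (Fin (4 * n + 4)) → Fin (4 * n + 4) → ℝ) :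
    Sn n (fun m x => c * F m x) = c * Sn n F := by
  unfold Sn
  simp only [← mul_sum]
  rw [mul_div_assoc]

private theorem decay_Sn_add {n : ℕ} (F G : CMap (Fin (4 * n + 4)) → Fin (4 * n + 4) → ℝ) :
    Sn n (fun m x => F m x + G m x) = Sn n F + Sn n G := by
  unfold Sn
  simp only [sum_add_distrib]
  rw [add_div]

private theorem decay_Sn_sum {n : ℕ} {ι : Type} (s : Finset ι)
    (F : ι → CMap (Fin (4 * n + 4)) → Fin (4 * n + 4) → ℝ) :
    Sn n (fun m x => ∑ i ∈ s, F i m x) = ∑ i ∈ s, Sn n (F i) := by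
  unfold Sn
  rw [← sum_div]
  congr 1
  rw [show (∑ m ∈ QF n, ∑ x, ∑ i ∈ s, F i m x) = ∑ m ∈ QF n, ∑ i ∈ s, ∑ x, F i m x from
    sum_congr rfl fun m _ => sum_comm, sum_comm]

theorem fans_card (d : ℕ) (hd : 8 ≤ d) : ((d : ℝ) / 14) ^ 7 ≤ ((fans d).card : ℝ) := by
  set s := (d - 1) / 7 with hs
  have hs1 : 7 * s ≤ d - 1 := by omega
  have hs2 : d ≤ 14 * s := by omega
  have hcard : s ^ 7 ≤ (fans d).card := by
    have h1 : (univ : Finset (Fin 7 → Fin s)).card = s ^ 7 := by simp
    rw [← h1]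
    refine card_le_card_of_injOn (fun t i => 1 + i.val * s + (t i).val) ?_ ?_
    · intro t _
      have hlt : ∀ i : Fin 7, 1 + i.val * s + (t i).val < d := by
        intro i
        have h2 := (t i).isLt
        have h3 : i.val * s ≤ 6 * s := Nat.mul_le_mul_right s (by omega)
        omega
      have hm : (fun i : Fin 7 => 1 + i.val * s + (t i).val) ∈ fans d := by
        unfold fans
        rw [mem_filter, Fintype.mem_piFinset]
        refine ⟨fun i => mem_range.2 (hlt i), ?_, ?_⟩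
        · rw [Fin.strictMono_iff_lt_succ]
          intro i
          have h2 := (t i.castSucc).isLt
          simp only [Fin.val_castSucc, Fin.val_succ]
          have h3 : (i.val + 1) * s = i.val * s + s := by ring
          rw [h3]
          omega
        · simp only [Fin.val_zero]
          omega
      exact hm
    · intro t _ t' _ h
      funext i
      have h2 := congrFun h i
      simp only at h2
      exact Fin.ext (by omega)
  have h4 : ((d : ℝ) / 14) ≤ s := by
    rw [div_le_iff₀ (by norm_num)]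
    have h5 : (d : ℝ) ≤ ((14 * s : ℕ) : ℝ) := by exact_mod_cast hs2
    push_cast at h5
    linarith
  calc ((d : ℝ) / 14) ^ 7 ≤ (s : ℝ) ^ 7 := pow_le_pow_left₀ (by positivity) h4 7
    _ = ((s ^ 7 : ℕ) : ℝ) := by push_cast; ring
    _ ≤ _ := by exact_mod_cast hcard

theorem star_sum {X : Type} [Fintype X] (m : CMap X) (lam κ : ℝ) (p : ℕ → Prop) :
    ∑ z, (if p (m.deg z) then m.star lam κ z else 0) =
      ∑ x, (if p (m.deg x) then (m.deg x : ℝ) * (2 * m.pi lam κ x) else 0) := by
  have h1 : ∀ z, (if p (m.deg z) then m.star lam κ z else 0) =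
      ∑ x, if m.r.SameCycle z x then (if p (m.deg x) then 2 * m.pi lam κ x else 0) else 0 := by
    intro z
    by_cases hp : p (m.deg z)
    · rw [if_pos hp, CMap.star, sum_filter]
      refine sum_congr rfl fun x _ => ?_
      by_cases h : m.r.SameCycle z x
      · rw [if_pos h, if_pos h, if_pos (by rw [decay_deg h]; exact hp)]
      · rw [if_neg h, if_neg h]
    · rw [if_neg hp]
      symm
      refine sum_eq_zero fun x _ => ?_
      by_cases h : m.r.SameCycle z x
      · rw [if_pos h, if_neg (by rw [decay_deg h]; exact hp)]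
      · rw [if_neg h]
  rw [sum_congr rfl fun z _ => h1 z, sum_comm]
  refine sum_congr rfl fun x _ => ?_
  rw [← sum_filter, sum_const, nsmul_eq_mul]
  have h2 : univ.filter (fun z => m.r.SameCycle z x) = univ.filter (fun z => m.r.SameCycle x z) := by
    ext z
    simp [Equiv.Perm.sameCycle_comm]
  rw [h2, decay_card]
  split_ifs <;> simp

theorem foot_bij {X : Type} (m : CMap X) (i : Fin 8) :
    Function.Bijective (fun B => m.foot B i) := by
  by_cases h : i.val < 7
  · have e1 : (fun B => m.foot B i) = fun B => m.k (m.r^[i.val] B) := by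
      funext B
      unfold CMap.foot
      rw [if_pos h]
    rw [e1]
    exact m.k.bijective.comp (m.r.bijective.iterate i.val)
  · have e1 : (fun B => m.foot B i) = fun B => m.k (m.f (m.f B)) := by
      funext B
      unfold CMap.foot
      rw [if_neg h]
    rw [e1]
    exact m.k.bijective.comp (m.f.bijective.comp m.f.bijective)

theorem decay {lam κ : ℝ} (hl : 0 < lam) (hκ : 0 < κ) (n d : ℕ) (hd : 8 ≤ d) :
    Sn n (fun m x => if m.deg x = d then m.pi lam κ x else 0) ≤
      49920 * 14 ^ 7 / (d : ℝ) ^ 5 * Sn (n + 7) (fun m x => m.pi lam κ x) := by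
  have hd0 : (0 : ℝ) < d := by
    have : 0 < d := by omega
    exact_mod_cast this
  set Φ : ℝ := Sn (n + 7) (fun m x => m.pi lam κ x) with hΦ
  set P : ℝ := Sn n (fun m x => if m.deg x = d then m.pi lam κ x else 0) with hP
  have hΦ0 : 0 ≤ Φ := decay_Sn_nonneg fun m _ x => pi_nonneg m hl hκ x
  have hP0 : 0 ≤ P := decay_Sn_nonneg fun m _ x => by
    split_ifs
    · exact pi_nonneg m hl hκ x
    · exact le_rfl
  have h1 := rel_count n (fun m y => if m.deg y = d then m.star lam κ y else 0)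
    (fun m B => 2080 * (d : ℝ) ^ 2 * ∑ i : Fin 8,
      if m.deg (m.foot B i) ≤ d + 14 then m.star lam κ (m.foot B i) else 0)
    (fun m x => mul_nonneg (by positivity) (sum_nonneg fun i _ => by
      split_ifs
      · exact star_nonneg m hl hκ _
      · exact le_rfl))
    (by
      intro m hm y q hq e
      by_cases hdy : m.deg y = d
      · rw [if_pos hdy]
        have h2 := star_fan m (mem_QF.1 hm) hl hκ y q hq
        rw [hdy] at h2
        refine h2.trans (le_of_eq ?_)
        congr 1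
        refine sum_congr rfl fun i _ => ?_
        rw [foot_relabel, deg_relabel, star_relabel _ _ hl]
      · rw [if_neg hdy]
        refine mul_nonneg (by positivity) (sum_nonneg fun i _ => ?_)
        split_ifs
        · exact star_nonneg _ hl hκ _
        · exact le_rfl)
  have hleft : Sn n (fun m y => ((fans (m.deg y)).card : ℝ) * if m.deg y = d then m.star lam κ y else 0) =
      ((fans d).card : ℝ) * (2 * d * P) := by
    have e1 : Sn n (fun m y => ((fans (m.deg y)).card : ℝ) * if m.deg y = d then m.star lam κ y else 0) =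
        Sn n (fun m y => ((fans d).card : ℝ) * if m.deg y = d then m.star lam κ y else 0) := by
      refine decay_Sn_congr fun m _ => sum_congr rfl fun y _ => ?_
      by_cases hdy : m.deg y = d
      · rw [hdy]
      · rw [if_neg hdy, mul_zero, mul_zero]
    rw [e1, decay_Sn_mul]
    congr 1
    rw [hP, ← decay_Sn_mul]
    refine decay_Sn_congr fun m _ => ?_
    have e4 : ∑ z, (if m.deg z = d then m.star lam κ z else 0) =
        ∑ x, (if m.deg x = d then (m.deg x : ℝ) * (2 * m.pi lam κ x) else 0) := by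
      convert star_sum m lam κ (fun j => j = d)
    rw [e4]
    refine sum_congr rfl fun x _ => ?_
    by_cases hdx : m.deg x = d
    · rw [if_pos hdx, if_pos hdx, hdx]
      ring
    · rw [if_neg hdx, if_neg hdx, mul_zero]
  have hright : Sn (n + 7) (fun m B => 2080 * (d : ℝ) ^ 2 * ∑ i : Fin 8,
      if m.deg (m.foot B i) ≤ d + 14 then m.star lam κ (m.foot B i) else 0) ≤
      2080 * (d : ℝ) ^ 2 * (8 * (2 * (d + 14) * Φ)) := by
    rw [decay_Sn_mul]
    refine mul_le_mul_of_nonneg_left ?_ (by positivity)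
    rw [decay_Sn_sum univ (fun (i : Fin 8) m B =>
      if m.deg (m.foot B i) ≤ d + 14 then m.star lam κ (m.foot B i) else 0)]
    have e2 : ∀ i : Fin 8, Sn (n + 7) (fun m B =>
        if m.deg (m.foot B i) ≤ d + 14 then m.star lam κ (m.foot B i) else 0) ≤ 2 * (d + 14) * Φ := by
      intro i
      have e3 : Sn (n + 7) (fun m B =>
          if m.deg (m.foot B i) ≤ d + 14 then m.star lam κ (m.foot B i) else 0) =
          Sn (n + 7) (fun m x => if m.deg x ≤ d + 14 then (m.deg x : ℝ) * (2 * m.pi lam κ x) else 0) := by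
        refine decay_Sn_congr fun m _ => ?_
        have e4 : ∑ z, (if m.deg z ≤ d + 14 then m.star lam κ z else 0) =
            ∑ x, (if m.deg x ≤ d + 14 then (m.deg x : ℝ) * (2 * m.pi lam κ x) else 0) := by
          convert star_sum m lam κ (fun j => j ≤ d + 14)
        rw [← e4]
        exact (foot_bij m i).sum_comp (fun z => if m.deg z ≤ d + 14 then m.star lam κ z else 0)
      rw [e3, hΦ, ← decay_Sn_mul]
      refine decay_Sn_mono fun m _ x => ?_
      have hpi := pi_nonneg m hl hκ x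
      by_cases hx : m.deg x ≤ d + 14
      · rw [if_pos hx]
        have h2 : (m.deg x : ℝ) ≤ d + 14 := by exact_mod_cast hx
        nlinarith
      · rw [if_neg hx]
        positivity
    calc ∑ i : Fin 8, Sn (n + 7) (fun m B =>
        if m.deg (m.foot B i) ≤ d + 14 then m.star lam κ (m.foot B i) else 0)
        ≤ ∑ _i : Fin 8, 2 * (d + 14) * Φ := sum_le_sum fun i _ => e2 i
      _ = 8 * (2 * (d + 14) * Φ) := by
        rw [sum_const, card_univ, Fintype.card_fin, nsmul_eq_mul]
        norm_num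
  have h5 : ((fans d).card : ℝ) * (2 * d * P) ≤ 2080 * (d : ℝ) ^ 2 * (8 * (2 * (d + 14) * Φ)) := by
    rw [← hleft]
    exact h1.trans hright
  have h6 : ((d : ℝ) / 14) ^ 7 * (2 * d * P) ≤ ((fans d).card : ℝ) * (2 * d * P) :=
    mul_le_mul_of_nonneg_right (fans_card d hd) (by positivity)
  have hd8 : (8 : ℝ) ≤ d := by exact_mod_cast hd
  have h7 : 2080 * (d : ℝ) ^ 2 * (8 * (2 * (d + 14) * Φ)) ≤ 99840 * d ^ 3 * Φ := by
    have h8 : (d : ℝ) + 14 ≤ 3 * d := by linarith
    have h9 : 2080 * (d : ℝ) ^ 2 * (8 * (2 * (d + 14) * Φ)) = 33280 * (d : ℝ) ^ 2 * Φ * (d + 14) := by ring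
    have h10 : 99840 * (d : ℝ) ^ 3 * Φ = 33280 * (d : ℝ) ^ 2 * Φ * (3 * d) := by ring
    rw [h9, h10]
    exact mul_le_mul_of_nonneg_left h8 (by positivity)
  have h11 := h6.trans (h5.trans h7)
  rw [div_mul_eq_mul_div, le_div_iff₀ (pow_pos hd0 5)]
  have h12 : 2 * (d : ℝ) ^ 3 * (P * (d : ℝ) ^ 5) ≤ 2 * (d : ℝ) ^ 3 * (49920 * 14 ^ 7 * Φ) := by
    have h13 : 2 * (d : ℝ) ^ 3 * (P * (d : ℝ) ^ 5) = 14 ^ 7 * (((d : ℝ) / 14) ^ 7 * (2 * d * P)) := by
      rw [div_pow]
      field_simp
    have h14 : 2 * (d : ℝ) ^ 3 * (49920 * 14 ^ 7 * Φ) = 14 ^ 7 * (99840 * d ^ 3 * Φ) := by ring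
    rw [h13, h14]
    exact mul_le_mul_of_nonneg_left h11 (by positivity)
  exact le_of_mul_le_mul_left h12 (by positivity)

/-- The second moment of the degree for the weighted energy. -/
theorem deg_sq_sum {lam κ : ℝ} (hl : 0 < lam) (hκ : 0 < κ) (n : ℕ) :
    Sn n (fun m x => (m.deg x : ℝ) ^ 2 * m.pi lam κ x) ≤
      49 * Sn n (fun m x => m.pi lam κ x) +
        49920 * 14 ^ 7 * Sn (n + 7) (fun m x => m.pi lam κ x) := by
  have hN : ∀ m ∈ QF n, ∀ x, (m.deg x : ℝ) ^ 2 * m.pi lam κ x ≤ 49 * m.pi lam κ x +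
      ∑ d ∈ Ioc 7 (4 * n + 11), (d : ℝ) ^ 2 * (if m.deg x = d then m.pi lam κ x else 0) := by
    intro m _ x
    have hpi := pi_nonneg m hl hκ x
    have hnn : ∀ d ∈ Ioc 7 (4 * n + 11), (0 : ℝ) ≤ (d : ℝ) ^ 2 * (if m.deg x = d then m.pi lam κ x else 0) := by
      intro d _
      refine mul_nonneg (by positivity) ?_
      split_ifs
      · exact hpi
      · exact le_rfl
    by_cases h : m.deg x ≤ 7
    · have h1 : (m.deg x : ℝ) ≤ 7 := by exact_mod_cast h
      have h2 : (m.deg x : ℝ) ^ 2 ≤ 49 := by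
        have h0 : (0 : ℝ) ≤ m.deg x := Nat.cast_nonneg _
        nlinarith
      have h3 := sum_nonneg hnn
      have h4 := mul_le_mul_of_nonneg_right h2 hpi
      linarith
    · have h1 : m.deg x ≤ 4 * n + 4 := by
        have h2 := decay_deg_le m x
        rwa [Fintype.card_fin] at h2
      have h3 := single_le_sum hnn (mem_Ioc.2 ⟨not_le.1 h, (by omega : m.deg x ≤ 4 * n + 11)⟩)
      rw [if_pos rfl] at h3
      linarith
  set Φ : ℝ := Sn (n + 7) (fun m x => m.pi lam κ x) with hΦ
  have hΦ0 : 0 ≤ Φ := decay_Sn_nonneg fun m _ x => pi_nonneg m hl hκ x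
  have hC : (0 : ℝ) ≤ 49920 * 14 ^ 7 * Φ := by positivity
  have h1 : Sn n (fun m x => (m.deg x : ℝ) ^ 2 * m.pi lam κ x) ≤ 49 * Sn n (fun m x => m.pi lam κ x) +
      ∑ d ∈ Ioc 7 (4 * n + 11), (d : ℝ) ^ 2 * Sn n (fun m x => if m.deg x = d then m.pi lam κ x else 0) := by
    refine (decay_Sn_mono hN).trans (le_of_eq ?_)
    rw [decay_Sn_add, decay_Sn_mul, decay_Sn_sum (Ioc 7 (4 * n + 11))
      (fun d m x => (d : ℝ) ^ 2 * (if m.deg x = d then m.pi lam κ x else 0))]
    congr 1
    exact sum_congr rfl fun d _ => decay_Sn_mul _ _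
  have h2 : ∑ d ∈ Ioc 7 (4 * n + 11), (d : ℝ) ^ 2 * Sn n (fun m x => if m.deg x = d then m.pi lam κ x else 0) ≤
      ∑ d ∈ Ioc 7 (4 * n + 11), (49920 * 14 ^ 7 * Φ) * ((d : ℝ) ^ 2)⁻¹ := by
    refine sum_le_sum fun d hd => ?_
    obtain ⟨hd7, -⟩ := mem_Ioc.1 hd
    have hd8 : 8 ≤ d := hd7
    have hdr : (8 : ℝ) ≤ d := by exact_mod_cast hd8
    have hd0 : (0 : ℝ) < d := by linarith
    have h3 := mul_le_mul_of_nonneg_left (decay hl hκ n d hd8) (by positivity : (0 : ℝ) ≤ (d : ℝ) ^ 2)
    refine h3.trans ?_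
    have h4 : (d : ℝ) ^ 2 * (49920 * 14 ^ 7 / (d : ℝ) ^ 5 * Φ) =
        (49920 * 14 ^ 7 * Φ) * (((d : ℝ) ^ 2)⁻¹ * (d : ℝ)⁻¹) := by
      field_simp
    rw [h4]
    refine mul_le_mul_of_nonneg_left ?_ hC
    refine mul_le_of_le_one_right (by positivity) ?_
    exact inv_le_one_of_one_le₀ (by linarith)
  have h3 : ∑ d ∈ Ioc 7 (4 * n + 11), (49920 * 14 ^ 7 * Φ) * ((d : ℝ) ^ 2)⁻¹ ≤ 49920 * 14 ^ 7 * Φ := by
    rw [← mul_sum]
    refine mul_le_of_le_one_right hC ?_
    have h4 := sum_Ioc_inv_sq_le_sub (α := ℝ) (k := 7) (n := 4 * n + 11) (by norm_num) (by omega)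
    have h5 : (0 : ℝ) ≤ (((4 * n + 11 : ℕ) : ℝ))⁻¹ := by positivity
    refine h4.trans ?_
    have h6 : (((7 : ℕ) : ℝ))⁻¹ ≤ 1 := by norm_num
    linarith
  linarith

end UIPQ
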