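import Pool.Agent.Lib.UIPQ.B.Rot

/-!
# FanSet: the darts at the eight new vertices

PROOF. S = fanSet m y = {inl x : x at y} ∪ {inr (i,1)} ∪ {inr (i,3)}. card: deg y + 7 + 7 (the r-orbit of y has deg y = minimalPeriod
elements). `fanSet_r`: r' z ∈ S for z ∈ S: by the formulas of Rot (rot_old with r x at y; rot_before; rot_b; rot_b'; rot_b'0; for x at y,
k x is not marked because it is not at y). r' is a permutation of a finite set and S is finite, so r' z ∈ S iff z ∈ S.
`fanSet_foot`: every z ∈ S is in the r'-orbit of one of the darts inr (i,1), inr (0,3). z = inr (i,1): itself. z = inr (i,3): i = 0 itself,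
i ≠ 0: r' z = inr (i-1,1). z = inl (r^[l] y), l < deg y: going backwards from l to the last mark: if l < q 0, r'^(l+1) (inr (0,3)) = z
(rot_b'0 then rot_old); if q i ≤ l < q (i+1) (or l < deg y for i = 6): r'^(1 + l - q i) (inr (i,1)) = z.
`fan_deg`: the r'-orbit of a z ∈ S is contained in S, so deg' z ≤ card S.
`foot_fan`: foot (inr (0,0)) i = inr (i,1) for i = 0..6: r'^[i] (inr (0,0)) = inr (i,0) (rot_B), k' = fanK. foot _ 7 = k' (f' (f' (inr (0,0)))):
f' = r' k': k' (0,0) = (0,1), r' = inl (a 1); k' = inl (k (a 1)), r' = inr (0,2); k' = inr (0,3).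
-/

namespace UIPQ

open Finset

variable {X : Type} [Fintype X]

private theorem fs_iter {Y : Type} [Finite Y] {σ : Equiv.Perm Y} {x y : Y} (h : σ.SameCycle x y) :
    ∃ l, σ^[l] x = y := by
  obtain ⟨i, -, hi⟩ := h.exists_pow_eq'
  exact ⟨i, by rw [Equiv.Perm.iterate_eq_pow]; exact hi⟩

private theorem fs_same {Y : Type} (σ : Equiv.Perm Y) (x : Y) (l : ℕ) : σ.SameCycle x (σ^[l] x) := by
  rw [Equiv.Perm.iterate_eq_pow]
  exact ⟨l, by simp⟩

private theorem fs_card {Y : Type} [Fintype Y] [DecidableEq Y] (σ : Equiv.Perm Y) (x : Y)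
    [DecidablePred (fun y => σ.SameCycle x y)] :
    (univ.filter (fun y => σ.SameCycle x y)).card = Function.minimalPeriod σ x := by
  have hn : 0 < Function.minimalPeriod σ x :=
    Function.minimalPeriod_pos_of_mem_periodicPts (σ.injective.mem_periodicPts x)
  have h1 : univ.filter (fun y => σ.SameCycle x y) =
      (range (Function.minimalPeriod σ x)).image (fun l => σ^[l] x) := by
    ext y
    simp only [mem_filter, mem_univ, true_and, mem_image, mem_range]
    constructor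
    · intro h
      obtain ⟨l, hl⟩ := fs_iter h
      refine ⟨l % Function.minimalPeriod σ x, Nat.mod_lt _ hn, ?_⟩
      rw [Function.iterate_mod_minimalPeriod_eq, hl]
    · rintro ⟨l, -, rfl⟩
      exact fs_same σ x l
  rw [h1, card_image_of_injOn, card_range]
  intro a ha b hb hab
  exact Function.iterate_injOn_Iio_minimalPeriod (by simpa using ha) (by simpa using hb) hab

theorem mem_fanSet (m : CMap X) (y : X) (z : X ⊕ Fan) : z ∈ fanSet m y ↔
    (∃ x, z = Sum.inl x ∧ m.r.SameCycle y x) ∨ (∃ i, z = Sum.inr (i, 1)) ∨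
      ∃ i, z = Sum.inr (i, 3) := by
  classical
  unfold fanSet
  simp only [mem_filter, mem_univ, true_and]

theorem card_fanSet (m : CMap X) (y : X) : (fanSet m y).card = m.deg y + 14 := by
  classical
  have h1 : fanSet m y = (univ.filter (fun x => m.r.SameCycle y x)).disjSum
      (univ.filter (fun p : Fan => p.2 = 1 ∨ p.2 = 3)) := by
    ext z
    rw [mem_fanSet]
    rcases z with x | p
    · simp
    · rcases p with ⟨i, j⟩
      simp
  rw [h1, card_disjSum, fs_card]
  rfl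

private theorem fs_mark (μ : Fin 8) : (∃ i : Fin 7, mark μ = (i, 1)) ∨ ∃ i : Fin 7, mark μ = (i, 3) := by
  revert μ
  decide

private theorem fs_mem_mark (m : CMap X) (y : X) (μ : Fin 8) : Sum.inr (mark μ) ∈ fanSet m y := by
  rw [mem_fanSet]
  rcases fs_mark μ with ⟨i, hi⟩ | ⟨i, hi⟩
  · exact Or.inr (Or.inl ⟨i, by rw [hi]⟩)
  · exact Or.inr (Or.inr ⟨i, by rw [hi]⟩)

omit [Fintype X] in
private theorem fs_fanA (m : CMap X) (y : X) (q : Fin 7 → ℕ) (μ : Fin 8) : m.r.SameCycle y (fanA m y q μ) := by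
  refine Fin.cases ?_ (fun i => ?_) μ
  · exact Equiv.Perm.SameCycle.refl _ _
  · exact fs_same _ _ _

private theorem fs_mem_inl (m : CMap X) (y : X) {x : X} (h : m.r.SameCycle y x) :
    Sum.inl x ∈ fanSet m y := (mem_fanSet m y _).2 (Or.inl ⟨x, rfl, h⟩)

private theorem fs_r_mem (m : CMap X) (y : X) (q : Fin 7 → ℕ) (hq : q ∈ fans (m.deg y))
    (hy : ∀ x, m.r.SameCycle y x → ¬ m.r.SameCycle y (m.k x)) (z : X ⊕ Fan) (hz : z ∈ fanSet m y) :
    (fan m y q).r z ∈ fanSet m y := by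
  have h := fan_good m y q hq hy
  unfold fan
  rcases (mem_fanSet m y z).1 hz with ⟨x, rfl, hx⟩ | ⟨i, rfl⟩ | ⟨i, rfl⟩
  · by_cases h2 : ∃ μ, m.r x = fanA m y q μ
    · obtain ⟨μ, h2⟩ := h2
      rw [rot_before h x μ h2]
      exact fs_mem_mark m y μ
    · rw [not_exists] at h2
      rw [rot_old h x (fun μ h3 => hy x hx (by rw [h3]; exact fs_fanA m y q μ)) h2]
      exact fs_mem_inl m y (Equiv.Perm.sameCycle_apply_right.2 hx)
  · rw [rot_b h]
    exact fs_mem_inl m y (fs_fanA m y q _)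
  · by_cases hi : i = 0
    · subst hi
      rw [rot_b'0 h]
      exact fs_mem_inl m y (fs_fanA m y q _)
    · rw [rot_b' h i hi]
      exact (mem_fanSet m y _).2 (Or.inr (Or.inl ⟨_, rfl⟩))

theorem fanSet_r (m : CMap X) (y : X) (q : Fin 7 → ℕ) (hq : q ∈ fans (m.deg y))
    (hy : ∀ x, m.r.SameCycle y x → ¬ m.r.SameCycle y (m.k x)) (z : X ⊕ Fan) :
    (fan m y q).r z ∈ fanSet m y ↔ z ∈ fanSet m y := by
  refine ⟨fun hz => ?_, fs_r_mem m y q hq hy z⟩
  have h1 := Equiv.Perm.perm_symm_on_of_perm_on_finset (f := (fan m y q).r) (s := fanSet m y)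
    (fun z hz => fs_r_mem m y q hq hy z hz) hz
  rwa [Equiv.symm_apply_apply] at h1

omit [Fintype X] in
private theorem fs_iter_B (m : CMap X) (a : Fin 8 → X) (h : GoodMarks m a) (n : ℕ) (hn : n < 7) :
    (fanMap m a).r^[n] (Sum.inr (0, 0)) = Sum.inr (⟨n, hn⟩, 0) := by
  induction n with
  | zero => rfl
  | succ n ih =>
    rw [Function.iterate_succ_apply', ih (by omega), rot_B h _ (by rw [Ne, Fin.ext_iff]; simp; omega)]
    congr 2
    rw [Fin.ext_iff, Fin.val_add]
    simp
    omega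

omit [Fintype X] in
private theorem fs_foot_lt (m : CMap X) (a : Fin 8 → X) (h : GoodMarks m a) (i : Fin 7) :
    (fanMap m a).foot (Sum.inr (0, 0)) i.castSucc = Sum.inr (i, 1) := by
  unfold CMap.foot
  rw [if_pos (by simp), Fin.val_castSucc, fs_iter_B m a h i.val i.2]
  rfl

omit [Fintype X] in
private theorem fs_foot_last (m : CMap X) (a : Fin 8 → X) (h : GoodMarks m a) :
    (fanMap m a).foot (Sum.inr (0, 0)) 7 = Sum.inr (0, 3) := by
  unfold CMap.foot
  rw [if_neg (by decide), CMap.f_apply, CMap.f_apply]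
  have h1 : (fanMap m a).k (Sum.inr (0, 0)) = Sum.inr (0, 1) := rfl
  have h2 : (fanMap m a).k (Sum.inl (a (Fin.succ 0))) = Sum.inl (m.k (a (Fin.succ 0))) := rfl
  rw [h1, rot_b h, h2, rot_ki h]
  rfl

theorem fanSet_foot (m : CMap X) (y : X) (q : Fin 7 → ℕ) (hq : q ∈ fans (m.deg y))
    (hy : ∀ x, m.r.SameCycle y x → ¬ m.r.SameCycle y (m.k x)) (z : X ⊕ Fan)
    (hz : z ∈ fanSet m y) : ∃ i, (fan m y q).r.SameCycle ((fan m y q).foot (Sum.inr (0, 0)) i) z := by
  have h := fan_good m y q hq hy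
  unfold fan
  have hA : ∀ i : Fin 7, (fanMap m (fanA m y q)).r.SameCycle
      ((fanMap m (fanA m y q)).foot (Sum.inr (0, 0)) i.castSucc) (Sum.inr (i, 1)) := by
    intro i
    rw [fs_foot_lt m _ h]
  have hB : (fanMap m (fanA m y q)).r.SameCycle ((fanMap m (fanA m y q)).foot (Sum.inr (0, 0)) 7)
      (Sum.inr (0, 3)) := by
    rw [fs_foot_last m _ h]
  rcases (mem_fanSet m y z).1 hz with ⟨x, rfl, hx⟩ | ⟨i, rfl⟩ | ⟨i, rfl⟩
  · obtain ⟨l, rfl⟩ := fs_iter hx
    clear hz hx
    induction l with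
    | zero =>
      refine ⟨7, ?_⟩
      have h1 := rot_b'0 h
      rw [Function.iterate_zero_apply]
      have h2 : fanA m y q 0 = y := rfl
      rw [h2] at h1
      rw [← h1]
      exact Equiv.Perm.sameCycle_apply_right.2 hB
    | succ l ih =>
      by_cases h2 : ∃ μ, m.r^[l + 1] y = fanA m y q μ
      · obtain ⟨μ, h2⟩ := h2
        rw [h2]
        refine Fin.cases ?_ (fun i => ?_) μ
        · refine ⟨7, ?_⟩
          rw [← rot_b'0 h]
          exact Equiv.Perm.sameCycle_apply_right.2 hB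
        · refine ⟨i.castSucc, ?_⟩
          rw [← rot_b h i]
          exact Equiv.Perm.sameCycle_apply_right.2 (hA i)
      · rw [not_exists] at h2
        obtain ⟨i, hi⟩ := ih
        refine ⟨i, ?_⟩
        rw [Function.iterate_succ_apply'] at h2 ⊢
        rw [← rot_old h (m.r^[l] y) (fun μ h3 => hy (m.r^[l] y) (fs_same _ _ _)
          (by rw [h3]; exact fs_fanA m y q μ)) h2]
        exact Equiv.Perm.sameCycle_apply_right.2 hi
  · exact ⟨i.castSucc, hA i⟩
  · by_cases hi : i = 0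
    · subst hi
      exact ⟨7, hB⟩
    · refine ⟨(i - 1).castSucc, ?_⟩
      rw [← Equiv.Perm.sameCycle_apply_right, rot_b' h i hi]
      exact hA (i - 1)

theorem foot_fan (m : CMap X) (y : X) (q : Fin 7 → ℕ) (hq : q ∈ fans (m.deg y))
    (hy : ∀ x, m.r.SameCycle y x → ¬ m.r.SameCycle y (m.k x)) (i : Fin 8) :
    (fan m y q).foot (Sum.inr (0, 0)) i ∈ fanSet m y := by
  have h := fan_good m y q hq hy
  unfold fan
  rw [mem_fanSet]
  refine Fin.lastCases ?_ (fun i => ?_) i
  · exact Or.inr (Or.inr ⟨0, fs_foot_last m _ h⟩)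
  · exact Or.inr (Or.inl ⟨i, fs_foot_lt m _ h i⟩)

theorem fan_deg (m : CMap X) (y : X) (q : Fin 7 → ℕ) (hq : q ∈ fans (m.deg y))
    (hy : ∀ x, m.r.SameCycle y x → ¬ m.r.SameCycle y (m.k x)) (z : X ⊕ Fan)
    (hz : z ∈ fanSet m y) : (fan m y q).deg z ≤ m.deg y + 14 := by
  classical
  rw [← card_fanSet, CMap.deg, ← fs_card]
  refine card_le_card fun w hw => ?_
  obtain ⟨l, rfl⟩ := fs_iter (mem_filter.1 hw).2
  clear hw
  induction l with
  | zero => exact hz
  | succ l ih =>
    rw [Function.iterate_succ_apply']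
    exact (fanSet_r m y q hq hy _).2 ih

end UIPQ
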