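import Pool.Agent.Lib.UIPQ.B.Form
import Pool.Agent.Lib.UIPQ.B.FanSet

/-!
# Energy: comparison of the potentials before and after the surgery

PROOF. d = deg y ≥ 8 (q ∈ fans d) , m' = fan m y q, u = pot of T on m, u' = pot of inl T on m'.
Y = {x : SameCycle y x}, S = fanSet m y. Y and k(Y) are disjoint (hy), S and k'(S) are disjoint. The complement of S ∪ k'(S) in
X ⊕ Fan is inl of the complement of Y ∪ k(Y) (the new darts inr (i,0) = k' (inr (i,1)), inr (i,2) = k' (inr (i,3)) are in k'(S)).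
a = ∑_{x∈Y} 2 be u u x = ∑_{x ∈ Y ∪ kY} be u u x (be_k), b = ∑_{z∈S} 2 be' u' u' z. out = complement of Y ∪ kY in X.
(1) v' : X ⊕ Fan → ℝ: v' (inl x) = u x, v' (inr (i,0)) = u (k y), v' (inr (i,2)) = u (k (a (i+1))), v' (inr (i,1)) = v' (inr (i,3)) = u y.
It is r'-invariant (formulas of Rot; u is constant on Y) and v' (inl T) = 1. On out, be' · v' = be · u. Its energy in the region:
∑_{z∈S} 2 be' v' v' z = a + ∑_i 2·be at inr (i,1) and inr (i,3) = a + ∑_i (2 be u u y + 2 be u u (a (i+1))) ≤ 8 a (the seven darts a (i+1)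
and y are distinct elements of Y; 7·2be(y) ≤ 7 a).
(2) v : X → ℝ: v x = u' (inl x) for x not in Y, v x = u' (inl y*) for x ∈ Y, where y* = T if T ∈ Y, y* = y otherwise. It is r-invariant
(for x not in Y the formulas of Rot show u' (inl (r x)) = u' (inl x): directly, or through inr (i,0), inr (i,2)) and v T = 1.
Its energy ∑_{x∈Y} 2 be v v x ≤ 8 d b: for x ∈ Y: (v x - v (k x))² = (u'(y*) - u'(k x))² ≤ 2 (u'(x) - u'(k x))² + 2 (u'(y*) - u'(x))², and
|u'(y*) - u'(x)|² ≤ 2 b: every z ∈ S is in the r'-orbit of a foot (fanSet_foot): inr (i,1), whose k' is inr (i,0) with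
u'(inr (i,0)) = u'(inl (k y)), or inr (0,3), in the orbit of inl y, whose k' is inl (k y). So u'(z) - u'(inl (k y)) = du' at a dart w ∈ S
(w = inr (i,1) or inl y), and (du'(w))² ≤ 2 be' u' u' w. For two points z, z' ∈ S: (u' z - u' z')² ≤ 2 (du'(w))² + 2 (du'(w'))² ≤
4 be'(w) + 4 be'(w') ≤ 2 b (if w = w' it is 0; w, w' distinct in S). Killing terms: lam v(x)² ≤ ... with v x = u'(inl y*), one value:
∑_{x∈Y} lam (v x)² = d lam u'(y*)² ≤ d b, ∑_{x∈Y} lam v(k x)² = lam ∑ u'(inl (k x))² ≤ b. Total: ∑_{x∈Y} 2 be v v x =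
∑_{x∈Y} [(v x - v(kx))² + lam v x² + lam v(kx)²] ≤ 2 b + 2·d·2b + d b + b = (5d + 3) b ≤ 8 d b.
(3) beta u u = beta u v (v - u is r-invariant and 0 at T), beta' u' u' = beta' u' v'. Split each sum over the region and out:
 a + out(u,u) = reg(u,v) + out(u,u'), b + out(u',u') = reg'(u',v') + out(u',u), where out(f,g) = ∑_{x ∈ out} be f g x with
f, g read on inl. Adding: a + b + out(u-u',u-u') = reg(u,v) + reg'(u',v') ≤ √(a · 8 d b) + √(b · 8 a) (Cauchy-Schwarz for the positive
semidefinite forms). So a ≤ (√(8d) + √8) √(ab), a ≤ (√(8d)+√8)² b ≤ 2 (8d + 8) b ≤ 32 d b.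
(If a = 0 trivial.)
-/

namespace UIPQ

open Finset Classical

variable {X : Type} [Fintype X]

private theorem en_sameCycle {Z : Type} [Finite Z] (m : CMap Z) (u : Z → ℝ) (hu : m.RInv u)
    {x y : Z} (h : m.r.SameCycle x y) : u y = u x := by
  obtain ⟨n, hn⟩ := h.exists_nat_pow_eq
  rw [← hn]
  clear hn
  induction n with
  | zero => simp
  | succ n ih =>
    rw [pow_succ', Equiv.Perm.mul_apply, hu]
    exact ih

private theorem en_iter {Z : Type} (m : CMap Z) (u : Z → ℝ) (hu : m.RInv u) (x : Z) (n : ℕ) :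
    u (m.r^[n] x) = u x := by
  induction n with
  | zero => rfl
  | succ n ih => rw [Function.iterate_succ_apply', hu, ih]

private theorem en_split (m : CMap X) (y : X)
    (hy : ∀ x, m.r.SameCycle y x → ¬ m.r.SameCycle y (m.k x)) (g : X → ℝ)
    (hg : ∀ x, g (m.k x) = g x) :
    ∑ x, g x = ∑ x ∈ univ.filter (fun x => m.r.SameCycle y x), 2 * g x +
      ∑ x ∈ univ.filter (fun x => ¬ m.r.SameCycle y x ∧ ¬ m.r.SameCycle y (m.k x)), g x := by
  have h3 : ∑ x, (if m.r.SameCycle y (m.k x) then g x else 0) =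
      ∑ x, (if m.r.SameCycle y x then g x else 0) := by
    rw [← Equiv.sum_comp m.k (fun x => if m.r.SameCycle y x then g x else 0)]
    exact sum_congr rfl fun x _ => by rw [hg]
  rw [← mul_sum, sum_filter, sum_filter, two_mul]
  nth_rewrite 2 [← h3]
  rw [← sum_add_distrib, ← sum_add_distrib]
  refine sum_congr rfl fun x _ => ?_
  by_cases h1 : m.r.SameCycle y x
  · have h2 := hy x h1
    simp [h1, h2]
  · by_cases h2 : m.r.SameCycle y (m.k x)
    · simp [h1, h2]
    · simp [h1, h2]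

private theorem en_sum_fanSet (m : CMap X) (y : X) (h : X ⊕ Fan → ℝ) :
    ∑ z ∈ fanSet m y, h z = ∑ x ∈ univ.filter (fun x => m.r.SameCycle y x), h (Sum.inl x) +
      ∑ i : Fin 7, (h (Sum.inr (i, 1)) + h (Sum.inr (i, 3))) := by
  unfold fanSet
  rw [sum_filter, Fintype.sum_sum_type, Fintype.sum_prod_type, sum_filter]
  congr 1
  · refine sum_congr rfl fun x _ => ?_
    simp
  · refine sum_congr rfl fun i _ => ?_
    rw [Fin.sum_univ_four]
    simp

private theorem en_total (m : CMap X) (y : X)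
    (hy : ∀ x, m.r.SameCycle y x → ¬ m.r.SameCycle y (m.k x)) (h : X ⊕ Fan → ℝ)
    (h0 : ∀ x, h (Sum.inl (m.k x)) = h (Sum.inl x))
    (h1 : ∀ i, h (Sum.inr (i, 0)) = h (Sum.inr (i, 1)))
    (h2 : ∀ i, h (Sum.inr (i, 2)) = h (Sum.inr (i, 3))) :
    ∑ z, h z = ∑ z ∈ fanSet m y, 2 * h z +
      ∑ x ∈ univ.filter (fun x => ¬ m.r.SameCycle y x ∧ ¬ m.r.SameCycle y (m.k x)),
        h (Sum.inl x) := by
  rw [Fintype.sum_sum_type, Fintype.sum_prod_type, en_split m y hy (fun x => h (Sum.inl x)) h0,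
    en_sum_fanSet]
  have h3 : ∑ i : Fin 7, ∑ j : Fin 4, h (Sum.inr (i, j)) =
      ∑ i : Fin 7, (2 * h (Sum.inr (i, 1)) + 2 * h (Sum.inr (i, 3))) := by
    refine sum_congr rfl fun i _ => ?_
    rw [Fin.sum_univ_four, h1, h2]
    ring
  rw [h3]
  ring

private theorem en_mark (m : CMap X) (y : X) (q : Fin 7 → ℕ) (μ : Fin 8) :
    m.r.SameCycle y (fanA m y q μ) := by
  induction μ using Fin.cases with
  | zero => exact Equiv.Perm.SameCycle.refl _ _
  | succ i =>
    change m.r.SameCycle y (m.r^[q i] y)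
    rw [Equiv.Perm.iterate_eq_pow]
    exact (Equiv.Perm.SameCycle.refl _ _).pow_right

private theorem en_ne {m : CMap X} {y : X} (q : Fin 7 → ℕ) {x : X} (hx : ¬ m.r.SameCycle y x)
    (μ : Fin 8) : x ≠ fanA m y q μ := by
  rintro rfl
  exact hx (en_mark m y q μ)

private theorem en_B0 (m : CMap X) (y : X) (q : Fin 7 → ℕ) (hG : GoodMarks m (fanA m y q))
    (w : X ⊕ Fan → ℝ) (hw : (fan m y q).RInv w) (i : Fin 7) :
    w (Sum.inr (i, 0)) = w (Sum.inl (m.k y)) := by
  have h0 : w (Sum.inr (0, 0)) = w (Sum.inl (m.k y)) := by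
    have h := hw (Sum.inl (m.k (fanA m y q 0)))
    rw [show (fan m y q).r (Sum.inl (m.k (fanA m y q 0))) = Sum.inr (0, 0) from rot_k0 hG] at h
    exact h
  have st : ∀ i : Fin 7, i ≠ 6 → w (Sum.inr (i + 1, 0)) = w (Sum.inr (i, 0)) := by
    intro i hi
    have h := hw (Sum.inr (i, 0))
    rw [show (fan m y q).r (Sum.inr (i, 0)) = Sum.inr (i + 1, 0) from rot_B hG i hi] at h
    exact h
  have s1 : w (Sum.inr (1, 0)) = w (Sum.inr (0, 0)) := st 0 (by decide)
  have s2 : w (Sum.inr (2, 0)) = w (Sum.inr (1, 0)) := st 1 (by decide)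
  have s3 : w (Sum.inr (3, 0)) = w (Sum.inr (2, 0)) := st 2 (by decide)
  have s4 : w (Sum.inr (4, 0)) = w (Sum.inr (3, 0)) := st 3 (by decide)
  have s5 : w (Sum.inr (5, 0)) = w (Sum.inr (4, 0)) := st 4 (by decide)
  have s6 : w (Sum.inr (6, 0)) = w (Sum.inr (5, 0)) := st 5 (by decide)
  have key : ∀ i : Fin 7, w (Sum.inr (i, 0)) = w (Sum.inl (m.k y)) := by
    rw [Fin.forall_fin_succ, Fin.forall_fin_succ, Fin.forall_fin_succ, Fin.forall_fin_succ,
      Fin.forall_fin_succ, Fin.forall_fin_succ, Fin.forall_fin_one]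
    refine ⟨h0, s1.trans h0, s2.trans (s1.trans h0), s3.trans (s2.trans (s1.trans h0)),
      s4.trans (s3.trans (s2.trans (s1.trans h0))),
      s5.trans (s4.trans (s3.trans (s2.trans (s1.trans h0)))),
      s6.trans (s5.trans (s4.trans (s3.trans (s2.trans (s1.trans h0)))))⟩
  exact key i

private theorem en_inv (m : CMap X) (y : X) (q : Fin 7 → ℕ) (hG : GoodMarks m (fanA m y q))
    (w : X ⊕ Fan → ℝ) (hw : (fan m y q).RInv w) (x : X) (hx : ¬ m.r.SameCycle y x) :
    w (Sum.inl (m.r x)) = w (Sum.inl x) := by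
  by_cases h1 : ∃ μ, m.k x = fanA m y q μ
  · obtain ⟨μ, hμ⟩ := h1
    have hx' : x = m.k (fanA m y q μ) := by rw [← hμ, m.k_k]
    subst hx'
    induction μ using Fin.cases with
    | zero =>
      have h6 := hw (Sum.inr (6, 0))
      rw [show (fan m y q).r (Sum.inr (6, 0)) = Sum.inl (m.f (fanA m y q 0)) from rot_B6 hG] at h6
      change w (Sum.inl (m.f (fanA m y q 0))) = w (Sum.inl (m.k y))
      rw [h6, en_B0 m y q hG w hw]
    | succ i =>
      have h6 := hw (Sum.inr (i, 2))
      rw [show (fan m y q).r (Sum.inr (i, 2)) = Sum.inl (m.f (fanA m y q i.succ)) from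
        rot_B' hG i] at h6
      have h7 := hw (Sum.inl (m.k (fanA m y q i.succ)))
      rw [show (fan m y q).r (Sum.inl (m.k (fanA m y q i.succ))) = Sum.inr (i, 2) from
        rot_ki hG i] at h7
      change w (Sum.inl (m.f (fanA m y q i.succ))) = _
      rw [h6, h7]
  · have h2 : ∀ μ, m.r x ≠ fanA m y q μ := by
      intro μ
      refine en_ne q ?_ μ
      rwa [Equiv.Perm.sameCycle_apply_right]
    have h3 := hw (Sum.inl x)
    rw [show (fan m y q).r (Sum.inl x) = Sum.inl (m.r x) from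
      rot_old hG x (fun μ h => h1 ⟨μ, h⟩) h2] at h3
    exact h3

private theorem en_foot (m : CMap X) (y : X) (q : Fin 7 → ℕ) (hq : q ∈ fans (m.deg y))
    (hy : ∀ x, m.r.SameCycle y x → ¬ m.r.SameCycle y (m.k x))
    (w : X ⊕ Fan → ℝ) (hw : (fan m y q).RInv w) (z : X ⊕ Fan) (hz : z ∈ fanSet m y) :
    ∃ t ∈ fanSet m y, w z = w t ∧ w ((fan m y q).k t) = w (Sum.inl (m.k y)) := by
  have hG := fan_good m y q hq hy
  obtain ⟨i, hi⟩ := fanSet_foot m y q hq hy z hz
  have h1 := en_sameCycle (fan m y q) w hw hi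
  by_cases hi7 : i.val < 7
  · refine ⟨_, foot_fan m y q hq hy i, h1, ?_⟩
    have h2 : (fan m y q).foot (Sum.inr (0, 0)) i =
        (fan m y q).k ((fan m y q).r^[i.val] (Sum.inr (0, 0))) := by
      unfold CMap.foot
      rw [if_pos hi7]
    rw [h2, (fan m y q).k_k, en_iter _ w hw, en_B0 m y q hG w hw]
  · refine ⟨Sum.inl y, ?_, ?_, rfl⟩
    · rw [mem_fanSet]
      exact Or.inl ⟨y, rfl, Equiv.Perm.SameCycle.refl _ _⟩
    · have h2 : (fan m y q).foot (Sum.inr (0, 0)) i = Sum.inr (0, 3) := by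
        unfold CMap.foot
        rw [if_neg hi7]
        have h3 : (fan m y q).f (Sum.inr (0, 0)) = Sum.inl (fanA m y q (Fin.succ 0)) := rot_b hG 0
        have h4 : (fan m y q).f (Sum.inl (fanA m y q (Fin.succ 0))) = Sum.inr (0, 2) :=
          rot_ki hG 0
        rw [h3, h4]
        rfl
      rw [h1, h2]
      have h5 := hw (Sum.inr (0, 3))
      rw [show (fan m y q).r (Sum.inr (0, 3)) = Sum.inl (fanA m y q 0) from rot_b'0 hG] at h5
      rw [← h5]
      rfl

private theorem en_sq {Z : Type} [Fintype Z] (m : CMap Z) {lam : ℝ} (hl : 0 ≤ lam) (w : Z → ℝ)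
    (t : Z) : (w t - w (m.k t)) ^ 2 ≤ 2 * m.be lam w w t := by
  unfold CMap.be
  nlinarith [mul_nonneg hl (mul_self_nonneg (w t)), mul_nonneg hl (mul_self_nonneg (w (m.k t)))]

private theorem en_pair (m : CMap X) {lam : ℝ} (hl : 0 ≤ lam) (y : X) (q : Fin 7 → ℕ)
    (hq : q ∈ fans (m.deg y))
    (hy : ∀ x, m.r.SameCycle y x → ¬ m.r.SameCycle y (m.k x))
    (w : X ⊕ Fan → ℝ) (hw : (fan m y q).RInv w) (z z' : X ⊕ Fan) (hz : z ∈ fanSet m y)
    (hz' : z' ∈ fanSet m y) :
    (w z - w z') ^ 2 ≤ 2 * ∑ z ∈ fanSet m y, 2 * (fan m y q).be lam w w z := by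
  obtain ⟨t, ht, h1, h2⟩ := en_foot m y q hq hy w hw z hz
  obtain ⟨t', ht', h1', h2'⟩ := en_foot m y q hq hy w hw z' hz'
  have hpos : ∀ z ∈ fanSet m y, 0 ≤ 2 * (fan m y q).be lam w w z := fun z _ => by
    have := be_nonneg (fan m y q) hl w z
    linarith
  by_cases htt : t = t'
  · subst htt
    rw [h1, h1', sub_self]
    have := sum_nonneg hpos
    nlinarith
  · have h3 := Finset.add_le_sum hpos ht ht' htt
    have h4 := en_sq (fan m y q) hl w t
    have h5 := en_sq (fan m y q) hl w t'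
    rw [h2] at h4
    rw [h2'] at h5
    rw [h1, h1']
    nlinarith [sq_nonneg ((w t - w (Sum.inl (m.k y))) + (w t' - w (Sum.inl (m.k y))))]

private theorem en_cs {Z : Type} [Fintype Z] (m : CMap Z) {lam : ℝ} (hl : 0 ≤ lam) (u w : Z → ℝ)
    (s : Finset Z) : (∑ x ∈ s, 2 * m.be lam u w x) ^ 2 ≤
      (∑ x ∈ s, 2 * m.be lam u u x) * ∑ x ∈ s, 2 * m.be lam w w x := by
  apply Finset.sum_sq_le_sum_mul_sum_of_sq_le_mul
  · intro x _
    have := be_nonneg m hl u x
    linarith
  · intro x _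
    have := be_nonneg m hl w x
    linarith
  · intro x _
    have := be_cs m hl u w x
    nlinarith

private theorem en_card (m : CMap X) (y : X) :
    (univ.filter (fun x => m.r.SameCycle y x)).card ≤ m.deg y := by
  have h : univ.filter (fun x => m.r.SameCycle y x) ⊆
      (range (m.deg y)).image (fun l => m.r^[l] y) := by
    intro x hx
    rw [mem_filter] at hx
    obtain ⟨n, hn⟩ := hx.2.exists_nat_pow_eq
    rw [mem_image]
    have hpos : 0 < m.deg y := by
      apply Function.minimalPeriod_pos_of_mem_periodicPts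
      exact ⟨orderOf m.r, orderOf_pos m.r, by
        change m.r^[orderOf m.r] y = y
        rw [Equiv.Perm.iterate_eq_pow, pow_orderOf_eq_one]
        rfl⟩
    refine ⟨n % m.deg y, mem_range.2 (Nat.mod_lt _ hpos), ?_⟩
    rw [CMap.deg, Function.iterate_mod_minimalPeriod_eq, Equiv.Perm.iterate_eq_pow]
    exact hn
  calc _ ≤ ((range (m.deg y)).image (fun l => m.r^[l] y)).card := card_le_card h
    _ ≤ (range (m.deg y)).card := card_image_le
    _ = m.deg y := card_range _

private theorem en_beta_sub {Z : Type} [Fintype Z] (m : CMap Z) (lam : ℝ) (T : Z) (u v : Z → ℝ)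
    (hu : m.IsPot lam T u) (hv : m.RInv v) (h1 : v T = 1) : m.beta lam u u = m.beta lam u v := by
  have h := hu.orth (fun x => v x - u x) (fun x => by
    change v (m.r x) - u (m.r x) = v x - u x
    rw [hv, hu.inv]) (by
    change v T - u T = 0
    rw [h1, hu.one, sub_self])
  have h2 : m.beta lam u (fun x => v x - u x) = m.beta lam u v - m.beta lam u u := by
    unfold CMap.beta CMap.be
    rw [← sum_sub_distrib]
    refine sum_congr rfl fun x _ => ?_
    ring
  linarith

/-- The comparison function on the new map. -/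
private noncomputable def enV' (m : CMap X) (y : X) (q : Fin 7 → ℕ) (u : X → ℝ) :
    X ⊕ Fan → ℝ :=
  Sum.elim u (fun p => ![u (m.k y), u y, u (m.k (fanA m y q p.1.succ)), u y] p.2)

private theorem enV'_inv (m : CMap X) (y : X) (q : Fin 7 → ℕ) (hG : GoodMarks m (fanA m y q))
    (u : X → ℝ) (hu : m.RInv u) : (fan m y q).RInv (enV' m y q u) := by
  have hA : ∀ μ, u (fanA m y q μ) = u y := fun μ => en_sameCycle m u hu (en_mark m y q μ)
  have hmark : ∀ μ, enV' m y q u (Sum.inr (mark μ)) = u y := by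
    intro μ
    induction μ using Fin.cases with
    | zero => rfl
    | succ i => rfl
  rintro (x | ⟨i, j⟩)
  · by_cases h1 : ∃ μ, m.k x = fanA m y q μ
    · obtain ⟨μ, hμ⟩ := h1
      have hx' : x = m.k (fanA m y q μ) := by rw [← hμ, m.k_k]
      subst hx'
      induction μ using Fin.cases with
      | zero =>
        rw [show (fan m y q).r (Sum.inl (m.k (fanA m y q 0))) = Sum.inr (0, 0) from rot_k0 hG]
        rfl
      | succ i =>
        rw [show (fan m y q).r (Sum.inl (m.k (fanA m y q i.succ))) = Sum.inr (i, 2) from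
          rot_ki hG i]
        rfl
    · by_cases h2 : ∃ μ, m.r x = fanA m y q μ
      · obtain ⟨μ, hμ⟩ := h2
        rw [show (fan m y q).r (Sum.inl x) = Sum.inr (mark μ) from rot_before hG x μ hμ, hmark]
        change u y = u x
        rw [← hu x, hμ, hA]
      · rw [show (fan m y q).r (Sum.inl x) = Sum.inl (m.r x) from
          rot_old hG x (fun μ h => h1 ⟨μ, h⟩) (fun μ h => h2 ⟨μ, h⟩)]
        exact hu x
  · fin_cases j
    · change enV' m y q u ((fan m y q).r (Sum.inr (i, 0))) = u (m.k y)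
      by_cases hi : i = 6
      · subst hi
        rw [show (fan m y q).r (Sum.inr (6, 0)) = Sum.inl (m.f (fanA m y q 0)) from rot_B6 hG]
        exact hu (m.k (fanA m y q 0))
      · rw [show (fan m y q).r (Sum.inr (i, 0)) = Sum.inr (i + 1, 0) from rot_B hG i hi]
        rfl
    · change enV' m y q u ((fan m y q).r (Sum.inr (i, 1))) = u y
      rw [show (fan m y q).r (Sum.inr (i, 1)) = Sum.inl (fanA m y q i.succ) from rot_b hG i]
      exact hA _
    · change enV' m y q u ((fan m y q).r (Sum.inr (i, 2))) = u (m.k (fanA m y q i.succ))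
      rw [show (fan m y q).r (Sum.inr (i, 2)) = Sum.inl (m.f (fanA m y q i.succ)) from rot_B' hG i]
      exact hu (m.k (fanA m y q i.succ))
    · change enV' m y q u ((fan m y q).r (Sum.inr (i, 3))) = u y
      by_cases hi : i = 0
      · subst hi
        rw [show (fan m y q).r (Sum.inr (0, 3)) = Sum.inl (fanA m y q 0) from rot_b'0 hG]
        rfl
      · rw [show (fan m y q).r (Sum.inr (i, 3)) = Sum.inr (i - 1, 1) from rot_b' hG i hi]
        rfl

private theorem enV'_energy (m : CMap X) {lam : ℝ} (hl : 0 ≤ lam) (y : X) (q : Fin 7 → ℕ)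
    (hG : GoodMarks m (fanA m y q)) (u : X → ℝ) (hu : m.RInv u) :
    ∑ z ∈ fanSet m y, 2 * (fan m y q).be lam (enV' m y q u) (enV' m y q u) z ≤
      8 * ∑ x ∈ univ.filter (fun x => m.r.SameCycle y x), 2 * m.be lam u u x := by
  have hA : ∀ μ, u (fanA m y q μ) = u y := fun μ => en_sameCycle m u hu (en_mark m y q μ)
  rw [en_sum_fanSet]
  have h1 : ∀ x, (fan m y q).be lam (enV' m y q u) (enV' m y q u) (Sum.inl x) =
      m.be lam u u x := fun x => rfl
  have h2 : ∀ i : Fin 7, (fan m y q).be lam (enV' m y q u) (enV' m y q u) (Sum.inr (i, 1)) =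
      m.be lam u u (fanA m y q 0) := fun x => rfl
  have h3 : ∀ i : Fin 7, (fan m y q).be lam (enV' m y q u) (enV' m y q u) (Sum.inr (i, 3)) =
      m.be lam u u (fanA m y q i.succ) := by
    intro i
    unfold CMap.be
    rw [hA]
    rfl
  simp only [h1, h2, h3]
  have hpos : ∀ x ∈ univ.filter (fun x => m.r.SameCycle y x), 0 ≤ 2 * m.be lam u u x :=
    fun x _ => by
      have := be_nonneg m hl u x
      linarith
  have h4 : ∑ μ : Fin 8, 2 * m.be lam u u (fanA m y q μ) ≤
      ∑ x ∈ univ.filter (fun x => m.r.SameCycle y x), 2 * m.be lam u u x := by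
    rw [← sum_image (s := univ) (g := fanA m y q) (f := fun x => 2 * m.be lam u u x)
      (fun a _ b _ h => hG.inj h)]
    refine sum_le_sum_of_subset_of_nonneg ?_ fun x hx _ => hpos x hx
    intro x hx
    rw [mem_image] at hx
    obtain ⟨μ, _, rfl⟩ := hx
    rw [mem_filter]
    exact ⟨mem_univ _, en_mark m y q μ⟩
  rw [Fin.sum_univ_succ] at h4
  rw [sum_add_distrib, sum_const, card_univ, Fintype.card_fin, nsmul_eq_mul]
  have h5 : 0 ≤ ∑ i : Fin 7, 2 * m.be lam u u (fanA m y q i.succ) :=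
    sum_nonneg fun i _ => by
      have := be_nonneg m hl u (fanA m y q i.succ)
      linarith
  push_cast
  linarith

/-- The comparison function on the old map. -/
private noncomputable def enV (m : CMap X) (y T : X) (w : X ⊕ Fan → ℝ) (x : X) : ℝ :=
  if m.r.SameCycle y x then w (Sum.inl (if m.r.SameCycle y T then T else y)) else w (Sum.inl x)

private theorem enV_energy (m : CMap X) {lam : ℝ} (hl : 0 ≤ lam) (y T : X) (q : Fin 7 → ℕ)
    (hq : q ∈ fans (m.deg y))
    (hy : ∀ x, m.r.SameCycle y x → ¬ m.r.SameCycle y (m.k x))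
    (w : X ⊕ Fan → ℝ) (hw : (fan m y q).RInv w) :
    ∑ x ∈ univ.filter (fun x => m.r.SameCycle y x), 2 * m.be lam (enV m y T w) (enV m y T w) x ≤
      8 * (m.deg y : ℝ) * ∑ z ∈ fanSet m y, 2 * (fan m y q).be lam w w z := by
  set b := ∑ z ∈ fanSet m y, 2 * (fan m y q).be lam w w z with hb
  set s := (if m.r.SameCycle y T then T else y) with hs
  have hsY : m.r.SameCycle y s := by
    rw [hs]
    split_ifs with h
    · exact h
    · exact Equiv.Perm.SameCycle.refl _ _
  have hpos : ∀ z ∈ fanSet m y, 0 ≤ 2 * (fan m y q).be lam w w z := fun z _ => by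
    have := be_nonneg (fan m y q) hl w z
    linarith
  have hb0 : 0 ≤ b := sum_nonneg hpos
  have hmem : ∀ x, m.r.SameCycle y x → (Sum.inl x : X ⊕ Fan) ∈ fanSet m y := by
    intro x hx
    rw [mem_fanSet]
    exact Or.inl ⟨x, rfl, hx⟩
  have hkill : lam * w (Sum.inl s) ^ 2 ≤ b := by
    have h1 := single_le_sum hpos (hmem s hsY)
    have h2 : lam * w (Sum.inl s) ^ 2 ≤ 2 * (fan m y q).be lam w w (Sum.inl s) := by
      unfold CMap.be
      nlinarith [mul_self_nonneg (w (Sum.inl s) - w ((fan m y q).k (Sum.inl s))),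
        mul_nonneg hl (mul_self_nonneg (w ((fan m y q).k (Sum.inl s))))]
    linarith
  have h1 : ∑ x ∈ univ.filter (fun x => m.r.SameCycle y x), 2 * (fan m y q).be lam w w (Sum.inl x)
      ≤ b := by
    rw [hb, en_sum_fanSet]
    have : 0 ≤ ∑ i : Fin 7, (2 * (fan m y q).be lam w w (Sum.inr (i, 1)) +
        2 * (fan m y q).be lam w w (Sum.inr (i, 3))) := sum_nonneg fun i _ => by
      have h1 := be_nonneg (fan m y q) hl w (Sum.inr (i, 1))
      have h2 := be_nonneg (fan m y q) hl w (Sum.inr (i, 3))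
      linarith
    linarith
  have h2 : ∀ x ∈ univ.filter (fun x => m.r.SameCycle y x),
      2 * m.be lam (enV m y T w) (enV m y T w) x ≤
        2 * (2 * (fan m y q).be lam w w (Sum.inl x)) + 5 * b := by
    intro x hx
    have hx1 : m.r.SameCycle y x := (mem_filter.1 hx).2
    have hx2 := hy x hx1
    have h3 : enV m y T w x = w (Sum.inl s) := by
      unfold enV
      rw [if_pos hx1]
    have h4 : enV m y T w (m.k x) = w (Sum.inl (m.k x)) := by
      unfold enV
      rw [if_neg hx2]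
    have h5 := en_pair m hl y q hq hy w hw (Sum.inl s) (Sum.inl x) (hmem s hsY) (hmem x hx1)
    rw [← hb] at h5
    have h6 : (fan m y q).be lam w w (Sum.inl x) =
        ((w (Sum.inl x) - w (Sum.inl (m.k x))) * (w (Sum.inl x) - w (Sum.inl (m.k x))) +
          lam * (w (Sum.inl x) * w (Sum.inl x)) +
          lam * (w (Sum.inl (m.k x)) * w (Sum.inl (m.k x)))) / 2 := rfl
    rw [h6]
    unfold CMap.be
    rw [h3, h4]
    nlinarith [mul_nonneg hl (mul_self_nonneg (w (Sum.inl x))),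
      mul_nonneg hl (mul_self_nonneg (w (Sum.inl (m.k x)))),
      sq_nonneg ((w (Sum.inl s) - w (Sum.inl x)) - (w (Sum.inl x) - w (Sum.inl (m.k x))))]
  have h3 : ∑ x ∈ univ.filter (fun x => m.r.SameCycle y x),
      2 * m.be lam (enV m y T w) (enV m y T w) x ≤
      2 * ∑ x ∈ univ.filter (fun x => m.r.SameCycle y x),
        2 * (fan m y q).be lam w w (Sum.inl x) +
      ((univ.filter (fun x => m.r.SameCycle y x)).card : ℝ) * (5 * b) := by
    refine (sum_le_sum h2).trans (le_of_eq ?_)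
    rw [sum_add_distrib, sum_const, nsmul_eq_mul]
    congr 1
    exact (mul_sum _ _ _).symm
  have h4 : ((univ.filter (fun x => m.r.SameCycle y x)).card : ℝ) ≤ (m.deg y : ℝ) := by
    exact_mod_cast en_card m y
  have h5 : (1 : ℝ) ≤ (m.deg y : ℝ) := by
    have h6 := (mem_fans.1 hq).2.2 0
    have : 1 ≤ m.deg y := by omega
    exact_mod_cast this
  have h7 := mul_le_mul_of_nonneg_right h4 hb0
  have h8 := mul_le_mul_of_nonneg_right h5 hb0
  nlinarith

private theorem enV_inv (m : CMap X) (y T : X) (q : Fin 7 → ℕ) (hG : GoodMarks m (fanA m y q))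
    (w : X ⊕ Fan → ℝ) (hw : (fan m y q).RInv w) : m.RInv (enV m y T w) := by
  intro x
  unfold enV
  by_cases hx : m.r.SameCycle y x
  · rw [if_pos hx, if_pos (Equiv.Perm.sameCycle_apply_right.2 hx)]
  · rw [if_neg hx, if_neg (fun h => hx (Equiv.Perm.sameCycle_apply_right.1 h))]
    exact en_inv m y q hG w hw x hx

theorem energy_cmp (m : CMap X) {lam : ℝ} (hl : 0 < lam) (y : X) (q : Fin 7 → ℕ)
    (hq : q ∈ fans (m.deg y)) (hy : ∀ x, m.r.SameCycle y x → ¬ m.r.SameCycle y (m.k x)) (T : X) :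
    ∑ x ∈ univ.filter (fun x => m.r.SameCycle y x), 2 * m.be lam (m.pot lam T) (m.pot lam T) x ≤
      32 * (m.deg y : ℝ) * ∑ z ∈ fanSet m y, 2 * (fan m y q).be lam
        ((fan m y q).pot lam (Sum.inl T)) ((fan m y q).pot lam (Sum.inl T)) z := by
  have hG := fan_good m y q hq hy
  have hu := pot_spec m hl T
  have hw := pot_spec (fan m y q) hl (Sum.inl T)
  set u := m.pot lam T with hudef
  set w := (fan m y q).pot lam (Sum.inl T) with hwdef
  set a := ∑ x ∈ univ.filter (fun x => m.r.SameCycle y x), 2 * m.be lam u u x with ha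
  set b := ∑ z ∈ fanSet m y, 2 * (fan m y q).be lam w w z with hb
  set O := univ.filter (fun x => ¬ m.r.SameCycle y x ∧ ¬ m.r.SameCycle y (m.k x)) with hO
  have hv'1 := enV'_inv m y q hG u hu.inv
  have hv'2 := enV'_energy m hl.le y q hG u hu.inv
  have hv1 := enV_inv m y T q hG w hw.inv
  have hv2 := enV_energy m hl.le y T q hq hy w hw.inv
  rw [← ha] at hv'2
  rw [← hb] at hv2
  have hvT : enV m y T w T = 1 := by
    unfold enV
    split_ifs
    · exact hw.one
    · exact hw.one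
  have e1 := en_beta_sub m lam T u (enV m y T w) hu hv1 hvT
  have e2 := en_beta_sub (fan m y q) lam (Sum.inl T) w (enV' m y q u) hw hv'1 hu.one
  -- splitting
  have sp : ∀ f g : X → ℝ, m.beta lam f g =
      ∑ x ∈ univ.filter (fun x => m.r.SameCycle y x), 2 * m.be lam f g x +
        ∑ x ∈ O, m.be lam f g x := by
    intro f g
    exact en_split m y hy (fun x => m.be lam f g x) (fun x => be_k m lam f g x)
  have sp' : ∀ f g : X ⊕ Fan → ℝ, (fan m y q).beta lam f g =
      ∑ z ∈ fanSet m y, 2 * (fan m y q).be lam f g z +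
        ∑ x ∈ O, (fan m y q).be lam f g (Sum.inl x) := by
    intro f g
    refine en_total m y hy (fun z => (fan m y q).be lam f g z) ?_ ?_ ?_
    · intro x
      exact be_k (fan m y q) lam f g (Sum.inl x)
    · intro i
      exact be_k (fan m y q) lam f g (Sum.inr (i, 1))
    · intro i
      exact be_k (fan m y q) lam f g (Sum.inr (i, 3))
  rw [sp, sp] at e1
  rw [sp', sp'] at e2
  rw [← ha] at e1
  rw [← hb] at e2
  have o1 : ∑ x ∈ O, m.be lam u (enV m y T w) x =
      ∑ x ∈ O, m.be lam u (fun x => w (Sum.inl x)) x := by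
    refine sum_congr rfl fun x hx => ?_
    rw [hO, mem_filter] at hx
    unfold CMap.be enV
    rw [if_neg hx.2.1, if_neg hx.2.2]
  have o2 : ∑ x ∈ O, (fan m y q).be lam w w (Sum.inl x) =
      ∑ x ∈ O, m.be lam (fun x => w (Sum.inl x)) (fun x => w (Sum.inl x)) x := rfl
  have o3 : ∑ x ∈ O, (fan m y q).be lam w (enV' m y q u) (Sum.inl x) =
      ∑ x ∈ O, m.be lam (fun x => w (Sum.inl x)) u x := rfl
  rw [o1] at e1
  rw [o2, o3] at e2
  have o4 : 0 ≤ ∑ x ∈ O, m.be lam (fun x => u x - w (Sum.inl x)) (fun x => u x - w (Sum.inl x)) x :=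
    sum_nonneg fun x _ => be_nonneg m hl.le _ x
  have o5 : ∑ x ∈ O, m.be lam (fun x => u x - w (Sum.inl x)) (fun x => u x - w (Sum.inl x)) x =
      ∑ x ∈ O, m.be lam u u x +
        ∑ x ∈ O, m.be lam (fun x => w (Sum.inl x)) (fun x => w (Sum.inl x)) x -
        ∑ x ∈ O, m.be lam u (fun x => w (Sum.inl x)) x -
        ∑ x ∈ O, m.be lam (fun x => w (Sum.inl x)) u x := by
    rw [← sum_add_distrib, ← sum_sub_distrib, ← sum_sub_distrib]
    refine sum_congr rfl fun x _ => ?_
    unfold CMap.be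
    ring
  have c1 := en_cs m hl.le u (enV m y T w) (univ.filter (fun x => m.r.SameCycle y x))
  have c2 := en_cs (fan m y q) hl.le w (enV' m y q u) (fanSet m y)
  rw [← ha] at c1
  rw [← hb] at c2
  set R := ∑ x ∈ univ.filter (fun x => m.r.SameCycle y x), 2 * m.be lam u (enV m y T w) x with hR
  set R' := ∑ z ∈ fanSet m y, 2 * (fan m y q).be lam w (enV' m y q u) z with hR'
  have ha0 : 0 ≤ a := sum_nonneg fun x _ => by
    have := be_nonneg m hl.le u x
    linarith
  have hb0 : 0 ≤ b := sum_nonneg fun x _ => by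
    have := be_nonneg (fan m y q) hl.le w x
    linarith
  have h5 : (1 : ℝ) ≤ (m.deg y : ℝ) := by
    have h6 := (mem_fans.1 hq).2.2 0
    have : 1 ≤ m.deg y := by omega
    exact_mod_cast this
  have k1 : a + b ≤ R + R' := by linarith
  have k2 : R ^ 2 ≤ a * (8 * (m.deg y : ℝ) * b) :=
    c1.trans (mul_le_mul_of_nonneg_left hv2 ha0)
  have k3 : R' ^ 2 ≤ b * (8 * a) := c2.trans (mul_le_mul_of_nonneg_left hv'2 hb0)
  rcases ha0.eq_or_lt with h0 | h0
  · rw [← h0]
    positivity
  · have k4 : a ^ 2 ≤ (R + R') ^ 2 := by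
      apply pow_le_pow_left₀ ha0
      linarith
    have k5 : (R + R') ^ 2 ≤ 2 * R ^ 2 + 2 * R' ^ 2 := by nlinarith [sq_nonneg (R - R')]
    have k6 : a * b ≤ a * b * (m.deg y : ℝ) := le_mul_of_one_le_right (by positivity) h5
    have k7 : a * a ≤ a * (32 * (m.deg y : ℝ) * b) := by nlinarith
    exact le_of_mul_le_mul_left k7 h0

end UIPQ
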