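import Pool.Agent.Lib.UIPQ.B.Orb

/-!
# NonCr: maximal number of cycles implies noncrossing

ζ is a permutation with one cycle, x₀ a base point, pos x = the least n with ζ^n x₀ = x.

PROOF. `pos_spec`, `pos_inj` immediate; pos x < |X|. If pos x + 1 < |X| then pos (ζ x) = pos x + 1; ζ x = x₀ otherwise.
`noncrossing`: suppose pos a < pos b < pos (β a) < pos (β b). Put σ = ζ * swap a (β a): orb σ = 2 (orb_swap_same; orb ζ = 1). The set
S = {x : pos a < pos x ≤ pos (β a)} is stable under σ: for x ∈ S, x ≠ β a, x ≠ a: σ x = ζ x has pos x + 1 ≤ pos (β a) (< |X|);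
σ (β a) = ζ a has position pos a + 1. b ∈ S, β b ∉ S, so b and β b are in different cycles of σ: orb (σ * swap b (β b)) = 1.
β₂ := the involution which fixes a, β a, b, β b and is β elsewhere; ζ * β = σ * swap b (β b) * β₂ (the transpositions are disjoint, they
commute) and orb_mul_le: 2 orb (ζ * β) ≤ 2 + (#moved β - 4) < #moved β + 2: contradiction.
-/

namespace UIPQ

open Equiv Finset

variable {X : Type} [Fintype X] [DecidableEq X]

/-- The position of `x` on the cycle of `ζ`, starting from `x₀`. -/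
noncomputable def pos (ζ : Perm X) (x₀ x : X) : ℕ := sInf {n | (ζ ^ n) x₀ = x}

private theorem ncr_pow (ζ : Perm X) (x y : X) (h : ζ.SameCycle x y) : ∃ n : ℕ, (ζ ^ n) x = y := by
  obtain ⟨n, _, hn⟩ := h.exists_pow_eq'
  exact ⟨n, hn⟩

private theorem pos_spec (ζ : Perm X) (hζ : ∀ x y, ζ.SameCycle x y) (x₀ x : X) :
    (ζ ^ (pos ζ x₀ x)) x₀ = x := by
  have h : {n | (ζ ^ n) x₀ = x}.Nonempty := ncr_pow ζ x₀ x (hζ x₀ x)
  exact Nat.sInf_mem h

private theorem pos_le (ζ : Perm X) (x₀ x : X) (n : ℕ) (h : (ζ ^ n) x₀ = x) : pos ζ x₀ x ≤ n :=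
  Nat.sInf_le h

theorem pos_inj (ζ : Perm X) (hζ : ∀ x y, ζ.SameCycle x y) (x₀ : X) :
    Function.Injective (pos ζ x₀) := by
  intro x y hxy
  rw [← pos_spec ζ hζ x₀ x, hxy, pos_spec ζ hζ x₀ y]

private theorem pos_bound (ζ : Perm X) (hζ : ∀ x y, ζ.SameCycle x y) (x₀ : X) (p : ℕ)
    (h : (ζ ^ (p + 1)) x₀ = x₀) (y : X) : pos ζ x₀ y ≤ p := by
  obtain ⟨n, hn⟩ := ncr_pow ζ x₀ y (hζ x₀ y)
  have h1 : ∀ k : ℕ, (ζ ^ ((p + 1) * k)) x₀ = x₀ := by
    intro k
    induction k with
    | zero => simp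
    | succ k ih => rw [Nat.mul_succ, pow_add, Perm.mul_apply, h, ih]
  have h2 : (ζ ^ (n % (p + 1))) x₀ = y := by
    have h3 := hn
    rw [← Nat.mod_add_div n (p + 1), pow_add, Perm.mul_apply, h1] at h3
    exact h3
  have h3 := pos_le ζ x₀ y _ h2
  have h4 : n % (p + 1) < p + 1 := Nat.mod_lt _ (Nat.succ_pos p)
  omega

private theorem pos_succ (ζ : Perm X) (hζ : ∀ x y, ζ.SameCycle x y) (x₀ x y : X)
    (h : pos ζ x₀ x < pos ζ x₀ y) : pos ζ x₀ (ζ x) = pos ζ x₀ x + 1 := by
  have hx := pos_spec ζ hζ x₀ x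
  have h1 : (ζ ^ (pos ζ x₀ x + 1)) x₀ = ζ x := by
    rw [pow_succ', Perm.mul_apply, hx]
  have h2 := pos_le ζ x₀ (ζ x) _ h1
  have h3 := pos_spec ζ hζ x₀ (ζ x)
  by_contra hne
  have hlt : pos ζ x₀ (ζ x) ≤ pos ζ x₀ x := by omega
  rcases Nat.eq_zero_or_pos (pos ζ x₀ (ζ x)) with h0 | h0
  · rw [h0] at h3
    have h4 : (ζ ^ (pos ζ x₀ x + 1)) x₀ = x₀ := by
      rw [h1, ← h3]; simp
    have h5 := pos_bound ζ hζ x₀ _ h4 y
    omega
  · obtain ⟨m, hm⟩ : ∃ m, pos ζ x₀ (ζ x) = m + 1 := ⟨pos ζ x₀ (ζ x) - 1, by omega⟩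
    rw [hm, pow_succ', Perm.mul_apply] at h3
    have h4 : (ζ ^ m) x₀ = x := ζ.injective h3
    have h5 := pos_le ζ x₀ x m h4
    omega

private theorem orb_one (ζ : Perm X) (hζ : ∀ x y, ζ.SameCycle x y) (x₀ : X) : orb ζ = 1 := by
  unfold orb
  rw [Nat.card_eq_one_iff_unique]
  refine ⟨⟨?_⟩, ⟨Quotient.mk _ x₀⟩⟩
  intro u v
  induction u using Quotient.inductionOn with
  | _ u =>
    induction v using Quotient.inductionOn with
    | _ v => exact Quotient.sound (hζ u v)

theorem noncrossing (ζ : Perm X) (hζ : ∀ x y, ζ.SameCycle x y) (x₀ : X) (β : Perm X)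
    (hβ : ∀ x, β (β x) = x)
    (h : 2 * orb (ζ * β) = (univ.filter (fun x => β x ≠ x)).card + 2) (a b : X) :
    ¬ (pos ζ x₀ a < pos ζ x₀ b ∧ pos ζ x₀ b < pos ζ x₀ (β a) ∧ pos ζ x₀ (β a) < pos ζ x₀ (β b)) := by
  rintro ⟨p1, p2, p3⟩
  have ab : a ≠ b := fun e => by rw [e] at p1; exact lt_irrefl _ p1
  have aA : a ≠ β a := fun e => by rw [← e] at p2; omega
  have aB : a ≠ β b := fun e => by rw [← e] at p3; omega
  have bA : b ≠ β a := fun e => by rw [← e] at p2; omega
  have bB : b ≠ β b := fun e => by rw [← e] at p3; omega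
  have AB : β a ≠ β b := fun e => by rw [e] at p3; omega
  have o1 : orb ζ = 1 := orb_one ζ hζ x₀
  have o2 : orb (ζ * swap a (β a)) = 2 := by
    rw [orb_swap_same ζ a (β a) aA (hζ a (β a)), o1]
  have hnot : ¬ (ζ * swap a (β a)).SameCycle b (β b) := by
    intro hs
    obtain ⟨n, hn⟩ := ncr_pow _ _ _ hs
    have hst : ∀ k : ℕ, pos ζ x₀ a < pos ζ x₀ (((ζ * swap a (β a)) ^ k) b) ∧
        pos ζ x₀ (((ζ * swap a (β a)) ^ k) b) ≤ pos ζ x₀ (β a) := by
      intro k
      induction k with
      | zero => simp only [pow_zero, Perm.one_apply]; exact ⟨p1, p2.le⟩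
      | succ k ih =>
        rw [pow_succ', Perm.mul_apply]
        generalize ((ζ * swap a (β a)) ^ k) b = x at ih ⊢
        rw [Perm.mul_apply]
        obtain ⟨i1, i2⟩ := ih
        have xa : x ≠ a := fun e => by rw [e] at i1; exact lt_irrefl _ i1
        by_cases xA : x = β a
        · rw [xA, swap_apply_right, pos_succ ζ hζ x₀ a (β a) (by omega)]
          omega
        · rw [swap_apply_of_ne_of_ne xa xA]
          have hlt : pos ζ x₀ x < pos ζ x₀ (β a) := by
            refine lt_of_le_of_ne i2 (fun e => xA ?_)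
            exact pos_inj ζ hζ x₀ e
          rw [pos_succ ζ hζ x₀ x (β a) hlt]
          omega
    have := (hst n).2
    rw [hn] at this
    omega
  have o3 : orb (ζ * swap a (β a) * swap b (β b)) + 1 = 2 := by
    rw [orb_swap_diff _ b (β b) hnot, o2]
  set β₂ : Perm X := swap b (β b) * (swap a (β a) * β) with hβ₂
  have eq1 : ζ * β = ζ * swap a (β a) * swap b (β b) * β₂ := by
    rw [hβ₂, ← mul_assoc (ζ * swap a (β a) * swap b (β b)) (swap b (β b)),
      mul_assoc (ζ * swap a (β a)) (swap b (β b)) (swap b (β b)), swap_mul_self, mul_one,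
      ← mul_assoc (ζ * swap a (β a)) (swap a (β a)) β, mul_assoc ζ, swap_mul_self, mul_one]
  have fa : β₂ a = a := by
    rw [hβ₂, Perm.mul_apply, Perm.mul_apply, swap_apply_right, swap_apply_of_ne_of_ne ab aB]
  have fA : β₂ (β a) = β a := by
    rw [hβ₂, Perm.mul_apply, Perm.mul_apply, hβ a, swap_apply_left,
      swap_apply_of_ne_of_ne bA.symm AB]
  have fb : β₂ b = b := by
    rw [hβ₂, Perm.mul_apply, Perm.mul_apply, swap_apply_of_ne_of_ne aB.symm AB.symm,
      swap_apply_right]
  have fB : β₂ (β b) = β b := by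
    rw [hβ₂, Perm.mul_apply, Perm.mul_apply, hβ b, swap_apply_of_ne_of_ne ab.symm bA,
      swap_apply_left]
  have fx : ∀ x, x ≠ a → x ≠ β a → x ≠ b → x ≠ β b → β₂ x = β x := by
    intro x h1 h2 h3 h4
    have k1 : β x ≠ a := fun e => h2 (by rw [← e, hβ])
    have k2 : β x ≠ β a := fun e => h1 (β.injective e)
    have k3 : β x ≠ b := fun e => h4 (by rw [← e, hβ])
    have k4 : β x ≠ β b := fun e => h3 (β.injective e)
    rw [hβ₂, Perm.mul_apply, Perm.mul_apply, swap_apply_of_ne_of_ne k1 k2,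
      swap_apply_of_ne_of_ne k3 k4]
  have inv : ∀ x, β₂ (β₂ x) = x := by
    intro x
    by_cases h1 : x = a
    · rw [h1, fa, fa]
    by_cases h2 : x = β a
    · rw [h2, fA, fA]
    by_cases h3 : x = b
    · rw [h3, fb, fb]
    by_cases h4 : x = β b
    · rw [h4, fB, fB]
    have k1 : β x ≠ a := fun e => h2 (by rw [← e, hβ])
    have k2 : β x ≠ β a := fun e => h1 (β.injective e)
    have k3 : β x ≠ b := fun e => h4 (by rw [← e, hβ])
    have k4 : β x ≠ β b := fun e => h3 (β.injective e)
    rw [fx x h1 h2 h3 h4, fx (β x) k1 k2 k3 k4, hβ]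
  have hM : (univ.filter (fun x => β x ≠ x)).card = (univ.filter (fun x => β₂ x ≠ x)).card + 4 := by
    have hc : ({a, β a, b, β b} : Finset X).card = 4 := by
      rw [card_insert_of_notMem, card_insert_of_notMem, card_insert_of_notMem, card_singleton]
      · simpa using bB
      · simp only [mem_insert, mem_singleton, not_or]
        exact ⟨bA.symm, AB⟩
      · simp only [mem_insert, mem_singleton, not_or]
        exact ⟨aA, ab, aB⟩
    have hd : Disjoint (univ.filter (fun x => β₂ x ≠ x)) ({a, β a, b, β b} : Finset X) := by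
      rw [disjoint_left]
      intro x hx hx'
      simp only [mem_filter, mem_univ, true_and] at hx
      simp only [mem_insert, mem_singleton] at hx'
      rcases hx' with e | e | e | e
      · rw [e] at hx; exact hx fa
      · rw [e] at hx; exact hx fA
      · rw [e] at hx; exact hx fb
      · rw [e] at hx; exact hx fB
    have hu : univ.filter (fun x => β x ≠ x) =
        univ.filter (fun x => β₂ x ≠ x) ∪ ({a, β a, b, β b} : Finset X) := by
      ext x
      simp only [mem_filter, mem_univ, true_and, mem_union, mem_insert, mem_singleton]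
      constructor
      · intro hx
        by_cases h1 : x = a
        · right; left; exact h1
        by_cases h2 : x = β a
        · right; right; left; exact h2
        by_cases h3 : x = b
        · right; right; right; left; exact h3
        by_cases h4 : x = β b
        · right; right; right; right; exact h4
        left
        rw [fx x h1 h2 h3 h4]
        exact hx
      · rintro (hx | e | e | e | e)
        · intro e
          apply hx
          by_cases h1 : x = a
          · rw [h1]; exact fa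
          by_cases h2 : x = β a
          · rw [h2]; exact fA
          by_cases h3 : x = b
          · rw [h3]; exact fb
          by_cases h4 : x = β b
          · rw [h4]; exact fB
          rw [fx x h1 h2 h3 h4]; exact e
        · rw [e]; exact aA.symm
        · rw [e, hβ]; exact aA
        · rw [e]; exact bB.symm
        · rw [e, hβ]; exact bB
    rw [hu, card_union_of_disjoint hd, hc]
  have hle := orb_mul_le (ζ * swap a (β a) * swap b (β b)) β₂ inv
  rw [← eq1, h, hM] at hle
  omega

end UIPQ
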