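import Mathlib

/-!
# Word: a noncrossing involution is determined by its word

PROOF. Call p open if pos p < pos (β p) (iff pos p < pos (β' p)). Suppose some open p has β p ≠ β' p; choose such a p with
min (pos (β p)) (pos (β' p)) - pos p minimal; by symmetry (exchange β and β') pos (β p) < pos (β' p). c = β p is closing for β (β c = p,
pos p < pos c), so closing for β': o = β' c, pos o < pos c; o ≠ p because β' p ≠ c. If pos o < pos p: pos o < pos p < pos c = pos (β' o) < pos (β' p):
a crossing of β' (a = o, b = p). So pos p < pos o < pos c (injectivity). o is open for β' so for β. β o ≠ c because β c = p ≠ o; if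
pos (β o) > pos c: pos p < pos o < pos (β p) < pos (β o): crossing of β. So pos (β o) < pos c = pos (β' o): β o ≠ β' o, and
min - pos o ≤ pos (β o) - pos o < pos c - pos p: contradiction with minimality. So β = β' at open points. At a closing point p, q = β p is open,
β q = p, so β' q = p and β' p = q. At a fixed point of β (neither open nor closing) β' p = p too.
-/

namespace UIPQ

private theorem word_key {X : Type} (pos : X → ℕ) (hpos : Function.Injective pos) (β β' : X → X)
    (h : ∀ x, β (β x) = x) (h' : ∀ x, β' (β' x) = x)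
    (nc : ∀ a b, ¬ (pos a < pos b ∧ pos b < pos (β a) ∧ pos (β a) < pos (β b)))
    (nc' : ∀ a b, ¬ (pos a < pos b ∧ pos b < pos (β' a) ∧ pos (β' a) < pos (β' b)))
    (ho : ∀ x, pos x < pos (β x) ↔ pos x < pos (β' x))
    (hc : ∀ x, pos (β x) < pos x ↔ pos (β' x) < pos x) (n : ℕ) :
    ∀ p, pos p < pos (β p) → pos (β p) < pos (β' p) → pos (β p) - pos p ≤ n → False := by
  induction n with
  | zero => intro p h1 _ h3; omega
  | succ n ih =>
    intro p h1 h2 h3
    have e1 : β (β p) = p := h p
    have h4 : pos (β' (β p)) < pos (β p) := (hc (β p)).1 (by rw [e1]; exact h1)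
    have e2 : β' (β' (β p)) = β p := h' _
    have h5 : pos (β' (β p)) ≠ pos p := by
      intro h6
      have h7 : β' (β p) = p := hpos h6
      rw [h7] at e2
      rw [e2] at h2
      exact lt_irrefl _ h2
    have h6 : ¬ pos (β' (β p)) < pos p := by
      intro h7
      exact nc' (β' (β p)) p ⟨h7, by rw [e2]; exact h1, by rw [e2]; exact h2⟩
    have h7 : pos p < pos (β' (β p)) := by omega
    have h8 : pos (β' (β p)) < pos (β (β' (β p))) := (ho _).2 (by rw [e2]; exact h4)
    have h9 : pos (β (β' (β p))) ≠ pos (β p) := by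
      intro h10
      have h11 : β (β' (β p)) = β p := hpos h10
      have h12 : β (β (β' (β p))) = β (β p) := congrArg β h11
      rw [h, h] at h12
      exact h5 (congrArg pos h12)
    have h10 : ¬ pos (β p) < pos (β (β' (β p))) := fun h11 => nc p (β' (β p)) ⟨h7, h4, h11⟩
    refine ih (β' (β p)) h8 ?_ ?_
    · rw [e2]; omega
    · omega

theorem word_unique {X : Type} (pos : X → ℕ) (hpos : Function.Injective pos) (β β' : X → X)
    (h : ∀ x, β (β x) = x) (h' : ∀ x, β' (β' x) = x)
    (nc : ∀ a b, ¬ (pos a < pos b ∧ pos b < pos (β a) ∧ pos (β a) < pos (β b)))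
    (nc' : ∀ a b, ¬ (pos a < pos b ∧ pos b < pos (β' a) ∧ pos (β' a) < pos (β' b)))
    (ho : ∀ x, pos x < pos (β x) ↔ pos x < pos (β' x))
    (hc : ∀ x, pos (β x) < pos x ↔ pos (β' x) < pos x) : β = β' := by
  have key : ∀ x, pos x < pos (β x) → β x = β' x := by
    intro x hx
    by_contra hne
    rcases lt_or_gt_of_ne (fun he => hne (hpos he) : pos (β x) ≠ pos (β' x)) with h1 | h1
    · exact word_key pos hpos β β' h h' nc nc' ho hc _ x hx h1 le_rfl
    · exact word_key pos hpos β' β h' h nc' nc (fun y => (ho y).symm) (fun y => (hc y).symm) _ x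
        ((ho x).1 hx) h1 le_rfl
  funext x
  rcases lt_trichotomy (pos x) (pos (β x)) with h1 | h1 | h1
  · exact key x h1
  · have h2 : ¬ pos x < pos (β' x) := fun h3 => by
      have h4 := (ho x).2 h3
      omega
    have h3 : ¬ pos (β' x) < pos x := fun h3 => by
      have h4 := (hc x).2 h3
      omega
    have h4 : pos (β x) = pos (β' x) := by omega
    exact hpos h4
  · have h2 : β (β x) = x := h x
    have h3 : β (β x) = β' (β x) := key (β x) (by rw [h2]; exact h1)
    rw [h2] at h3
    have h4 : β' x = β' (β' (β x)) := congrArg β' h3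
    rw [h'] at h4
    exact h4.symm

end UIPQ
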