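import Pool.Agent.Lib.UIPQ.B.Tree
import Pool.Agent.Lib.UIPQ.B.NonCr
import Pool.Agent.Lib.UIPQ.B.Word
import Pool.Agent.Lib.UIPQ.B.Bip

/-!
# ExpCount: the number of labelled quadrangulations

PROOF. N = 4n+4, X = Fin N, x₀ = 0. For m ∈ QF n (planar by quad_planar) choose (ζ, α, β) by `exists_tree`. The word of an involution γ with
respect to ζ is X → Fin 3, x ↦ 0 if γ x = x, 1 if pos x < pos (γ x), 2 otherwise. The map m ↦ (ζ, word α, word β) is injective on QF n: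
same ζ and same words: `noncrossing` and `word_unique` (with pos = pos ζ x₀) give the same α and β, and m.r = ζ * α, m.k = α * β (CMap.ext).
The target has N! · 3^N · 3^N elements.
-/

namespace UIPQ

open Equiv Finset in
private theorem word_eq {X : Type} [Fintype X] [DecidableEq X] (x₀ : X) (ζ γ γ' : Perm X)
    (hζ : ∀ x y, ζ.SameCycle x y) (h : ∀ x, γ (γ x) = x) (h' : ∀ x, γ' (γ' x) = x)
    (ho : 2 * orb (ζ * γ) = (univ.filter (fun x => γ x ≠ x)).card + 2)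
    (ho' : 2 * orb (ζ * γ') = (univ.filter (fun x => γ' x ≠ x)).card + 2)
    (hw : (fun x => if pos ζ x₀ x < pos ζ x₀ (γ x) then (1 : Fin 3) else
        if pos ζ x₀ (γ x) < pos ζ x₀ x then 2 else 0) =
      fun x => if pos ζ x₀ x < pos ζ x₀ (γ' x) then (1 : Fin 3) else
        if pos ζ x₀ (γ' x) < pos ζ x₀ x then 2 else 0) : γ = γ' := by
  have hk : ∀ x, (pos ζ x₀ x < pos ζ x₀ (γ x) ↔ pos ζ x₀ x < pos ζ x₀ (γ' x)) ∧
      (pos ζ x₀ (γ x) < pos ζ x₀ x ↔ pos ζ x₀ (γ' x) < pos ζ x₀ x) := by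
    intro x
    have h1 := congrFun hw x
    split_ifs at h1 with a b c d e f g
    · exact ⟨⟨fun _ => b, fun _ => a⟩, ⟨fun h => absurd h (by omega), fun h => absurd h (by omega)⟩⟩
    · exact absurd h1 (by decide)
    · exact absurd h1 (by decide)
    · exact absurd h1 (by decide)
    · exact ⟨⟨fun h => absurd h a, fun h => absurd h e⟩, ⟨fun _ => f, fun _ => d⟩⟩
    · exact absurd h1 (by decide)
    · exact absurd h1 (by decide)
    · exact absurd h1 (by decide)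
    · exact ⟨⟨fun h => absurd h (by assumption), fun h => absurd h (by assumption)⟩,
        ⟨fun h => absurd h (by assumption), fun h => absurd h (by assumption)⟩⟩
  have h3 := word_unique (pos ζ x₀) (pos_inj ζ hζ x₀) (fun x => γ x) (fun x => γ' x) h h'
    (fun a b => noncrossing ζ hζ x₀ γ h ho a b) (fun a b => noncrossing ζ hζ x₀ γ' h' ho' a b)
    (fun x => (hk x).1) (fun x => (hk x).2)
  exact Equiv.ext fun x => congrFun h3 x

theorem card_QF_le (n : ℕ) :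
    (QF n).card ≤ (4 * n + 4).factorial * 9 ^ (4 * n + 4) := by
  classical
  obtain ⟨x₀⟩ : Nonempty (Fin (4 * n + 4)) := ⟨⟨0, by omega⟩⟩
  have h1 : ∀ m : CMap (Fin (4 * n + 4)), ∃ p : Equiv.Perm (Fin (4 * n + 4)) × Equiv.Perm (Fin (4 * n + 4)) ×
      Equiv.Perm (Fin (4 * n + 4)), m ∈ QF n →
      (∀ x y, p.1.SameCycle x y) ∧ (∀ x, p.2.1 (p.2.1 x) = x) ∧ (∀ x, p.2.2 (p.2.2 x) = x) ∧
      m.r = p.1 * p.2.1 ∧ m.k = p.2.1 * p.2.2 ∧
      2 * orb (p.1 * p.2.1) = (Finset.univ.filter (fun x => p.2.1 x ≠ x)).card + 2 ∧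
      2 * orb (p.1 * p.2.2) = (Finset.univ.filter (fun x => p.2.2 x ≠ x)).card + 2 := by
    intro m
    by_cases hm : m ∈ QF n
    · obtain ⟨ζ, α, β, h⟩ := exists_tree m (quad_planar m (mem_QF.1 hm))
      exact ⟨(ζ, α, β), fun _ => h⟩
    · exact ⟨(1, 1, 1), fun h => absurd h hm⟩
  choose T hT using h1
  obtain ⟨w, hw⟩ : ∃ w : Equiv.Perm (Fin (4 * n + 4)) → Equiv.Perm (Fin (4 * n + 4)) → Fin (4 * n + 4) → Fin 3,
      ∀ ζ γ, w ζ γ = fun x => if pos ζ x₀ x < pos ζ x₀ (γ x) then (1 : Fin 3) else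
        if pos ζ x₀ (γ x) < pos ζ x₀ x then 2 else 0 := ⟨_, fun _ _ => rfl⟩
  have h2 : (QF n).card ≤ (Finset.univ : Finset (Equiv.Perm (Fin (4 * n + 4)) × (Fin (4 * n + 4) → Fin 3) ×
      (Fin (4 * n + 4) → Fin 3))).card := by
    refine Finset.card_le_card_of_injOn (fun m => ((T m).1, w (T m).1 (T m).2.1, w (T m).1 (T m).2.2))
      (fun _ _ => Finset.mem_coe.2 (Finset.mem_univ _)) ?_
    intro m hm m' hm' he
    obtain ⟨hz, ha, hb, hr, hk, hoa, hob⟩ := hT m (Finset.mem_coe.1 hm)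
    obtain ⟨hz', ha', hb', hr', hk', hoa', hob'⟩ := hT m' (Finset.mem_coe.1 hm')
    simp only [Prod.mk.injEq] at he
    obtain ⟨e1, e2, e3⟩ := he
    rw [← e1] at hr' hoa' hob' e2 e3
    rw [hw, hw] at e2 e3
    have h4 := word_eq x₀ _ _ _ hz ha ha' hoa hoa' e2
    have h5 := word_eq x₀ _ _ _ hz hb hb' hob hob' e3
    refine CMap.ext ?_ ?_
    · rw [hr, hr', h4]
    · rw [hk, hk', h4, h5]
  refine h2.trans (le_of_eq ?_)
  rw [Finset.card_univ, Fintype.card_prod, Fintype.card_prod, Fintype.card_perm, Fintype.card_fun, Fintype.card_fin,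
    Fintype.card_fin, ← mul_pow, show (3 * 3 : ℕ) = 9 from rfl]

end UIPQ
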