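import Pool.Agent.Lib.UIPQ.B.Rot
import Pool.Agent.Lib.UIPQ.B.Bip

/-!
# FanFace: after the surgery all faces have four sides, and the number of vertices is at least V + 7

PROOF. `fan_face4`: by fanMap_f, f' = τ (f ⊕ c) τ with the involution τ = exch a mark, so the minimal period of f' at z is the
minimal period of f ⊕ c at τ z; it is 4 at inl x by hypothesis, and at inr p because fanC^[4] p = p, fanC^[2] p ≠ p (decide).
`fan_vert`: d = deg y. Define g : X ⊕ Fan → m.Vertex ⊕ Fin 7 by
 g (inl x) = inl (vert x) if x is not at the vertex of y; for x = r^[l] y, l < d (l unique): inl (vert y) if l < q 0, and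
 inr i with i the largest index with q i ≤ l otherwise;
 g (inr (i,0)) = inl (vert (k y)); g (inr (i,2)) = inl (vert (k (r^[q i] y))); g (inr (i,1)) = inr i;
 g (inr (0,3)) = inl (vert y); g (inr (i,3)) = inr (i-1) for i ≠ 0.
g is invariant under r' (check each formula of Rot: rot_old: x not at y: r x in the same vertex, not at y; x = r^[l] y with l + 1 < d and
l + 1 not of the form q i: same class. rot_before: r x = a (i+1), x = r^[q i - 1] y: class of q i - 1 is i - 1 or inl (vert y) if i = 0:
equal to g (inr (i,3)). r x = a 0 = y: x = r^[d-1] y, class 6 (q 6 ≤ d - 1), equal to g (inr (6,1)). rot_k0, rot_B: inl (vert (k y)).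
rot_B6: f y = r (k y). rot_ki, rot_B': vert (k (a (i+1))). rot_b: class of q i is i. rot_b': i - 1. rot_b'0: inl (vert y)).
g is surjective (inl (vert x): x not at y; y itself; inr i = g (inr (i,1))). So it induces a surjection Vertex' → Vertex ⊕ Fin 7.
-/

namespace UIPQ

variable {X : Type} [Fintype X]

private theorem fanC_period (p : Fan) : Function.minimalPeriod fanC p = 4 := by
  have h4 : Function.IsPeriodicPt fanC 4 p := by
    show fanC^[4] p = p
    revert p
    decide
  have h2 : ¬ Function.IsPeriodicPt fanC 2 p := by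
    show ¬ fanC^[2] p = p
    revert p
    decide
  have h5 : Function.minimalPeriod fanC p ∣ 4 := h4.minimalPeriod_dvd
  have h6 : ¬ Function.minimalPeriod fanC p ∣ 2 := fun h =>
    h2 (Function.isPeriodicPt_iff_minimalPeriod_dvd.2 h)
  have h7 : Function.minimalPeriod fanC p ≤ 4 := Nat.le_of_dvd (by norm_num) h5
  interval_cases Function.minimalPeriod fanC p
  · omega
  · omega
  · omega
  · omega
  · rfl

theorem fan_face4 (m : CMap X) (a : Fin 8 → X) (ha : GoodMarks m a)
    (h : ∀ x, Function.minimalPeriod m.f x = 4) (z : X ⊕ Fan) :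
    Function.minimalPeriod (fanMap m a).f z = 4 := by
  have hit : ∀ (n : ℕ) (z : X ⊕ Fan), (fanMap m a).f^[n] z =
      exch a mark ((Sum.map m.f fanC)^[n] (exch a mark z)) := by
    intro n
    induction n with
    | zero => intro z; exact (exch_exch ha z).symm
    | succ n ih =>
      intro z
      rw [Function.iterate_succ_apply, ih, fanMap_f, exch_exch ha, Function.iterate_succ_apply]
  have hper : ∀ n, Function.IsPeriodicPt (fanMap m a).f n z ↔
      Function.IsPeriodicPt (Sum.map m.f fanC) n (exch a mark z) := by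
    intro n
    show (fanMap m a).f^[n] z = z ↔ (Sum.map m.f fanC)^[n] (exch a mark z) = exch a mark z
    rw [hit]
    constructor
    · intro h1
      rw [← exch_exch ha ((Sum.map m.f fanC)^[n] (exch a mark z)), h1]
    · intro h1
      rw [h1, exch_exch ha]
  have hmap : ∀ (n : ℕ) (w : X ⊕ Fan), (Sum.map m.f fanC)^[n] w =
      Sum.map (m.f^[n]) (fanC^[n]) w := by
    intro n
    induction n with
    | zero => rintro (x | p) <;> rfl
    | succ n ih =>
      rintro (x | p)
      · rw [Function.iterate_succ_apply, ih]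
        rfl
      · rw [Function.iterate_succ_apply, ih]
        rfl
  rcases hw : exch a mark z with x | p
  · rw [← h x, Function.minimalPeriod_eq_minimalPeriod_iff]
    intro n
    rw [hper, hw]
    show (Sum.map m.f fanC)^[n] (Sum.inl x) = Sum.inl x ↔ m.f^[n] x = x
    rw [hmap]
    exact Sum.inl_injective.eq_iff
  · rw [← fanC_period p, Function.minimalPeriod_eq_minimalPeriod_iff]
    intro n
    rw [hper, hw]
    show (Sum.map m.f fanC)^[n] (Sum.inr p) = Sum.inr p ↔ fanC^[n] p = p
    rw [hmap]
    exact Sum.inr_injective.eq_iff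

/-- the number of marks up to the place `l` -/
private def cnt (q : Fin 7 → ℕ) (l : ℕ) : ℕ := (Finset.univ.filter fun i => q i ≤ l).card

/-- the new vertex with `n` marks before -/
private def Ev {V : Type} (v : V) : ℕ → V ⊕ Fin 7
  | 0 => Sum.inl v
  | n + 1 => Sum.inr (Fin.ofNat 7 n)

private theorem cnt_zero {q : Fin 7 → ℕ} (hq : StrictMono q) (h0 : 1 ≤ q 0) : cnt q 0 = 0 := by
  unfold cnt
  rw [Finset.card_eq_zero, Finset.filter_eq_empty_iff]
  intro i _ hi
  have := hq.monotone (Fin.zero_le i)
  omega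

private theorem cnt_at {q : Fin 7 → ℕ} (hq : StrictMono q) (i : Fin 7) : cnt q (q i) = i + 1 := by
  unfold cnt
  have : (Finset.univ.filter fun j => q j ≤ q i) = Finset.Iic i := by
    ext j
    simp [hq.le_iff_le]
  rw [this, Fin.card_Iic]

private theorem cnt_before {q : Fin 7 → ℕ} (hq : StrictMono q) (i : Fin 7) (h : 1 ≤ q i) :
    cnt q (q i - 1) = i := by
  unfold cnt
  have : (Finset.univ.filter fun j => q j ≤ q i - 1) = Finset.Iio i := by
    ext j
    rw [Finset.mem_filter, Finset.mem_Iio, ← hq.lt_iff_lt]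
    constructor
    · rintro ⟨-, h1⟩
      omega
    · intro h1
      exact ⟨Finset.mem_univ _, by omega⟩
  rw [this, Fin.card_Iio]

private theorem cnt_succ {q : Fin 7 → ℕ} {l : ℕ} (h : ∀ i, q i ≠ l + 1) :
    cnt q (l + 1) = cnt q l := by
  unfold cnt
  congr 1
  ext i
  have := h i
  simp only [Finset.mem_filter, Finset.mem_univ, true_and]
  omega

private theorem cnt_last {q : Fin 7 → ℕ} (hq : StrictMono q) {l : ℕ} (h : q 6 ≤ l) :
    cnt q l = 7 := by
  unfold cnt
  have : (Finset.univ.filter fun j => q j ≤ l) = Finset.univ := by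
    rw [Finset.filter_eq_self]
    intro j _
    exact (hq.monotone (Fin.le_last j)).trans h
  rw [this]
  rfl

private theorem Ev_pred {V : Type} (v : V) (i : Fin 7) (hi : i ≠ 0) :
    (Sum.inr (i - 1) : V ⊕ Fin 7) = Ev v (i : ℕ) := by
  have h1 : ∀ i : Fin 7, i ≠ 0 → i - 1 = Fin.ofNat 7 ((i : ℕ) - 1) := by decide
  have h2 : (i : ℕ) ≠ 0 := fun h => hi (Fin.ext h)
  obtain ⟨n, hn⟩ := Nat.exists_eq_succ_of_ne_zero h2
  rw [h1 i hi, hn]
  rfl

theorem fan_vert (m : CMap X) (y : X) (q : Fin 7 → ℕ) (hq : q ∈ fans (m.deg y))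
    (hy : ∀ x, m.r.SameCycle y x → ¬ m.r.SameCycle y (m.k x)) :
    Nat.card m.Vertex + 7 ≤ Nat.card (fan m y q).Vertex := by
  classical
  have ha : GoodMarks m (fanA m y q) := fan_good m y q hq hy
  obtain ⟨hmono, hq0, hqd⟩ := mem_fans.1 hq
  have ha0 : fanA m y q 0 = y := rfl
  have haS : ∀ i : Fin 7, fanA m y q i.succ = m.r^[q i] y := fun i => rfl
  -- places at the vertex of `y`
  have hper : y ∈ Function.periodicPts m.r :=
    Function.minimalPeriod_pos_iff_mem_periodicPts.1 (lt_of_le_of_lt (Nat.zero_le _) (hqd 0))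
  have hdpos : 0 < m.deg y := lt_of_le_of_lt (Nat.zero_le _) (hqd 0)
  have hdd : m.r^[m.deg y] y = y := Function.iterate_minimalPeriod
  have hex : ∀ x, m.r.SameCycle y x → ∃ l < m.deg y, m.r^[l] y = x := by
    intro x hx
    obtain ⟨n, hn⟩ := hx.exists_nat_pow_eq
    refine ⟨n % m.deg y, Nat.mod_lt _ hdpos, ?_⟩
    rw [CMap.deg, Function.iterate_mod_minimalPeriod_eq, ← hn]
    rfl
  have hsc : ∀ l, m.r.SameCycle y (m.r^[l] y) := by
    intro l
    exact ⟨l, by rw [zpow_natCast]; rfl⟩
  have huniq : ∀ l l', l < m.deg y → l' < m.deg y → m.r^[l] y = m.r^[l'] y → l = l' := by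
    intro l l' h1 h2 h3
    exact Function.iterate_injOn_Iio_minimalPeriod h1 h2 h3
  let pl : X → ℕ := fun x => if h : ∃ l < m.deg y, m.r^[l] y = x then h.choose else 0
  have hpl : ∀ l < m.deg y, pl (m.r^[l] y) = l := by
    intro l hl
    have h : ∃ l' < m.deg y, m.r^[l'] y = m.r^[l] y := ⟨l, hl, rfl⟩
    simp only [pl]
    rw [dif_pos h]
    exact huniq _ _ h.choose_spec.1 hl h.choose_spec.2
  let g : X ⊕ Fan → m.Vertex ⊕ Fin 7 := fun z =>
    match z with
    | Sum.inl x => if m.r.SameCycle y x then Ev (m.vert y) (cnt q (pl x)) else Sum.inl (m.vert x)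
    | Sum.inr (i, j) => ![Sum.inl (m.vert (m.k y)), Sum.inr i, Sum.inl (m.vert (m.k (m.r^[q i] y))),
        Ev (m.vert y) i] j
  have g_at : ∀ l < m.deg y, g (Sum.inl (m.r^[l] y)) = Ev (m.vert y) (cnt q l) := by
    intro l hl
    show (if m.r.SameCycle y (m.r^[l] y) then Ev (m.vert y) (cnt q (pl (m.r^[l] y)))
      else Sum.inl (m.vert (m.r^[l] y))) = _
    rw [if_pos (hsc l), hpl l hl]
  have g_off : ∀ x, ¬ m.r.SameCycle y x → g (Sum.inl x) = Sum.inl (m.vert x) := by
    intro x hx
    show (if m.r.SameCycle y x then Ev (m.vert y) (cnt q (pl x)) else Sum.inl (m.vert x)) = _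
    rw [if_neg hx]
  have g0 : ∀ i, g (Sum.inr (i, 0)) = Sum.inl (m.vert (m.k y)) := fun i => rfl
  have g1 : ∀ i, g (Sum.inr (i, 1)) = Sum.inr i := fun i => rfl
  have g2 : ∀ i, g (Sum.inr (i, 2)) = Sum.inl (m.vert (m.k (m.r^[q i] y))) := fun i => rfl
  have g3 : ∀ i, g (Sum.inr (i, 3)) = Ev (m.vert y) i := fun i => rfl
  have gy : g (Sum.inl y) = Sum.inl (m.vert y) := by
    have h1 := g_at 0 hdpos
    rw [cnt_zero hmono hq0] at h1
    exact h1
  have ga : ∀ i : Fin 7, g (Sum.inl (m.r^[q i] y)) = Sum.inr i := by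
    intro i
    rw [g_at _ (hqd i), cnt_at hmono i]
    show Sum.inr (Fin.ofNat 7 (i : ℕ)) = _
    congr 1
    exact Fin.ext (Nat.mod_eq_of_lt i.2)
  have hky : ∀ l, ¬ m.r.SameCycle y (m.k (m.r^[l] y)) := fun l => hy _ (hsc l)
  have vert_r : ∀ x, m.vert (m.r x) = m.vert x := fun x =>
    Quotient.sound (s := Equiv.Perm.SameCycle.setoid m.r)
      ((Equiv.Perm.sameCycle_apply_left).2 (Equiv.Perm.SameCycle.refl m.r x))
  have g_f : ∀ l, g (Sum.inl (m.f (m.r^[l] y))) = Sum.inl (m.vert (m.k (m.r^[l] y))) := by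
    intro l
    show g (Sum.inl (m.r (m.k (m.r^[l] y)))) = _
    rw [g_off _ (fun h => hky l ((Equiv.Perm.sameCycle_apply_right).1 h)), vert_r]
  have hpred : ∀ n, 1 ≤ n → m.r (m.r^[n - 1] y) = m.r^[n] y := by
    intro n hn
    obtain ⟨l, rfl⟩ : ∃ l, n = l + 1 := ⟨n - 1, by omega⟩
    exact (Function.iterate_succ_apply' m.r l y).symm
  -- invariance
  have ginv : ∀ z, g ((fanMap m (fanA m y q)).r z) = g z := by
    rintro (x | ⟨i, j⟩)
    · by_cases h1 : ∃ μ, m.k x = fanA m y q μ
      · obtain ⟨μ, hμ⟩ := h1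
        have hx : x = m.k (fanA m y q μ) := by rw [← hμ, m.k_k]
        rw [hx]
        refine Fin.cases ?_ (fun i => ?_) μ
        · have h0 : ¬ m.r.SameCycle y (m.k y) := hky 0
          rw [rot_k0 ha, g0, ha0, g_off _ h0]
        · rw [rot_ki ha, g2, haS, g_off _ (hky (q i))]
      · push Not at h1
        by_cases h2 : ∃ μ, m.r x = fanA m y q μ
        · obtain ⟨μ, hμ⟩ := h2
          rw [rot_before ha x μ hμ]
          revert hμ
          refine Fin.cases (fun hμ => ?_) (fun i hμ => ?_) μ
          · rw [ha0] at hμ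
            have hx : x = m.r^[m.deg y - 1] y := by
              apply m.r.injective
              rw [hμ, hpred _ hdpos, hdd]
            rw [hx, g_at _ (by omega), cnt_last hmono (by have := hqd 6; omega)]
            show g (Sum.inr (6, 1)) = _
            rw [g1]
            rfl
          · rw [haS] at hμ
            have hqi : 1 ≤ q i := hq0.trans (hmono.monotone (Fin.zero_le i))
            have hx : x = m.r^[q i - 1] y := by
              apply m.r.injective
              rw [hμ, hpred _ hqi]
            rw [hx, g_at _ (by have := hqd i; omega), cnt_before hmono i hqi]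
            rfl
        · push Not at h2
          rw [rot_old ha x (fun μ => h1 μ) (fun μ => h2 μ)]
          by_cases h3 : m.r.SameCycle y x
          · obtain ⟨l, hl, rfl⟩ := hex x h3
            rw [g_at l hl]
            have h4 : m.r (m.r^[l] y) = m.r^[l + 1] y := (Function.iterate_succ_apply' m.r l y).symm
            have h5 : l + 1 < m.deg y := by
              refine lt_of_le_of_ne hl fun h5 => h2 0 ?_
              rw [h4, h5, hdd, ha0]
            rw [h4, g_at _ h5, cnt_succ]
            intro i hi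
            refine h2 i.succ ?_
            rw [h4, haS, hi]
          · rw [g_off x h3, g_off _ (fun h => h3 ((Equiv.Perm.sameCycle_apply_right).1 h)), vert_r]
    · fin_cases j
      · by_cases hi : i = 6
        · subst hi
          show g ((fanMap m (fanA m y q)).r (Sum.inr (6, 0))) = g (Sum.inr (6, 0))
          rw [rot_B6 ha, g0]
          exact g_f 0
        · show g ((fanMap m (fanA m y q)).r (Sum.inr (i, 0))) = g (Sum.inr (i, 0))
          rw [rot_B ha i hi, g0, g0]
      · show g ((fanMap m (fanA m y q)).r (Sum.inr (i, 1))) = g (Sum.inr (i, 1))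
        rw [rot_b ha i, g1, haS, ga]
      · show g ((fanMap m (fanA m y q)).r (Sum.inr (i, 2))) = g (Sum.inr (i, 2))
        rw [rot_B' ha i, g2, haS, g_f]
      · show g ((fanMap m (fanA m y q)).r (Sum.inr (i, 3))) = g (Sum.inr (i, 3))
        by_cases hi : i = 0
        · subst hi
          rw [rot_b'0 ha, g3, ha0, gy]
          rfl
        · rw [rot_b' ha i hi, g1, g3]
          exact Ev_pred _ i hi
  have ginv' : ∀ (n : ℤ) z, g (((fanMap m (fanA m y q)).r ^ n) z) = g z := by
    intro n
    induction n using Int.induction_on with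
    | zero => intro z; rfl
    | succ n ih =>
      intro z
      rw [zpow_add_one, Equiv.Perm.mul_apply, ih, ginv]
    | pred n ih =>
      intro z
      rw [zpow_sub_one, Equiv.Perm.mul_apply, ih, ← ginv]
      congr 1
      exact Equiv.apply_symm_apply _ z
  let G : (fan m y q).Vertex → m.Vertex ⊕ Fin 7 := Quotient.lift g (by
    rintro z w ⟨n, hn⟩
    rw [← hn]
    exact (ginv' n z).symm)
  have hG : ∀ z, G ((fan m y q).vert z) = g z := fun z => rfl
  have hsurj : Function.Surjective G := by
    rintro (v | i)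
    · obtain ⟨x, rfl⟩ := Quotient.exists_rep (s := Equiv.Perm.SameCycle.setoid m.r) v
      by_cases hx : m.r.SameCycle y x
      · refine ⟨(fan m y q).vert (Sum.inl y), ?_⟩
        rw [hG, gy]
        congr 1
        exact Quotient.sound (s := Equiv.Perm.SameCycle.setoid m.r) hx
      · refine ⟨(fan m y q).vert (Sum.inl x), ?_⟩
        rw [hG, g_off x hx]
        rfl
    · exact ⟨(fan m y q).vert (Sum.inr (i, 1)), by rw [hG, g1]⟩
  have hfin : Finite (fan m y q).Vertex :=
    inferInstanceAs (Finite (Quotient (Equiv.Perm.SameCycle.setoid (fan m y q).r)))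
  have hfin' : Finite m.Vertex :=
    inferInstanceAs (Finite (Quotient (Equiv.Perm.SameCycle.setoid m.r)))
  have hcard := Nat.card_le_card_of_surjective G hsurj
  rw [Nat.card_sum, Nat.card_fin] at hcard
  exact hcard

end UIPQ
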