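import Pool.Agent.Lib.UIPQ.BDefs

/-!
# Form: the energy form, existence and uniqueness of the potentials, the capacity

PROOF. `be` at x is a positive semidefinite symmetric bilinear form in (u,w) (lam ≥ 0): be lam u u x =
((u x - u (k x))² + lam u x² + lam u (k x)²)/2; Cauchy-Schwarz for it (`be_cs`): be u w x ² ≤ be u u x * be w w x (sum of
three products, or the discriminant). `be_k`: be is the same at x and at k x. `beta_self`: ∑_x be u u x = En u + lam ∑ u²
(Equiv.sum_comp for k). If lam > 0 and beta u u = 0 then u = 0.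
`pot_exists`: V = submodule of the r-invariant functions (finite dimensional). The linear map V → Dual V, u ↦ beta u ·, is
injective (beta u u = 0 → u = 0), hence surjective: there is G ∈ V with beta G w = w T for all w ∈ V. The constant 1 ∈ V has
1 = beta G 1, so G ≠ 0 and G T = beta G G > 0. u = G / G T: u T = 1 and beta u w = w T / G T: 0 if w T = 0.
`pot_unique`: difference w of two potentials: beta w w = 0.
`beta_pot`: w r-invariant, w T = 1: w = pot + (w - pot), so beta pot w = beta pot pot. And beta w w = beta pot pot +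
beta (w-pot) (w-pot) ≥ beta pot pot. So cap = beta pot pot (the set in the definition of cap has the minimum
beta pot pot: En w + lam ∑ w² = beta w w). `cap_le_card`: take w = 1: beta 1 1 = lam |X|.
`cap_pos`: beta pot pot ≥ lam (pot T)² > 0.
`be_relabel`, `pot_relabel`, `cap_relabel`: transport by e (uniqueness of the potential).
-/

namespace UIPQ

open Finset

variable {X : Type} [Fintype X]

theorem be_nonneg (m : CMap X) {lam : ℝ} (hl : 0 ≤ lam) (u : X → ℝ) (x : X) :
    0 ≤ m.be lam u u x := by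
  unfold CMap.be
  have h1 := mul_self_nonneg (u x - u (m.k x))
  have h2 := mul_nonneg hl (mul_self_nonneg (u x))
  have h3 := mul_nonneg hl (mul_self_nonneg (u (m.k x)))
  linarith

theorem be_k (m : CMap X) (lam : ℝ) (u w : X → ℝ) (x : X) :
    m.be lam u w (m.k x) = m.be lam u w x := by
  unfold CMap.be
  rw [m.k_k]
  ring

theorem be_cs (m : CMap X) {lam : ℝ} (hl : 0 ≤ lam) (u w : X → ℝ) (x : X) :
    (m.be lam u w x) ^ 2 ≤ m.be lam u u x * m.be lam w w x := by
  unfold CMap.be
  generalize u x = a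
  generalize u (m.k x) = b
  generalize w x = c
  generalize w (m.k x) = d
  have h1 := mul_nonneg hl (sq_nonneg ((a - b) * c - a * (c - d)))
  have h2 := mul_nonneg hl (sq_nonneg ((a - b) * d - b * (c - d)))
  have h3 := mul_nonneg (mul_nonneg hl hl) (sq_nonneg (a * d - b * c))
  have h4 : ((a - b) * (a - b) + lam * (a * a) + lam * (b * b)) / 2 * (((c - d) * (c - d) + lam * (c * c) + lam * (d * d)) / 2) -
      (((a - b) * (c - d) + lam * (a * c) + lam * (b * d)) / 2) ^ 2 =
      (lam * ((a - b) * c - a * (c - d)) ^ 2 + lam * ((a - b) * d - b * (c - d)) ^ 2 + lam * lam * (a * d - b * c) ^ 2) / 4 := by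
    ring
  linarith

theorem beta_self (m : CMap X) (lam : ℝ) (u : X → ℝ) :
    m.beta lam u u = m.En u + lam * ∑ x, u x ^ 2 := by
  unfold CMap.beta CMap.En CMap.be
  have h1 : ∑ x, u (m.k x) ^ 2 = ∑ x, u x ^ 2 := Equiv.sum_comp m.k (fun x => u x ^ 2)
  have h2 : ∀ x, ((u x - u (m.k x)) * (u x - u (m.k x)) + lam * (u x * u x) + lam * (u (m.k x) * u (m.k x))) / 2 =
      (u x - u (m.k x)) ^ 2 / 2 + (lam / 2 * u x ^ 2 + lam / 2 * u (m.k x) ^ 2) := by
    intro x
    ring
  rw [Finset.sum_congr rfl fun x _ => h2 x, Finset.sum_add_distrib, Finset.sum_add_distrib, ← Finset.mul_sum,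
    ← Finset.mul_sum, h1, ← Finset.sum_div]
  ring

theorem beta_comm (m : CMap X) (lam : ℝ) (u w : X → ℝ) : m.beta lam u w = m.beta lam w u := by
  unfold CMap.beta CMap.be
  refine Finset.sum_congr rfl fun x _ => ?_
  ring

private theorem beta_add (m : CMap X) (lam : ℝ) (u u' w : X → ℝ) :
    m.beta lam (u + u') w = m.beta lam u w + m.beta lam u' w := by
  unfold CMap.beta CMap.be
  rw [← Finset.sum_add_distrib]
  refine Finset.sum_congr rfl fun x _ => ?_
  simp only [Pi.add_apply]
  ring

private theorem beta_smul (m : CMap X) (lam c : ℝ) (u w : X → ℝ) :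
    m.beta lam (c • u) w = c • m.beta lam u w := by
  unfold CMap.beta CMap.be
  rw [Finset.smul_sum]
  refine Finset.sum_congr rfl fun x _ => ?_
  simp only [Pi.smul_apply, smul_eq_mul]
  ring

private theorem beta_zero (m : CMap X) (lam : ℝ) (w : X → ℝ) : m.beta lam 0 w = 0 := by
  unfold CMap.beta CMap.be
  refine Finset.sum_eq_zero fun x _ => ?_
  simp

private theorem beta_sub (m : CMap X) (lam : ℝ) (u u' w : X → ℝ) :
    m.beta lam (u - u') w = m.beta lam u w - m.beta lam u' w := by
  unfold CMap.beta CMap.be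
  rw [← Finset.sum_sub_distrib]
  refine Finset.sum_congr rfl fun x _ => ?_
  simp only [Pi.sub_apply]
  ring

private theorem beta_sub_right (m : CMap X) (lam : ℝ) (u w w' : X → ℝ) :
    m.beta lam u (w - w') = m.beta lam u w - m.beta lam u w' := by
  rw [beta_comm, beta_sub, beta_comm m lam w, beta_comm m lam w']

private theorem beta_nonneg (m : CMap X) {lam : ℝ} (hl : 0 ≤ lam) (u : X → ℝ) : 0 ≤ m.beta lam u u :=
  Finset.sum_nonneg fun x _ => be_nonneg m hl u x

private theorem lam_sq_le (m : CMap X) {lam : ℝ} (hl : 0 ≤ lam) (u : X → ℝ) (x : X) :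
    lam * u x ^ 2 ≤ m.beta lam u u := by
  rw [beta_self]
  have h1 : 0 ≤ m.En u := by
    unfold CMap.En
    have h1 : 0 ≤ ∑ x : X, (u x - u (m.k x)) ^ 2 := Finset.sum_nonneg fun x _ => sq_nonneg _
    linarith
  have h2 : u x ^ 2 ≤ ∑ y : X, u y ^ 2 :=
    Finset.single_le_sum (f := fun y => u y ^ 2) (fun y _ => sq_nonneg _) (Finset.mem_univ x)
  have h3 := mul_le_mul_of_nonneg_left h2 hl
  linarith

private theorem beta_eq_zero (m : CMap X) {lam : ℝ} (hl : 0 < lam) (u : X → ℝ) (h : m.beta lam u u = 0) : u = 0 := by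
  funext x
  have h1 := lam_sq_le m hl.le u x
  rw [h] at h1
  have h2 : u x ^ 2 ≤ 0 := by
    by_contra h3
    push Not at h3
    have h4 := mul_pos hl h3
    linarith
  have h3 : u x ^ 2 = 0 := le_antisymm h2 (sq_nonneg _)
  exact pow_eq_zero_iff (two_ne_zero) |>.1 h3

private theorem rinv_sub {m : CMap X} {u v : X → ℝ} (hu : m.RInv u) (hv : m.RInv v) : m.RInv (u - v) := by
  intro x
  show u (m.r x) - v (m.r x) = u x - v x
  rw [hu x, hv x]

theorem pot_exists (m : CMap X) {lam : ℝ} (hl : 0 < lam) (T : X) : ∃ u, m.IsPot lam T u := by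
  let V : Submodule ℝ (X → ℝ) :=
    { carrier := {u | m.RInv u}
      add_mem' := by
        intro a b ha hb x
        show a (m.r x) + b (m.r x) = a x + b x
        rw [ha x, hb x]
      zero_mem' := fun x => rfl
      smul_mem' := by
        intro c a ha x
        show c * a (m.r x) = c * a x
        rw [ha x] }
  let φ : V →ₗ[ℝ] Module.Dual ℝ V := LinearMap.mk₂ ℝ (fun u w => m.beta lam (u : X → ℝ) (w : X → ℝ))
    (fun u u' w => beta_add m lam _ _ _)
    (fun c u w => beta_smul m lam c _ _)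
    (fun u w w' => by
      show m.beta lam (u : X → ℝ) ((w : X → ℝ) + (w' : X → ℝ)) = _
      rw [beta_comm, beta_add, beta_comm m lam (w : X → ℝ), beta_comm m lam (w' : X → ℝ)])
    (fun c u w => by
      show m.beta lam (u : X → ℝ) (c • (w : X → ℝ)) = _
      rw [beta_comm, beta_smul, beta_comm m lam (w : X → ℝ)])
  have hφ : ∀ u w : V, φ u w = m.beta lam (u : X → ℝ) (w : X → ℝ) := fun u w => rfl
  have hinj : Function.Injective φ := by
    rw [← LinearMap.ker_eq_bot, LinearMap.ker_eq_bot']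
    intro u hu
    have h1 : φ u u = 0 := by rw [hu]; rfl
    rw [hφ] at h1
    exact Subtype.ext (beta_eq_zero m hl _ h1)
  have hsurj : Function.Surjective φ :=
    (LinearMap.injective_iff_surjective_of_finrank_eq_finrank (by rw [Subspace.dual_finrank_eq])).1 hinj
  let ev : Module.Dual ℝ V := (LinearMap.proj T).comp V.subtype
  obtain ⟨G, hG⟩ := hsurj ev
  have hG' : ∀ w : X → ℝ, m.RInv w → m.beta lam (G : X → ℝ) w = w T := by
    intro w hw
    have h1 := congrArg (fun L : Module.Dual ℝ V => L ⟨w, hw⟩) hG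
    exact h1
  have hG0 : (G : X → ℝ) T ≠ 0 := by
    intro h0
    have h1 := hG' (G : X → ℝ) G.2
    rw [h0] at h1
    have h2 := beta_eq_zero m hl _ h1
    have h3 := hG' (fun _ => 1) (fun x => rfl)
    rw [h2, beta_zero] at h3
    exact zero_ne_one h3
  refine ⟨((G : X → ℝ) T)⁻¹ • (G : X → ℝ), (V.smul_mem _ G.2), ?_, ?_⟩
  · show ((G : X → ℝ) T)⁻¹ * (G : X → ℝ) T = 1
    exact inv_mul_cancel₀ hG0
  · intro w hw h0
    rw [beta_smul, hG' w hw, h0, smul_eq_mul, mul_zero]

theorem pot_unique (m : CMap X) {lam : ℝ} (hl : 0 < lam) (T : X) (u v : X → ℝ)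
    (hu : m.IsPot lam T u) (hv : m.IsPot lam T v) : u = v := by
  have h0 : (u - v) T = 0 := by
    show u T - v T = 0
    rw [hu.one, hv.one, sub_self]
  have h1 := hu.orth (u - v) (rinv_sub hu.inv hv.inv) h0
  have h2 := hv.orth (u - v) (rinv_sub hu.inv hv.inv) h0
  have h3 : m.beta lam (u - v) (u - v) = 0 := by
    rw [beta_sub, h1, h2, sub_zero]
  exact sub_eq_zero.1 (beta_eq_zero m hl _ h3)

theorem pot_spec (m : CMap X) {lam : ℝ} (hl : 0 < lam) (T : X) : m.IsPot lam T (m.pot lam T) := by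
  unfold CMap.pot
  rw [dif_pos (pot_exists m hl T)]
  exact (pot_exists m hl T).choose_spec

private theorem pot_orth (m : CMap X) {lam : ℝ} (hl : 0 < lam) (T : X) (w : X → ℝ) (hw : m.RInv w)
    (h1 : w T = 1) : m.beta lam (m.pot lam T) (w - m.pot lam T) = 0 :=
  (pot_spec m hl T).orth _ (rinv_sub hw (pot_spec m hl T).inv) (by
    show w T - m.pot lam T T = 0
    rw [h1, (pot_spec m hl T).one, sub_self])

private theorem beta_pot_le (m : CMap X) {lam : ℝ} (hl : 0 < lam) (T : X) (w : X → ℝ) (hw : m.RInv w)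
    (h1 : w T = 1) : m.beta lam (m.pot lam T) (m.pot lam T) ≤ m.beta lam w w := by
  have h2 := pot_orth m hl T w hw h1
  have h3 := beta_nonneg m hl.le (w - m.pot lam T)
  rw [beta_sub_right] at h2
  rw [beta_sub, beta_sub_right, beta_sub_right, beta_comm m lam w (m.pot lam T)] at h3
  linarith

theorem cap_eq (m : CMap X) {lam : ℝ} (hl : 0 < lam) (T : X) :
    m.cap lam T = m.beta lam (m.pot lam T) (m.pot lam T) := by
  refine IsLeast.csInf_eq ⟨⟨m.pot lam T, (pot_spec m hl T).inv, (pot_spec m hl T).one, beta_self m lam _⟩, ?_⟩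
  rintro e ⟨w, hw, h1, rfl⟩
  rw [← beta_self]
  exact beta_pot_le m hl T w hw h1

theorem beta_pot (m : CMap X) {lam : ℝ} (hl : 0 < lam) (T : X) (w : X → ℝ) (hw : m.RInv w)
    (h1 : w T = 1) : m.beta lam (m.pot lam T) w = m.cap lam T := by
  have h2 := pot_orth m hl T w hw h1
  rw [beta_sub_right] at h2
  rw [cap_eq m hl]
  linarith

theorem cap_le (m : CMap X) {lam : ℝ} (hl : 0 < lam) (T : X) (w : X → ℝ) (hw : m.RInv w)
    (h1 : w T = 1) : m.cap lam T ≤ m.beta lam w w := by
  rw [cap_eq m hl]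
  exact beta_pot_le m hl T w hw h1

theorem cap_pos (m : CMap X) {lam : ℝ} (hl : 0 < lam) (T : X) : 0 < m.cap lam T := by
  rw [cap_eq m hl]
  have h1 := lam_sq_le m hl.le (m.pot lam T) T
  rw [(pot_spec m hl T).one, one_pow, mul_one] at h1
  linarith

theorem cap_le_card (m : CMap X) {lam : ℝ} (hl : 0 < lam) (T : X) :
    m.cap lam T ≤ lam * Fintype.card X := by
  have h1 := cap_le m hl T (fun _ => 1) (fun x => rfl) rfl
  have h2 : m.beta lam (fun _ => 1) (fun _ => 1) = lam * Fintype.card X := by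
    unfold CMap.beta CMap.be
    rw [Finset.sum_const, Finset.card_univ, nsmul_eq_mul]
    ring
  rw [h2] at h1
  exact h1

end UIPQ
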