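import Pool.Agent.Lib.UIPQ.B.Form
import Pool.Agent.Lib.UIPQ.B.FormH

/-!
# Inv: invariance under renaming the darts

PROOF. (m.relabel e).r (e x) = e (m.r x), same for k and f. So SameCycle, minimalPeriod, the orbits, energies etc. are
transported by e; sums by Equiv.sum_comp. IsQuad: the quotients Vertex and Face are in bijection (Nat.card_congr), Connected
is transported. pot: uniqueness (`pot_unique`): pot lam (e T) ∘ e is the potential of T.
`relabel_refl`/`relabel_trans`: e ∘ ... .
-/

namespace UIPQ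

open Finset

variable {X X' : Type}

theorem relabel_r (m : CMap X) (e : X ≃ X') (x : X) : (m.relabel e).r (e x) = e (m.r x) := by
  simp [CMap.relabel]

theorem relabel_k (m : CMap X) (e : X ≃ X') (x : X) : (m.relabel e).k (e x) = e (m.k x) := by
  simp [CMap.relabel]

theorem relabel_f (m : CMap X) (e : X ≃ X') (x : X) : (m.relabel e).f (e x) = e (m.f x) := by
  rw [CMap.f_apply, relabel_k, relabel_r, CMap.f_apply]

theorem relabel_trans {X'' : Type} (m : CMap X) (e : X ≃ X') (e' : X' ≃ X'') :
    (m.relabel e).relabel e' = m.relabel (e.trans e') := by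
  rfl

theorem relabel_refl (m : CMap X) : m.relabel (Equiv.refl X) = m := by
  rfl

private theorem inv_iter (e : X ≃ X') {σ : Equiv.Perm X} {σ' : Equiv.Perm X'} (h : ∀ x, σ' (e x) = e (σ x)) (n : ℕ)
    (x : X) : σ'^[n] (e x) = e (σ^[n] x) := by
  have h1 : Function.Semiconj e σ σ' := fun x => (h x).symm
  exact ((h1.iterate_right n) x).symm

private theorem inv_period (e : X ≃ X') {σ : Equiv.Perm X} {σ' : Equiv.Perm X'} (h : ∀ x, σ' (e x) = e (σ x))
    (x : X) : Function.minimalPeriod σ' (e x) = Function.minimalPeriod σ x := by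
  rw [Function.minimalPeriod_eq_minimalPeriod_iff]
  intro n
  unfold Function.IsPeriodicPt Function.IsFixedPt
  rw [inv_iter e h]
  exact e.injective.eq_iff

private theorem inv_same (e : X ≃ X') {σ : Equiv.Perm X} {σ' : Equiv.Perm X'} (h : ∀ x, σ' (e x) = e (σ x))
    (x y : X) : σ'.SameCycle (e x) (e y) ↔ σ.SameCycle x y := by
  have h1 : σ' = e.permCongrHom σ := by
    ext z
    show σ' z = e (σ (e.symm z))
    rw [← h, Equiv.apply_symm_apply]
  have h2 : ∀ i : ℤ, (σ' ^ i) (e x) = e ((σ ^ i) x) := by
    intro i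
    rw [h1, ← map_zpow]
    show e ((σ ^ i) (e.symm (e x))) = _
    rw [Equiv.symm_apply_apply]
  constructor
  · rintro ⟨i, hi⟩
    exact ⟨i, e.injective (by rw [← h2, hi])⟩
  · rintro ⟨i, hi⟩
    exact ⟨i, by rw [h2, hi]⟩

theorem isQuad_relabel (m : CMap X) (e : X ≃ X') (h : m.IsQuad) : (m.relabel e).IsQuad := by
  have hr : ∀ x, (m.relabel e).r (e x) = e (m.r x) := relabel_r m e
  have hf : ∀ x, (m.relabel e).f (e x) = e (m.f x) := relabel_f m e
  refine ⟨?_, ?_, ?_⟩
  · intro x y
    have h1 := h.conn (e.symm x) (e.symm y)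
    have h2 : ∀ a b : X, Relation.EqvGen (fun a b => b = m.r a ∨ b = m.k a) a b →
        Relation.EqvGen (fun a b => b = (m.relabel e).r a ∨ b = (m.relabel e).k a) (e a) (e b) := by
      intro a b hab
      induction hab with
      | rel a b hab =>
        apply Relation.EqvGen.rel
        rcases hab with hab | hab
        · exact Or.inl (by rw [hab, relabel_r])
        · exact Or.inr (by rw [hab, relabel_k])
      | refl a => exact Relation.EqvGen.refl _
      | symm a b _ ih => exact Relation.EqvGen.symm _ _ ih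
      | trans a b c _ _ ih1 ih2 => exact Relation.EqvGen.trans _ _ _ ih1 ih2
    have h3 := h2 _ _ h1
    rw [Equiv.apply_symm_apply, Equiv.apply_symm_apply] at h3
    exact h3
  · intro x
    have h1 := h.face4 (e.symm x)
    rw [← inv_period e hf (e.symm x), Equiv.apply_symm_apply] at h1
    exact h1
  · have h1 : Nat.card (m.relabel e).Vertex = Nat.card m.Vertex :=
      Nat.card_congr (Quotient.congr (ra := Equiv.Perm.SameCycle.setoid m.r)
        (rb := Equiv.Perm.SameCycle.setoid (m.relabel e).r) e (fun a b => (inv_same e hr a b).symm)).symm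
    have h2 : Nat.card (m.relabel e).Face = Nat.card m.Face :=
      Nat.card_congr (Quotient.congr (ra := Equiv.Perm.SameCycle.setoid m.f)
        (rb := Equiv.Perm.SameCycle.setoid (m.relabel e).f) e (fun a b => (inv_same e hf a b).symm)).symm
    rw [h1, h2, ← Nat.card_congr e]
    exact h.euler

theorem deg_relabel (m : CMap X) (e : X ≃ X') (x : X) : (m.relabel e).deg (e x) = m.deg x := by
  exact inv_period e (relabel_r m e) x

theorem sameCycle_relabel (m : CMap X) (e : X ≃ X') (x y : X) :
    (m.relabel e).r.SameCycle (e x) (e y) ↔ m.r.SameCycle x y := by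
  exact inv_same e (relabel_r m e) x y

theorem foot_relabel (m : CMap X) (e : X ≃ X') (B : X) (i : Fin 8) :
    (m.relabel e).foot (e B) i = e (m.foot B i) := by
  unfold CMap.foot
  rw [inv_iter e (relabel_r m e), relabel_k, relabel_f, relabel_f, relabel_k]
  split_ifs <;> rfl

variable [Fintype X] [Fintype X']

private theorem inv_rinv (m : CMap X) (e : X ≃ X') (u : X' → ℝ) :
    (m.relabel e).RInv u ↔ m.RInv (fun x => u (e x)) := by
  constructor
  · intro h x
    show u (e (m.r x)) = u (e x)
    rw [← relabel_r]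
    exact h (e x)
  · intro h y
    have h1 : u (e (m.r (e.symm y))) = u (e (e.symm y)) := h (e.symm y)
    rw [← relabel_r, Equiv.apply_symm_apply] at h1
    exact h1

private theorem inv_En (m : CMap X) (e : X ≃ X') (u : X' → ℝ) :
    (m.relabel e).En u = m.En (fun x => u (e x)) := by
  unfold CMap.En
  rw [← Equiv.sum_comp e]
  simp only [relabel_k]

private theorem inv_EH (m : CMap X) (e : X ≃ X') (u : X' → ℝ) :
    (m.relabel e).EH u = m.EH (fun x => u (e x)) := by
  unfold CMap.EH
  rw [← Equiv.sum_comp e, ← Equiv.sum_comp e (fun y => (u y - u ((m.relabel e).r y)) ^ 2)]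
  simp only [relabel_k, relabel_r]

private theorem inv_be (m : CMap X) (e : X ≃ X') (lam : ℝ) (u w : X' → ℝ) (x : X) :
    (m.relabel e).be lam u w (e x) = m.be lam (fun x => u (e x)) (fun x => w (e x)) x := by
  unfold CMap.be
  rw [relabel_k]

private theorem inv_beta (m : CMap X) (e : X ≃ X') (lam : ℝ) (u w : X' → ℝ) :
    (m.relabel e).beta lam u w = m.beta lam (fun x => u (e x)) (fun x => w (e x)) := by
  unfold CMap.beta
  rw [← Equiv.sum_comp e]
  exact Finset.sum_congr rfl fun x _ => inv_be m e lam u w x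

private theorem inv_pot (m : CMap X) (e : X ≃ X') {lam : ℝ} (hl : 0 < lam) (T : X) :
    (fun x => (m.relabel e).pot lam (e T) (e x)) = m.pot lam T := by
  have h1 := pot_spec (m.relabel e) hl (e T)
  refine pot_unique m hl T _ _ ⟨(inv_rinv m e _).1 h1.inv, h1.one, fun w hw h0 => ?_⟩ (pot_spec m hl T)
  have h2 := h1.orth (fun y => w (e.symm y)) ((inv_rinv m e _).2 (by
    simpa only [Equiv.symm_apply_apply] using hw)) (by simpa only [Equiv.symm_apply_apply] using h0)
  rw [inv_beta] at h2
  simpa only [Equiv.symm_apply_apply] using h2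

theorem cap_relabel (m : CMap X) (e : X ≃ X') (lam : ℝ) (x : X) :
    (m.relabel e).cap lam (e x) = m.cap lam x := by
  unfold CMap.cap
  congr 1
  ext c
  constructor
  · rintro ⟨u, hu, h1, rfl⟩
    refine ⟨fun x => u (e x), (inv_rinv m e u).1 hu, h1, ?_⟩
    rw [inv_En, Equiv.sum_comp e (fun y => u y ^ 2)]
  · rintro ⟨u, hu, h1, rfl⟩
    refine ⟨fun y => u (e.symm y), (inv_rinv m e _).2 ?_, ?_, ?_⟩
    · simpa only [Equiv.symm_apply_apply] using hu
    · simpa only [Equiv.symm_apply_apply] using h1
    · rw [inv_En, Equiv.sum_comp e.symm (fun x => u x ^ 2)]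
      simp only [Equiv.symm_apply_apply]

theorem capH_relabel (m : CMap X) (e : X ≃ X') (lam : ℝ) (x : X) :
    (m.relabel e).capH lam (e x) = m.capH lam x := by
  unfold CMap.capH
  congr 1
  ext c
  constructor
  · rintro ⟨u, h1, rfl⟩
    refine ⟨fun x => u (e x), h1, ?_⟩
    rw [inv_EH, Equiv.sum_comp e (fun y => u y ^ 2)]
  · rintro ⟨u, h1, rfl⟩
    refine ⟨fun y => u (e.symm y), ?_, ?_⟩
    · simpa only [Equiv.symm_apply_apply] using h1
    · rw [inv_EH, Equiv.sum_comp e.symm (fun x => u x ^ 2)]
      simp only [Equiv.symm_apply_apply]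

theorem pi_relabel (m : CMap X) (e : X ≃ X') {lam : ℝ} (hl : 0 < lam) (κ : ℝ) (x : X) :
    (m.relabel e).pi lam κ (e x) = m.pi lam κ x := by
  unfold CMap.pi
  rw [← Equiv.sum_comp e]
  refine Finset.sum_congr rfl fun T _ => ?_
  rw [inv_be, inv_pot m e hl T]
  unfold CMap.W
  rw [capH_relabel]

theorem star_relabel (m : CMap X) (e : X ≃ X') {lam : ℝ} (hl : 0 < lam) (κ : ℝ) (x : X) :
    (m.relabel e).star lam κ (e x) = m.star lam κ x := by
  classical
  unfold CMap.star
  rw [Finset.sum_filter, Finset.sum_filter, ← Equiv.sum_comp e]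
  refine Finset.sum_congr rfl fun y _ => ?_
  rw [pi_relabel m e hl]
  simp only [sameCycle_relabel]

end UIPQ
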