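import Mathlib

/-!
# Seq: closing the inequality (real sequences)

PROOF. Let τ = 2 · 9^4 = 13122, w n = τ^(-n). C' := 12 (49 + C τ^7) + 1. Suppose that for all
n ≥ N with 0 < Z n one has Φ n > C' κ Z n. For n with Z n = 0, Φ n = 0 (h5). So Φ n ≥ C' κ Z n for
all n ≥ N, and Φ n > 0 for one n ≥ N. All the series over n ≥ N of w Φ, w Z, w D converge:
Z n ≤ (4n+4) 9^(4n+4), Φ n ≤ (4n+4) Z n, D n ≤ 49 Φ n + C Φ (n+7), and w n 9^(4n) = 2^(-n).
T := ∑_{n≥N} w n Φ n > 0.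
∑_{n≥N} w n D n ≤ 49 T + C τ^7 ∑ w (n+7) Φ (n+7) ≤ (49 + C τ^7) T =: q T.
Termwise w Φ ≤ (12 κ q w Z + w D / q) / 2 (arithmetic-geometric mean), so
T ≤ (12 q / C' + 1) T / 2 < T: contradiction.
-/

namespace UIPQ

private theorem seq_amgm (x u v : ℝ) (hu : 0 ≤ u) (hv : 0 ≤ v) (h : x ^ 2 ≤ u * v) :
    x ≤ (u + v) / 2 := by
  have h1 : x ^ 2 ≤ ((u + v) / 2) ^ 2 := by nlinarith [sq_nonneg (u - v)]
  exact (le_abs_self x).trans (abs_le_of_sq_le_sq h1 (by positivity))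

private theorem seq_sum : Summable fun n : ℕ => ((n : ℝ) + 1) ^ 2 * (1 / 2 : ℝ) ^ n := by
  have h := summable_pow_mul_geometric_of_norm_lt_one 2 (r := (1 / 2 : ℝ))
    (by rw [Real.norm_eq_abs, abs_of_pos (by norm_num)]; norm_num)
  have h2 := ((summable_nat_add_iff 1).2 h).mul_left 2
  refine h2.congr fun n => ?_
  push_cast
  rw [pow_succ (1 / 2 : ℝ) n]
  ring

/-- The contradiction for the sequences shifted by `N`. -/
private theorem seq_core (C κ K : ℝ) (hC : 0 ≤ C) (hκ : 0 < κ) (Φ D Z : ℕ → ℝ)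
    (h1 : ∀ n, 0 ≤ Φ n) (h2 : ∀ n, 0 ≤ D n) (h3 : ∀ n, 0 ≤ Z n)
    (h4 : ∀ n, D n ≤ 49 * Φ n + C * Φ (n + 7)) (h5 : ∀ n, Φ n ^ 2 ≤ 12 * κ * Z n * D n)
    (h6 : ∀ n, Φ n ≤ K * (n + 1) ^ 2 * (9 ^ 4) ^ n)
    (h7 : ∀ n, (12 * (49 + C * 13122 ^ 7) + 1) * κ * Z n ≤ Φ n) (m : ℕ) (hm : 0 < Φ m) :
    False := by
  set q : ℝ := 49 + C * 13122 ^ 7 with hq
  have hq0 : 0 < q := by positivity
  set w : ℕ → ℝ := fun n => (1 / 13122 : ℝ) ^ n with hw
  have hw0 : ∀ n, 0 < w n := fun n => by positivity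
  have hw7 : ∀ n, w n = 13122 ^ 7 * w (n + 7) := by
    intro n
    simp only [hw]
    rw [pow_add, mul_comm, mul_assoc, ← mul_pow]
    norm_num
  have sa : Summable fun n => w n * Φ n := by
    refine Summable.of_nonneg_of_le (fun n => mul_nonneg (hw0 n).le (h1 n)) (fun n => ?_)
      (seq_sum.mul_left K)
    have e : w n * (9 ^ 4) ^ n = (1 / 2 : ℝ) ^ n := by
      simp only [hw]
      rw [← mul_pow]
      norm_num
    calc w n * Φ n ≤ w n * (K * (n + 1) ^ 2 * (9 ^ 4) ^ n) :=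
          mul_le_mul_of_nonneg_left (h6 n) (hw0 n).le
      _ = K * (((n : ℝ) + 1) ^ 2 * (w n * (9 ^ 4) ^ n)) := by ring
      _ = K * (((n : ℝ) + 1) ^ 2 * (1 / 2 : ℝ) ^ n) := by rw [e]
  have hC' : 0 < (12 * q + 1) * κ := by positivity
  have sz : Summable fun n => w n * Z n := by
    refine Summable.of_nonneg_of_le (fun n => mul_nonneg (hw0 n).le (h3 n)) (fun n => ?_)
      (sa.mul_left (1 / ((12 * q + 1) * κ)))
    have := h7 n
    rw [div_mul_eq_mul_div, one_mul, le_div_iff₀ hC']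
    nlinarith [hw0 n]
  have sa7 : Summable fun n => w (n + 7) * Φ (n + 7) :=
    (summable_nat_add_iff (f := fun n => w n * Φ n) 7).2 sa
  have hdle : ∀ n, w n * D n ≤ 49 * (w n * Φ n) + C * 13122 ^ 7 * (w (n + 7) * Φ (n + 7)) := by
    intro n
    have e1 := mul_le_mul_of_nonneg_left (h4 n) (hw0 n).le
    calc w n * D n ≤ w n * (49 * Φ n + C * Φ (n + 7)) := e1
      _ = 49 * (w n * Φ n) + C * (w n * Φ (n + 7)) := by ring
      _ = _ := by rw [hw7 n]; ring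
  have sr : Summable fun n => 49 * (w n * Φ n) + C * 13122 ^ 7 * (w (n + 7) * Φ (n + 7)) :=
    (sa.mul_left 49).add (sa7.mul_left _)
  have sd : Summable fun n => w n * D n :=
    Summable.of_nonneg_of_le (fun n => mul_nonneg (hw0 n).le (h2 n)) hdle sr
  set T : ℝ := ∑' n, w n * Φ n with hT
  have hTpos : 0 < T :=
    sa.tsum_pos (fun n => mul_nonneg (hw0 n).le (h1 n)) m (mul_pos (hw0 m) hm)
  have hT7 : ∑' n, w (n + 7) * Φ (n + 7) ≤ T := by
    have e := sa.sum_add_tsum_nat_add 7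
    have e2 : 0 ≤ ∑ i ∈ Finset.range 7, w i * Φ i :=
      Finset.sum_nonneg fun i _ => mul_nonneg (hw0 i).le (h1 i)
    linarith
  have hD : ∑' n, w n * D n ≤ q * T := by
    calc ∑' n, w n * D n
        ≤ ∑' n, (49 * (w n * Φ n) + C * 13122 ^ 7 * (w (n + 7) * Φ (n + 7))) :=
          sd.tsum_le_tsum hdle sr
      _ = 49 * T + C * 13122 ^ 7 * ∑' n, w (n + 7) * Φ (n + 7) := by
          rw [(sa.mul_left 49).tsum_add (sa7.mul_left _), tsum_mul_left, tsum_mul_left]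
      _ ≤ 49 * T + C * 13122 ^ 7 * T := by
          have : 0 ≤ C * 13122 ^ 7 := by positivity
          nlinarith
      _ = q * T := by rw [hq]; ring
  have hZ : (12 * q + 1) * κ * ∑' n, w n * Z n ≤ T := by
    rw [← tsum_mul_left]
    refine (sz.mul_left _).tsum_le_tsum (fun n => ?_) sa
    have e1 := mul_le_mul_of_nonneg_left (h7 n) (hw0 n).le
    calc (12 * q + 1) * κ * (w n * Z n) = w n * ((12 * q + 1) * κ * Z n) := by ring
      _ ≤ w n * Φ n := e1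
  have hterm : ∀ n, w n * Φ n ≤ 6 * κ * q * (w n * Z n) + 1 / (2 * q) * (w n * D n) := by
    intro n
    have e := seq_amgm (w n * Φ n) (12 * κ * q * (w n * Z n)) (1 / q * (w n * D n))
      (mul_nonneg (by positivity) (mul_nonneg (hw0 n).le (h3 n)))
      (mul_nonneg (by positivity) (mul_nonneg (hw0 n).le (h2 n))) (by
        have e1 := mul_le_mul_of_nonneg_left (h5 n) (sq_nonneg (w n))
        calc (w n * Φ n) ^ 2 = w n ^ 2 * Φ n ^ 2 := by ring
          _ ≤ w n ^ 2 * (12 * κ * Z n * D n) := e1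
          _ = 12 * κ * q * (w n * Z n) * (1 / q * (w n * D n)) := by
              field_simp)
    calc w n * Φ n ≤ (12 * κ * q * (w n * Z n) + 1 / q * (w n * D n)) / 2 := e
      _ = _ := by
          field_simp
          ring
  have hfin : T ≤ 6 * κ * q * (∑' n, w n * Z n) + 1 / (2 * q) * (∑' n, w n * D n) := by
    rw [← tsum_mul_left, ← tsum_mul_left, ← (sz.mul_left _).tsum_add (sd.mul_left _)]
    exact sa.tsum_le_tsum hterm ((sz.mul_left _).add (sd.mul_left _))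
  have hD2 : 1 / (2 * q) * (∑' n, w n * D n) ≤ T / 2 := by
    rw [div_mul_eq_mul_div, one_mul, div_le_div_iff₀ (by positivity) (by norm_num)]
    nlinarith
  have hZ0 : 0 ≤ ∑' n, w n * Z n := tsum_nonneg fun n => mul_nonneg (hw0 n).le (h3 n)
  have hZ2 : 6 * κ * q * (∑' n, w n * Z n) < T / 2 := by
    rcases hZ0.eq_or_lt with h0 | h0
    · rw [← h0]
      simp only [mul_zero]
      positivity
    · have : 0 < κ * ∑' n, w n * Z n := mul_pos hκ h0
      nlinarith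
  linarith

theorem seq_close (C : ℝ) (hC : 0 ≤ C) : ∃ C' : ℝ, 0 < C' ∧ ∀ κ : ℝ, 0 < κ → ∀ Φ D Z : ℕ → ℝ,
    (∀ n, 0 ≤ Φ n) → (∀ n, 0 ≤ D n) → (∀ n, 0 ≤ Z n) → (∀ n, D n ≤ 49 * Φ n + C * Φ (n + 7)) →
    (∀ n, Φ n ^ 2 ≤ 12 * κ * Z n * D n) → (∀ n, Z n ≤ (4 * n + 4) * 9 ^ (4 * n + 4)) →
    (∀ n, Φ n ≤ (4 * n + 4) * Z n) → ∀ N : ℕ, (∃ n ≥ N, 0 < Z n) →
      ∃ n ≥ N, 0 < Z n ∧ Φ n ≤ C' * κ * Z n := by
  refine ⟨12 * (49 + C * 13122 ^ 7) + 1, by positivity, ?_⟩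
  intro κ hκ Φ D Z h1 h2 h3 h4 h5 h6 h7 N hN
  by_contra hcon
  push Not at hcon
  obtain ⟨n₀, hn₀, hz₀⟩ := hN
  have hC' : 0 < (12 * (49 + C * 13122 ^ 7) + 1) * κ := by positivity
  refine seq_core C κ ((4 * N + 4) * ((4 * N + 4) * 9 ^ (4 * N + 4))) hC hκ (fun n => Φ (N + n))
    (fun n => D (N + n)) (fun n => Z (N + n)) (fun n => h1 _) (fun n => h2 _) (fun n => h3 _)
    (fun n => ?_) (fun n => h5 _) (fun n => ?_) (fun n => ?_) (n₀ - N) ?_
  · exact h4 (N + n)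
  · have e1 := h7 (N + n)
    have e2 := h6 (N + n)
    have e3 : (4 * ((N + n : ℕ) : ℝ) + 4) ≤ (4 * N + 4) * (n + 1) := by
      push_cast
      have : (0 : ℝ) ≤ N * n := by positivity
      nlinarith
    have e4 : (0 : ℝ) ≤ 4 * ((N + n : ℕ) : ℝ) + 4 := by positivity
    have e5 : (9 : ℝ) ^ (4 * (N + n) + 4) = 9 ^ (4 * N + 4) * (9 ^ 4) ^ n := by
      rw [← pow_mul, ← pow_add]
      congr 1
      ring
    calc Φ (N + n) ≤ (4 * ((N + n : ℕ) : ℝ) + 4) * Z (N + n) := e1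
      _ ≤ (4 * ((N + n : ℕ) : ℝ) + 4) *
          ((4 * ((N + n : ℕ) : ℝ) + 4) * 9 ^ (4 * (N + n) + 4)) :=
          mul_le_mul_of_nonneg_left e2 e4
      _ ≤ ((4 * N + 4) * (n + 1)) * (((4 * N + 4) * (n + 1)) * 9 ^ (4 * (N + n) + 4)) := by
          gcongr
      _ = _ := by
          rw [e5]
          ring
  · rcases (h3 (N + n)).eq_or_lt with h0 | h0
    · simp only [← h0, mul_zero]
      exact h1 _
    · exact (hcon (N + n) (by omega) h0).le
  · have e : N + (n₀ - N) = n₀ := by omega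
    simp only [e]
    exact (mul_pos hC' hz₀).trans (hcon n₀ hn₀ hz₀)

end UIPQ
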