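import Pool.Agent.Lib.UIPQ.A.CapH
import Pool.Agent.Lib.UIPQ.B.Decay
import Pool.Agent.Lib.UIPQ.B.Comp
import Pool.Agent.Lib.UIPQ.B.Seq
import Pool.Agent.Lib.UIPQ.B.ExpCount

/-!
# B/Main: the capacity of the root of a uniform quadrangulation (part B of the proof)

PROOF. `C'` from `seq_close` with C = 49920 · 14^7. ε > 0 given (ε ≤ 1 wlog), C₁ from `typical_capH` with ε/2 (C₁ ≥ 1 wlog).
Fix lam, κ = 1/log(1/lam) > 0. Φ n = Sn n pi, D n = Sn n (deg² pi), Z n = Sn n 1 = |QF n| (4n+4)/(4n+4)!. Hypotheses of seq_close: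
D ≤ 49 Φ + C Φ(n+7): deg_sq_sum. Φ n² ≤ 12 κ Z n D n: Φ n = (1/N!) ∑_m Φ(m), Φ(m) = ∑_x pi x ≤ √(12 κ N · D(m)) (Phi_sq), Cauchy-Schwarz over
m ∈ QF n. Z n ≤ (4n+4) 9^(4n+4): card_QF_le. Φ n ≤ (4n+4) Z n: Phi_le_card, lam ≤ 1. 0 < Z n iff Quads n nonempty.
Given N, seq_close gives n ≥ N, QF n nonempty, Φ n ≤ C' κ Z n, i.e. ∑_{m∈QF n} ∑_T W T cap T ≤ C' κ |QF n| (4n+4) (sum_pi).
For every m ∈ QF n: #{T : capH T > C₁ κ} ≤ (ε/2)(4n+4) (typical_capH; planar by quad_planar). For the other T, W T ≥ min(1, 1/C₁) = 1/C₁.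
Markov: #{(m,T) : W T cap T > (2/ε) C' κ} ≤ (ε/2) |QF n| (4n+4). So #{(m,T) : cap T > (2/ε) C' C₁ κ} ≤ ε |QF n| (4n+4). By relabelling with
swap 0 T (cap_relabel, isQuad_relabel: a bijection of QF n) the number of m with cap at T > C κ does not depend on T, so
#{m ∈ QF n : cap at 0 > C κ} ≤ ε |QF n|: unifProb ≤ ε, with C = 2 C' C₁/ε (C κ = C / log(1/lam)).
-/

namespace UIPQ

open Finset

private theorem main_pi_nonneg {X : Type} [Fintype X] (m : CMap X) {lam κ : ℝ} (hl : 0 < lam) (hκ : 0 < κ) (x : X) :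
    0 ≤ m.pi lam κ x :=
  Finset.sum_nonneg fun T _ => mul_nonneg (W_pos m hl hκ T).le (be_nonneg m hl.le _ x)

theorem phi_seq {lam κ : ℝ} (hl : 0 < lam) (hκ : 0 < κ) (n : ℕ) :
    (Sn n (fun m x => m.pi lam κ x)) ^ 2 ≤ 12 * κ * Sn n (fun _ _ => 1) *
      Sn n (fun m x => (m.deg x : ℝ) ^ 2 * m.pi lam κ x) := by
  have hf : (0 : ℝ) < ((4 * n + 4).factorial : ℝ) := by exact_mod_cast Nat.factorial_pos _
  have h1 : (∑ m ∈ QF n, ∑ x, m.pi lam κ x) ^ 2 ≤
      (∑ m ∈ QF n, 12 * κ * ∑ _x : Fin (4 * n + 4), (1 : ℝ)) *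
        ∑ m ∈ QF n, ∑ x, (m.deg x : ℝ) ^ 2 * m.pi lam κ x := by
    refine sum_sq_le_sum_mul_sum_of_sq_le_mul (QF n) (fun m _ => ?_) (fun m _ => ?_) fun m _ => ?_
    · have : (0 : ℝ) ≤ ∑ _x : Fin (4 * n + 4), (1 : ℝ) := Finset.sum_nonneg fun _ _ => zero_le_one
      positivity
    · exact Finset.sum_nonneg fun x _ => mul_nonneg (sq_nonneg _) (main_pi_nonneg m hl hκ x)
    · have h2 := Phi_sq m hl hκ
      rw [Finset.sum_const, Finset.card_univ, nsmul_eq_mul, mul_one]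
      exact h2
  unfold Sn
  calc ((∑ m ∈ QF n, ∑ x, m.pi lam κ x) / ((4 * n + 4).factorial : ℝ)) ^ 2
      = (∑ m ∈ QF n, ∑ x, m.pi lam κ x) ^ 2 / ((4 * n + 4).factorial : ℝ) ^ 2 := div_pow _ _ _
    _ ≤ ((∑ m ∈ QF n, 12 * κ * ∑ _x : Fin (4 * n + 4), (1 : ℝ)) *
        ∑ m ∈ QF n, ∑ x, (m.deg x : ℝ) ^ 2 * m.pi lam κ x) / ((4 * n + 4).factorial : ℝ) ^ 2 :=
        div_le_div_of_nonneg_right h1 (by positivity)
    _ = _ := by
        rw [← Finset.mul_sum]
        field_simp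

/-- The probability at the root is the average over all darts. -/
theorem unifProb_eq (n : ℕ) (E : CMap (Fin (4 * n + 4)) → Fin (4 * n + 4) → Prop)
    (hE : ∀ m (e : Equiv.Perm (Fin (4 * n + 4))) x, E (m.relabel e) (e x) ↔ E m x) :
    unifProb n E * ((QF n).card * (4 * n + 4)) =
      ∑ m ∈ QF n, (({x | E m x} : Set (Fin (4 * n + 4))).ncard : ℝ) := by
  classical
  have h0 : ∀ x, ((QF n).filter (fun m => E m x)).card = ((QF n).filter (fun m => E m 0)).card := by
    intro x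
    have hinv : ∀ m : CMap (Fin (4 * n + 4)), (m.relabel (Equiv.swap 0 x)).relabel (Equiv.swap 0 x) = m := by
      intro m
      have h1 := relabel_trans m (Equiv.swap 0 x) (Equiv.swap 0 x)
      rw [h1]
      have h2 : (Equiv.swap 0 x).trans (Equiv.swap 0 x) = Equiv.refl (Fin (4 * n + 4)) := by
        ext z
        simp
      rw [h2, relabel_refl]
    symm
    refine Finset.card_bij (fun m _ => m.relabel (Equiv.swap 0 x)) ?_ ?_ ?_
    · intro m hm
      rw [mem_filter, mem_QF] at hm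
      rw [mem_filter, mem_QF]
      refine ⟨isQuad_relabel m _ hm.1, ?_⟩
      have h1 := (hE m (Equiv.swap 0 x) 0).2 hm.2
      rwa [Equiv.swap_apply_left] at h1
    · intro m _ m' _ h
      rw [← hinv m, ← hinv m']
      exact congrArg (fun q : CMap (Fin (4 * n + 4)) => q.relabel (Equiv.swap 0 x)) h
    · intro m hm
      rw [mem_filter, mem_QF] at hm
      refine ⟨m.relabel (Equiv.swap 0 x), ?_, hinv m⟩
      rw [mem_filter, mem_QF]
      refine ⟨isQuad_relabel m _ hm.1, ?_⟩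
      have h1 := (hE m (Equiv.swap 0 x) x).2 hm.2
      rwa [Equiv.swap_apply_right] at h1
  have h1 : ∀ m : CMap (Fin (4 * n + 4)), (({x | E m x} : Set (Fin (4 * n + 4))).ncard : ℝ) =
      ∑ x, if E m x then (1 : ℝ) else 0 := by
    intro m
    have h2 : ({x | E m x} : Set (Fin (4 * n + 4))).ncard = (univ.filter (fun x => E m x)).card := by
      rw [← Set.ncard_coe_finset]
      congr 1
      ext x
      simp
    rw [h2, Finset.card_filter]
    push_cast
    rfl
  simp only [h1]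
  rw [Finset.sum_comm]
  have h3 : ∀ x : Fin (4 * n + 4), ∑ m ∈ QF n, (if E m x then (1 : ℝ) else 0) =
      (((QF n).filter (fun m => E m 0)).card : ℝ) := by
    intro x
    rw [← h0 x, Finset.card_filter]
    push_cast
    rfl
  simp only [h3]
  rw [Finset.sum_const, Finset.card_univ, Fintype.card_fin, nsmul_eq_mul]
  have h4 : (Quads n).ncard = (QF n).card := by
    rw [← Set.ncard_coe_finset]
    congr 1
    ext m
    rw [Finset.mem_coe, mem_QF]
    rfl
  have h5 : ({m ∈ Quads n | E m 0} : Set (CMap (Fin (4 * n + 4)))).ncard = ((QF n).filter (fun m => E m 0)).card := by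
    rw [← Set.ncard_coe_finset]
    congr 1
    ext m
    rw [Finset.mem_coe, mem_filter, mem_QF]
    rfl
  unfold unifProb
  rw [h4, h5]
  rcases Nat.eq_zero_or_pos (QF n).card with hz | hz
  · have h6 : ((QF n).filter (fun m => E m 0)).card = 0 := by
      have := Finset.card_filter_le (QF n) (fun m => E m 0)
      omega
    rw [h6, hz]
    simp
  · have h7 : ((QF n).card : ℝ) ≠ 0 := by exact_mod_cast hz.ne'
    push_cast
    field_simp

theorem thmB : ∀ ε : ℝ, 0 < ε → ∃ C : ℝ, 0 < C ∧ ∀ lam : ℝ, 0 < lam → lam ≤ 1 / 2 →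
    ∀ N : ℕ, (∃ n ≥ N, (Quads n).Nonempty) → ∃ n ≥ N, (Quads n).Nonempty ∧
      unifProb n (fun m x => C / Real.log (1 / lam) < m.cap lam x) ≤ ε := by
  intro ε hε
  obtain ⟨C', hC', hseq⟩ := seq_close (49920 * 14 ^ 7) (by norm_num)
  obtain ⟨C₁, hC₁, htyp⟩ := typical_capH (ε / 2) (by linarith)
  obtain ⟨C₂, hC₂⟩ : ∃ C₂ : ℝ, C₂ = max C₁ 1 := ⟨_, rfl⟩
  have hC₂1 : 1 ≤ C₂ := by rw [hC₂]; exact le_max_right _ _
  have hC₂C : C₁ ≤ C₂ := by rw [hC₂]; exact le_max_left _ _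
  have hC₂0 : 0 < C₂ := by linarith
  refine ⟨2 * C' * C₂ / ε, by positivity, ?_⟩
  intro lam hl hl2 N hN
  obtain ⟨L, hL⟩ : ∃ L : ℝ, L = Real.log (1 / lam) := ⟨_, rfl⟩
  have hL0 : 0 < L := by
    rw [hL]
    apply Real.log_pos
    rw [lt_div_iff₀ hl]
    linarith
  obtain ⟨κ, hκ⟩ : ∃ κ : ℝ, κ = 1 / L := ⟨_, rfl⟩
  have hκ0 : 0 < κ := by rw [hκ]; positivity
  have hnn : ∀ n (F : CMap (Fin (4 * n + 4)) → Fin (4 * n + 4) → ℝ), (∀ m x, 0 ≤ F m x) → 0 ≤ Sn n F := by
    intro n F hF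
    exact div_nonneg (Finset.sum_nonneg fun m _ => Finset.sum_nonneg fun x _ => hF m x) (Nat.cast_nonneg _)
  have hZ : ∀ n, Sn n (fun _ _ => 1) = ((QF n).card : ℝ) * (4 * n + 4) / ((4 * n + 4).factorial : ℝ) := by
    intro n
    unfold Sn
    simp only [Finset.sum_const, Finset.card_univ, Fintype.card_fin, nsmul_eq_mul, mul_one]
    push_cast
    rfl
  have hfac : ∀ n : ℕ, (0 : ℝ) < ((4 * n + 4).factorial : ℝ) := fun n => by exact_mod_cast Nat.factorial_pos _
  have hZpos : ∀ n, (Quads n).Nonempty → 0 < Sn n (fun _ _ => 1) := by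
    rintro n ⟨m, hm⟩
    rw [hZ n]
    have h1 : 0 < (QF n).card := Finset.card_pos.2 ⟨m, mem_QF.2 hm⟩
    have h2 : (0 : ℝ) < (QF n).card := by exact_mod_cast h1
    have := hfac n
    positivity
  obtain ⟨n, hnN, hZn, hΦ⟩ := hseq κ hκ0 (fun n => Sn n (fun m x => m.pi lam κ x))
    (fun n => Sn n (fun m x => (m.deg x : ℝ) ^ 2 * m.pi lam κ x)) (fun n => Sn n (fun _ _ => 1))
    (fun n => hnn n _ fun m x => main_pi_nonneg m hl hκ0 x)
    (fun n => hnn n _ fun m x => mul_nonneg (sq_nonneg _) (main_pi_nonneg m hl hκ0 x))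
    (fun n => hnn n _ fun m x => zero_le_one)
    (fun n => deg_sq_sum hl hκ0 n) (fun n => phi_seq hl hκ0 n)
    (fun n => by
      show Sn n (fun _ _ => 1) ≤ _
      rw [hZ n, div_le_iff₀ (hfac n)]
      have h1 : ((QF n).card : ℝ) ≤ ((4 * n + 4).factorial : ℝ) * 9 ^ (4 * n + 4) := by
        exact_mod_cast card_QF_le n
      have h2 : (0 : ℝ) ≤ 4 * n + 4 := by positivity
      calc ((QF n).card : ℝ) * (4 * n + 4) ≤ (((4 * n + 4).factorial : ℝ) * 9 ^ (4 * n + 4)) * (4 * n + 4) :=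
            mul_le_mul_of_nonneg_right h1 h2
        _ = _ := by ring)
    (fun n => by
      show Sn n (fun m x => m.pi lam κ x) ≤ (4 * n + 4) * Sn n (fun _ _ => 1)
      rw [hZ n]
      unfold Sn
      rw [mul_div_assoc', div_le_div_iff_of_pos_right (hfac n)]
      have h1 : ∑ m ∈ QF n, ∑ x, m.pi lam κ x ≤ ∑ _m ∈ QF n, (4 * (n : ℝ) + 4) ^ 2 := by
        refine Finset.sum_le_sum fun m _ => ?_
        refine (Phi_le_card m hl hκ0).trans ?_
        rw [Fintype.card_fin]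
        push_cast
        have h2 : (0 : ℝ) ≤ (4 * (n : ℝ) + 4) ^ 2 := sq_nonneg _
        nlinarith
      refine h1.trans (le_of_eq ?_)
      rw [Finset.sum_const, nsmul_eq_mul]
      ring) N (by
      obtain ⟨n, hn, hne⟩ := hN
      exact ⟨n, hn, hZpos n hne⟩)
  have hQ : 0 < (QF n).card := by
    rcases Nat.eq_zero_or_pos (QF n).card with h | h
    · exfalso
      have h1 : Sn n (fun _ _ => 1) = 0 := by rw [hZ n, h]; simp
      exact absurd hZn (by rw [h1]; exact lt_irrefl _)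
    · exact h
  have hQ' : (0 : ℝ) < (QF n).card := by exact_mod_cast hQ
  refine ⟨n, hnN, ?_, ?_⟩
  · obtain ⟨m, hm⟩ := Finset.card_pos.1 hQ
    exact ⟨m, mem_QF.1 hm⟩
  -- the sum of the weighted capacities
  have hsum : ∑ m ∈ QF n, ∑ T, m.W lam κ T * m.cap lam T ≤ C' * κ * ((QF n).card * (4 * n + 4)) := by
    have h1 : Sn n (fun m x => m.pi lam κ x) ≤ C' * κ * Sn n (fun _ _ => 1) := hΦ
    rw [hZ n] at h1
    unfold Sn at h1
    rw [mul_div_assoc', div_le_div_iff_of_pos_right (hfac n)] at h1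
    refine le_trans (le_of_eq ?_) h1
    exact Finset.sum_congr rfl fun m _ => (sum_pi m hl κ).symm
  have hun := unifProb_eq n (fun m x => 2 * C' * C₂ / ε / Real.log (1 / lam) < m.cap lam x)
    (fun m e x => by rw [cap_relabel])
  have hN0 : (0 : ℝ) < 4 * (n : ℝ) + 4 := by positivity
  have hC3 : 2 * C' * C₂ / ε / Real.log (1 / lam) = 2 * C' * C₂ / ε * κ := by
    rw [hκ, ← hL]
    ring
  -- one map
  have hone : ∀ m ∈ QF n, (({x | 2 * C' * C₂ / ε / Real.log (1 / lam) < m.cap lam x} :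
      Set (Fin (4 * n + 4))).ncard : ℝ) * (2 * C' * κ / ε) ≤
      ε / 2 * (4 * n + 4) * (2 * C' * κ / ε) + ∑ T, m.W lam κ T * m.cap lam T := by
    intro m hm
    classical
    have ht := htyp (Fin (4 * n + 4)) m (quad_planar m (mem_QF.1 hm)) lam hl hl2
    rw [Fintype.card_fin] at ht
    push_cast at ht
    set A : Set (Fin (4 * n + 4)) := {x | C₁ / Real.log (1 / lam) < m.capH lam x} with hA
    set B : Finset (Fin (4 * n + 4)) := univ.filter (fun x =>
      ¬ (C₁ / Real.log (1 / lam) < m.capH lam x) ∧ 2 * C' * C₂ / ε / Real.log (1 / lam) < m.cap lam x) with hB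
    have h1 : ({x | 2 * C' * C₂ / ε / Real.log (1 / lam) < m.cap lam x} : Set (Fin (4 * n + 4))).ncard ≤
        A.ncard + B.card := by
      rw [← Set.ncard_coe_finset B]
      refine (Set.ncard_le_ncard ?_ (Set.toFinite _)).trans (Set.ncard_union_le A (B : Set (Fin (4 * n + 4))))
      intro x hx
      by_cases hxA : C₁ / Real.log (1 / lam) < m.capH lam x
      · exact Or.inl hxA
      · refine Or.inr ?_
        rw [Finset.mem_coe, hB, mem_filter]
        exact ⟨mem_univ _, hxA, hx⟩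
    have h1' : (({x | 2 * C' * C₂ / ε / Real.log (1 / lam) < m.cap lam x} : Set (Fin (4 * n + 4))).ncard : ℝ) ≤
        A.ncard + B.card := by exact_mod_cast h1
    have h2 : (B.card : ℝ) * (2 * C' * κ / ε) ≤ ∑ T, m.W lam κ T * m.cap lam T := by
      have h3 : ∑ _T ∈ B, (2 * C' * κ / ε) ≤ ∑ T ∈ B, m.W lam κ T * m.cap lam T := by
        refine Finset.sum_le_sum fun x hx => ?_
        rw [hB, mem_filter] at hx
        obtain ⟨-, hx1, hx2⟩ := hx
        rw [not_lt] at hx1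
        rw [hC3] at hx2
        have hcH : 0 < m.capH lam x := lt_of_lt_of_le hl (le_capH m hl x)
        have hcH2 : m.capH lam x ≤ C₂ * κ := by
          refine hx1.trans ?_
          rw [hκ, ← hL, div_eq_mul_one_div]
          exact mul_le_mul_of_nonneg_right hC₂C (by positivity)
        have hW1 : 1 / C₂ ≤ m.W lam κ x := by
          unfold CMap.W
          refine le_min ?_ ?_
          · rw [div_le_one hC₂0]
            exact hC₂1
          · rw [div_le_div_iff₀ hC₂0 hcH, one_mul]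
            linarith
        calc 2 * C' * κ / ε = 1 / C₂ * (2 * C' * C₂ / ε * κ) := by
              field_simp
          _ ≤ m.W lam κ x * m.cap lam x :=
              mul_le_mul hW1 hx2.le (by positivity) (le_trans (by positivity) hW1)
      rw [Finset.sum_const, nsmul_eq_mul] at h3
      refine h3.trans ?_
      refine Finset.sum_le_sum_of_subset_of_nonneg (Finset.subset_univ _) fun T _ _ => ?_
      exact mul_nonneg (W_pos m hl hκ0 T).le (cap_pos m hl T).le
    have hq : 0 < 2 * C' * κ / ε := by positivity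
    calc _ ≤ ((A.ncard : ℝ) + B.card) * (2 * C' * κ / ε) := mul_le_mul_of_nonneg_right h1' hq.le
      _ = (A.ncard : ℝ) * (2 * C' * κ / ε) + (B.card : ℝ) * (2 * C' * κ / ε) := by ring
      _ ≤ _ := add_le_add (mul_le_mul_of_nonneg_right ht hq.le) h2
  have hq : 0 < 2 * C' * κ / ε := by positivity
  have htot : (∑ m ∈ QF n, (({x | 2 * C' * C₂ / ε / Real.log (1 / lam) < m.cap lam x} :
      Set (Fin (4 * n + 4))).ncard : ℝ)) * (2 * C' * κ / ε) ≤
      (ε * ((QF n).card * (4 * n + 4))) * (2 * C' * κ / ε) := by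
    rw [Finset.sum_mul]
    refine (Finset.sum_le_sum hone).trans ?_
    rw [Finset.sum_add_distrib, Finset.sum_const, nsmul_eq_mul]
    have h4 : C' * κ * ((QF n).card * (4 * n + 4)) = ε / 2 * ((QF n).card * (4 * n + 4)) * (2 * C' * κ / ε) := by
      field_simp
    rw [h4] at hsum
    linarith
  rw [← hun] at htot
  have h5 := le_of_mul_le_mul_right htot hq
  exact le_of_mul_le_mul_right h5 (by positivity)

end UIPQ
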