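import Mathlib

/-!
# Orb: the number of cycles of a permutation after multiplication by a transposition

PROOF. σ' = σ * swap a b: σ' x = σ x for x ≠ a, b, σ' a = σ b, σ' b = σ a.
(1) a, b in different cycles of σ: then a and b are in the same cycle of σ': a → σ b → σ² b → ... → b (the points σ^i b, 1 ≤ i <
(period of b) are ≠ a, b, so σ' = σ on them). Hence x and σ x are in the same cycle of σ' for every x (for x = a: σ a = σ' b ~ b ~ a),
and the cycles of σ' are unions of cycles of σ. Conversely, if x, y are in the same cycle of σ' then they are in the same cycle of σ or both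
are in the union of the cycles of a and b (the relation {same cycle of σ, or both in the union} is an equivalence relation preserved
by σ'). So the quotient map from the cycles of σ to the cycles of σ' is surjective and identifies exactly the classes of a and b:
orb σ' + 1 = orb σ.
(2) a ≠ b in the same cycle of σ: let n > 0 be minimal with σ^n b = a. The set {σ^i b : 1 ≤ i ≤ n} contains a, not b (if σ^i b = b with
1 ≤ i ≤ n then a = σ^(n-i) b, contradiction with minimality or with a ≠ b), and it is stable under σ' (σ' a = σ b). So a and b are in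
different cycles of σ', and σ = σ' * swap a b: apply (1) to σ'.
`orb_mul_le`: induction on the number of moved points of β: if β = 1 trivial; otherwise take a with β a ≠ a, b = β a,
β' = swap a b * β is an involution which fixes a, b and agrees with β elsewhere; σ * β = (σ * swap a b) * β' and
orb (σ * swap a b) ≤ orb σ + 1.
-/

namespace UIPQ

open Equiv

variable {X : Type} [Fintype X] [DecidableEq X]

/-- The number of cycles (including the fixed points) of a permutation. -/
noncomputable def orb (σ : Perm X) : ℕ := Nat.card (Quotient (Perm.SameCycle.setoid σ))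

omit [Fintype X] [DecidableEq X] in
private theorem orb_ind (τ : Perm X) (R : X → X → Prop) (hr : ∀ x, R x x)
    (hs : ∀ x y, R x y → R y x) (ht : ∀ x y z, R x y → R y z → R x z)
    (h : ∀ x, R x (τ x)) {x y : X} (hxy : τ.SameCycle x y) : R x y := by
  obtain ⟨i, rfl⟩ := hxy
  induction i using Int.induction_on with
  | zero => simpa using hr x
  | succ i ih =>
    rw [add_comm, zpow_add, zpow_one, Perm.mul_apply]
    exact ht _ _ _ ih (h _)
  | pred i ih =>
    have h1 : τ ((τ ^ (-(i : ℤ) - 1)) x) = (τ ^ (-(i : ℤ))) x := by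
      rw [← Perm.mul_apply, ← zpow_one_add]
      congr 2
      ring
    have h2 := h ((τ ^ (-(i : ℤ) - 1)) x)
    rw [h1] at h2
    exact ht _ _ _ ih (hs _ _ h2)

omit [Fintype X] in
private theorem orb_sw (σ : Perm X) (a b x : X) (ha : x ≠ a) (hb : x ≠ b) :
    (σ * swap a b) x = σ x := by
  rw [Perm.mul_apply, swap_apply_of_ne_of_ne ha hb]

omit [Fintype X] in
private theorem orb_swa (σ : Perm X) (a b : X) : (σ * swap a b) a = σ b := by
  rw [Perm.mul_apply, swap_apply_left]

omit [Fintype X] in
private theorem orb_swb (σ : Perm X) (a b : X) : (σ * swap a b) b = σ a := by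
  rw [Perm.mul_apply, swap_apply_right]

private theorem orb_joined (σ : Perm X) (a b : X) (h : ¬ σ.SameCycle a b) :
    (σ * swap a b).SameCycle a b := by
  classical
  have hex : ∃ n : ℕ, 0 < n ∧ (σ ^ n) b = b :=
    ⟨orderOf σ, orderOf_pos σ, by rw [pow_orderOf_eq_one]; rfl⟩
  have hn := Nat.find_spec hex
  have hmin := fun m => Nat.find_min (m := m) hex
  set n := Nat.find hex with hndef
  have key : ∀ i : ℕ, i + 1 ≤ n → ((σ * swap a b) ^ (i + 1)) a = (σ ^ (i + 1)) b := by
    intro i
    induction i with
    | zero =>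
      intro _
      rw [zero_add, pow_one, pow_one, orb_swa]
    | succ i ih =>
      intro hi
      rw [pow_succ', Perm.mul_apply, ih (by omega), pow_succ' σ (i + 1), Perm.mul_apply]
      refine orb_sw σ a b _ (fun h1 => h ?_) (fun h1 => ?_)
      · have h2 : σ.SameCycle b a := ⟨(i + 1 : ℕ), by rw [zpow_natCast]; exact h1⟩
        exact h2.symm
      · exact hmin (i + 1) (by omega) ⟨by omega, h1⟩
  have h1 := key (n - 1) (by omega)
  rw [Nat.sub_add_cancel hn.1, hn.2] at h1
  exact ⟨(n : ℕ), by rw [zpow_natCast]; exact h1⟩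

theorem orb_swap_diff (σ : Perm X) (a b : X) (h : ¬ σ.SameCycle a b) :
    orb (σ * swap a b) + 1 = orb σ := by
  classical
  have hab := orb_joined σ a b h
  -- the cycles of σ' are unions of cycles of σ
  have h1 : ∀ x y, σ.SameCycle x y → (σ * swap a b).SameCycle x y := by
    intro x y hxy
    refine orb_ind σ (fun x y => (σ * swap a b).SameCycle x y) (fun x => Perm.SameCycle.refl _ _)
      (fun x y h => h.symm) (fun x y z h h' => h.trans h') (fun x => ?_) hxy
    by_cases hxa : x = a
    · subst hxa
      refine hab.trans ?_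
      rw [← orb_swb σ x b]
      exact (Perm.sameCycle_apply_right).2 (Perm.SameCycle.refl _ _)
    · by_cases hxb : x = b
      · subst hxb
        refine hab.symm.trans ?_
        rw [← orb_swa σ a x]
        exact (Perm.sameCycle_apply_right).2 (Perm.SameCycle.refl _ _)
      · rw [← orb_sw σ a b x hxa hxb]
        exact (Perm.sameCycle_apply_right).2 (Perm.SameCycle.refl _ _)
  have h2 : ∀ x y, (σ * swap a b).SameCycle x y → σ.SameCycle x y ∨
      ((σ.SameCycle a x ∨ σ.SameCycle b x) ∧ (σ.SameCycle a y ∨ σ.SameCycle b y)) := by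
    intro x y hxy
    refine orb_ind (σ * swap a b) (fun x y => σ.SameCycle x y ∨
      ((σ.SameCycle a x ∨ σ.SameCycle b x) ∧ (σ.SameCycle a y ∨ σ.SameCycle b y)))
      (fun x => Or.inl (Perm.SameCycle.refl _ _)) ?_ ?_ ?_ hxy
    · rintro x y (h | h)
      · exact Or.inl h.symm
      · exact Or.inr ⟨h.2, h.1⟩
    · rintro x y z (h | ⟨h, h'⟩) (k | ⟨k, k'⟩)
      · exact Or.inl (h.trans k)
      · refine Or.inr ⟨?_, k'⟩
        rcases k with k | k
        · exact Or.inl (k.trans h.symm)
        · exact Or.inr (k.trans h.symm)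
      · refine Or.inr ⟨h, ?_⟩
        rcases h' with h' | h'
        · exact Or.inl (h'.trans k)
        · exact Or.inr (h'.trans k)
      · exact Or.inr ⟨h, k'⟩
    · intro x
      by_cases hxa : x = a
      · subst hxa
        rw [orb_swa]
        exact Or.inr ⟨Or.inl (Perm.SameCycle.refl _ _),
          Or.inr ((Perm.sameCycle_apply_right).2 (Perm.SameCycle.refl _ _))⟩
      · by_cases hxb : x = b
        · subst hxb
          rw [orb_swb]
          exact Or.inr ⟨Or.inr (Perm.SameCycle.refl _ _),
            Or.inl ((Perm.sameCycle_apply_right).2 (Perm.SameCycle.refl _ _))⟩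
        · rw [orb_sw σ a b x hxa hxb]
          exact Or.inl ((Perm.sameCycle_apply_right).2 (Perm.SameCycle.refl _ _))
  -- counting
  let q : Quotient (Perm.SameCycle.setoid σ) →
      Quotient (Perm.SameCycle.setoid (σ * swap a b)) :=
    Quotient.map' id (fun x y hxy => h1 x y hxy)
  have hq : ∀ x, q (Quotient.mk _ x) = Quotient.mk _ x := fun x => rfl
  let A : Quotient (Perm.SameCycle.setoid σ) := Quotient.mk _ a
  have hbA : (Quotient.mk _ b : Quotient (Perm.SameCycle.setoid σ)) ≠ A := fun hba =>
    h (Quotient.exact hba).symm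
  have hbij : Function.Bijective (fun c : {c // c ≠ A} => q c.1) := by
    constructor
    · rintro ⟨c, hc⟩ ⟨c', hc'⟩ hcc
      induction c using Quotient.inductionOn with
      | h x =>
      induction c' using Quotient.inductionOn with
      | h y =>
      have h3 : (σ * swap a b).SameCycle x y := Quotient.exact hcc
      refine Subtype.ext (Quotient.sound ?_)
      rcases h2 x y h3 with h4 | ⟨h4, h5⟩
      · exact h4
      · have h6 : σ.SameCycle b x := h4.resolve_left fun h7 => hc (Quotient.sound h7.symm)
        have h7 : σ.SameCycle b y := h5.resolve_left fun h7 => hc' (Quotient.sound h7.symm)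
        exact h6.symm.trans h7
    · intro c
      induction c using Quotient.inductionOn with
      | h x =>
      by_cases hx : (Quotient.mk _ x : Quotient (Perm.SameCycle.setoid σ)) = A
      · refine ⟨⟨Quotient.mk _ b, hbA⟩, ?_⟩
        change (Quotient.mk _ b : Quotient (Perm.SameCycle.setoid (σ * swap a b))) = _
        refine Quotient.sound ?_
        have h3 : σ.SameCycle x a := Quotient.exact hx
        exact ((h1 _ _ h3).trans hab).symm
      · exact ⟨⟨Quotient.mk _ x, hx⟩, rfl⟩
  unfold orb
  rw [← Nat.card_congr (Equiv.optionSubtypeNe A), Finite.card_option,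
    Nat.card_congr (Equiv.ofBijective _ hbij)]

private theorem orb_split (σ : Perm X) (a b : X) (hab : a ≠ b) (h : σ.SameCycle a b) :
    ¬ (σ * swap a b).SameCycle a b := by
  classical
  have hex : ∃ n : ℕ, 0 < n ∧ (σ ^ n) b = a := by
    obtain ⟨i, hi, -, hi'⟩ := h.symm.exists_pow_eq''
    exact ⟨i, hi, hi'⟩
  have hn := Nat.find_spec hex
  have hmin := fun m => Nat.find_min (m := m) hex
  set n := Nat.find hex with hndef
  have hnb : ∀ i, 1 ≤ i → i ≤ n → (σ ^ i) b ≠ b := by
    intro i hi hin hb
    rcases Nat.eq_or_lt_of_le hin with h1 | h1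
    · rw [h1, hn.2] at hb
      exact hab hb
    · refine hmin (n - i) (by omega) ⟨by omega, ?_⟩
      have h2 : (σ ^ (n - i)) ((σ ^ i) b) = a := by
        rw [← Perm.mul_apply, ← pow_add, Nat.sub_add_cancel hin, hn.2]
      rwa [hb] at h2
  let P : X → Prop := fun x => ∃ i, 1 ≤ i ∧ i ≤ n ∧ x = (σ ^ i) b
  have hP : ∀ x, P x → P ((σ * swap a b) x) := by
    rintro x ⟨i, hi, hin, rfl⟩
    rcases Nat.eq_or_lt_of_le hin with h1 | h1
    · rw [h1, hn.2, orb_swa]
      exact ⟨1, le_rfl, hn.1, by rw [pow_one]⟩
    · rw [orb_sw σ a b _ (fun h2 => hmin i h1 ⟨by omega, h2⟩) (hnb i hi hin)]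
      exact ⟨i + 1, by omega, by omega, by rw [pow_succ', Perm.mul_apply]⟩
  have hP' : ∀ x, P ((σ * swap a b) x) → P x := by
    intro x hx
    have h1 := Perm.perm_symm_on_of_perm_on_finite hP hx
    rwa [Equiv.symm_apply_apply] at h1
  intro hs
  have h3 : P a ↔ P b := orb_ind (σ * swap a b) (fun x y => (P x ↔ P y)) (fun x => Iff.rfl)
    (fun x y h => h.symm) (fun x y z h h' => h.trans h') (fun x => ⟨hP x, hP' x⟩) hs
  obtain ⟨i, hi, hin, hib⟩ := h3.1 ⟨n, hn.1, le_rfl, hn.2.symm⟩
  exact hnb i hi hin hib.symm

theorem orb_swap_same (σ : Perm X) (a b : X) (hab : a ≠ b) (h : σ.SameCycle a b) :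
    orb (σ * swap a b) = orb σ + 1 := by
  have h1 := orb_swap_diff (σ * swap a b) a b (orb_split σ a b hab h)
  rw [mul_assoc, swap_mul_self, mul_one] at h1
  exact h1.symm

theorem orb_mul_le (σ β : Perm X) (hβ : ∀ x, β (β x) = x) :
    2 * orb (σ * β) ≤ 2 * orb σ + (Finset.univ.filter (fun x => β x ≠ x)).card := by
  classical
  obtain ⟨c, hc⟩ : ∃ c, c = (Finset.univ.filter (fun x => β x ≠ x)).card := ⟨_, rfl⟩
  induction c using Nat.strong_induction_on generalizing σ β with
  | _ c ih =>
  by_cases h0 : ∀ x, β x = x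
  · have h1 : β = 1 := Equiv.ext h0
    rw [h1, mul_one]
    omega
  · push Not at h0
    obtain ⟨a, ha⟩ := h0
    obtain ⟨b, hb⟩ : ∃ b, b = β a := ⟨_, rfl⟩
    have hba : β b = a := by rw [hb, hβ]
    have hab : a ≠ b := fun h => ha (by rw [← hb, ← h])
    have h1 : ∀ x, x ≠ a → x ≠ b → (swap a b * β) x = β x := by
      intro x hxa hxb
      rw [Perm.mul_apply, swap_apply_of_ne_of_ne]
      · intro h2
        apply hxb
        rw [← hβ x, h2, hb]
      · intro h2
        apply hxa
        rw [← hβ x, h2, hba]
    have h2 : (swap a b * β) a = a := by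
      rw [Perm.mul_apply, ← hb, swap_apply_right]
    have h3 : (swap a b * β) b = b := by
      rw [Perm.mul_apply, hba, swap_apply_left]
    have h4 : ∀ x, (swap a b * β) ((swap a b * β) x) = x := by
      intro x
      by_cases hxa : x = a
      · rw [hxa, h2, h2]
      · by_cases hxb : x = b
        · rw [hxb, h3, h3]
        · rw [h1 x hxa hxb, h1, hβ]
          · intro h5
            exact hxb (by rw [← hβ x, h5, hb])
          · intro h5
            exact hxa (by rw [← hβ x, h5, hba])
    have h5 : Finset.univ.filter (fun x => (swap a b * β) x ≠ x) =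
        ((Finset.univ.filter (fun x => β x ≠ x)).erase a).erase b := by
      ext x
      rw [Finset.mem_erase, Finset.mem_erase, Finset.mem_filter, Finset.mem_filter]
      constructor
      · rintro ⟨_, h6⟩
        have hxa : x ≠ a := fun h => h6 (by rw [h, h2])
        have hxb : x ≠ b := fun h => h6 (by rw [h, h3])
        rw [h1 x hxa hxb] at h6
        exact ⟨hxb, hxa, Finset.mem_univ _, h6⟩
      · rintro ⟨hxb, hxa, _, h6⟩
        refine ⟨Finset.mem_univ _, ?_⟩
        rwa [h1 x hxa hxb]
    have h6 : a ∈ Finset.univ.filter (fun x => β x ≠ x) :=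
      Finset.mem_filter.2 ⟨Finset.mem_univ _, ha⟩
    have h7 : b ∈ (Finset.univ.filter (fun x => β x ≠ x)).erase a := by
      refine Finset.mem_erase.2 ⟨hab.symm, Finset.mem_filter.2 ⟨Finset.mem_univ _, ?_⟩⟩
      rw [hba]
      exact hab
    have h8 := Finset.card_erase_add_one h6
    have h9 := Finset.card_erase_add_one h7
    rw [← h5] at h9
    have h10 := ih _ (by omega) (σ * swap a b) (swap a b * β) h4 rfl
    have h11 : σ * swap a b * (swap a b * β) = σ * β := by
      rw [mul_assoc, ← mul_assoc (swap a b), swap_mul_self, one_mul]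
    rw [h11] at h10
    have h12 : orb (σ * swap a b) ≤ orb σ + 1 := by
      by_cases hs : σ.SameCycle a b
      · exact (orb_swap_same σ a b hab hs).le
      · have := orb_swap_diff σ a b hs
        omega
    omega

end UIPQ
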