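import Pool.Agent.Lib.UIPQ.B.Orb
import Pool.Agent.Lib.UIPQ.BDefs

/-!
# Tree: spanning trees, as involutions

PROOF. Consider the permutations α with: α is an involution, and for every x, α x = x or α x = k x; and
2 * orb (r * α) + #{x : α x ≠ x} = 2 * orb r (every transposition merges two cycles). α = 1 is one of them. Take one with the largest
number of moved points (equivalently the smallest orb (r * α)). CLAIM orb (r * α) = 1 =: ζ = r * α has one cycle. If not, there is x with x and
k x in different cycles of ζ: otherwise the cycle-equivalence of ζ is stable under k, hence under α (α x ∈ {x, k x}), hence under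
r = ζ * α (α² = 1): x ~ α x... precisely r x = ζ (α x) ~ α x ~ x; as m is connected there is only one class. For this x, α x = x (if α x =
k x then... x and α x: need x, k x in different cycles of ζ but α x = k x: then x and k x are in the same cycle of r * α? this holds:
remove the transposition (x k x) from α: α' = α * swap x (k x), r * α' = ζ * swap x (k x); by the counting identity and
orb_mul_le every transposition of α merges, i.e. orb ζ + 1 = orb (ζ * swap x (k x)), so by Orb x and k x are in the same cycle of ζ).
So α x = x, α (k x) = k x, and α * swap x (k x) has more moved points and still satisfies the identity (orb_swap_diff). Contradiction.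
[For the parenthesis: #moved of α' is 2 less; orb_mul_le (σ := r, β := α') gives orb (r*α') ≤ ... is the wrong direction; use instead the
lower bound 2 * orb (σ * β) ≥ 2 * orb σ - #moved, which is orb_mul_le applied to σ * β and β: 2 orb σ ≤ 2 orb (σ * β) + #moved. With β = α':
2 orb (r α') ≥ 2 orb r - #moved α' = 2 orb ζ + 2. So orb (ζ * swap x (k x)) ≥ orb ζ + 1 and by orb_swap_diff x and k x are in the same cycle.]
β := α * k: β x = α (k x): if α x = k x then β x = x... (α (k x) = x); if α x = x then α (k x) = k x and β x = k x. So β is an involution,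
α x = x or β x = x, k = α * β, #{β x ≠ x} = |X| - #{α x ≠ x}. f = r * k = r * α * β = ζ * β, r = ζ * α.
#{α x ≠ x} = 2 orb r - 2 orb ζ = 2 (V - 1). If m is planar, #{β ≠} = |X| - 2 (V-1) = 2 (F - 1) and orb (ζ * β) = orb f = F.
-/

namespace UIPQ

open Equiv Finset

variable {X : Type} [Fintype X] [DecidableEq X]

/-- the number of moved points -/
private def mv (α : Perm X) : ℕ := (univ.filter (fun x => α x ≠ x)).card

omit [Fintype X] in
private theorem invol_swap (α : Perm X) (a b : X) (hab : a ≠ b) (hα : ∀ x, α (α x) = x)
    (ha : α a = a) (hb : α b = b) (x : X) : (α * swap a b) ((α * swap a b) x) = x := by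
  simp only [Perm.mul_apply]
  by_cases h1 : x = a
  · subst h1
    rw [swap_apply_left, hb, swap_apply_right, ha]
  · by_cases h2 : x = b
    · subst h2
      rw [swap_apply_right, ha, swap_apply_left, hb]
    · have h3 : α x ≠ a := fun h => h1 (by rw [← hα x, h, ha])
      have h4 : α x ≠ b := fun h => h2 (by rw [← hα x, h, hb])
      rw [swap_apply_of_ne_of_ne h1 h2, swap_apply_of_ne_of_ne h3 h4, hα]

private theorem mv_swap (α : Perm X) (a b : X) (hab : a ≠ b) (ha : α a = a) (hb : α b = b) :
    mv (α * swap a b) = mv α + 2 := by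
  unfold mv
  have h1 : univ.filter (fun x => (α * swap a b) x ≠ x) =
      insert a (insert b (univ.filter (fun x => α x ≠ x))) := by
    ext x
    have key : (α * swap a b) x ≠ x ↔ x = a ∨ x = b ∨ α x ≠ x := by
      rw [Perm.mul_apply]
      by_cases h1 : x = a
      · subst h1
        rw [swap_apply_left, hb]
        simp [hab.symm]
      · by_cases h2 : x = b
        · subst h2
          rw [swap_apply_right, ha]
          simp [hab]
        · rw [swap_apply_of_ne_of_ne h1 h2]
          simp [h1, h2]
    rw [mem_insert, mem_insert, mem_filter, mem_filter, key]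
    simp only [mem_univ, true_and]
  rw [h1, card_insert_of_notMem, card_insert_of_notMem]
  · simp [hb]
  · simp [hab, ha]

theorem exists_tree (m : CMap X) [Nonempty X] (hm : m.Planar) :
    ∃ ζ α β : Perm X, (∀ x y, ζ.SameCycle x y) ∧ (∀ x, α (α x) = x) ∧ (∀ x, β (β x) = x) ∧
      m.r = ζ * α ∧ m.k = α * β ∧
      2 * orb (ζ * α) = (univ.filter (fun x => α x ≠ x)).card + 2 ∧
      2 * orb (ζ * β) = (univ.filter (fun x => β x ≠ x)).card + 2 := by
  classical
  -- the admissible involutions
  obtain ⟨P, hP⟩ : ∃ P : Perm X → Prop, ∀ α, P α ↔ (∀ x, α (α x) = x) ∧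
      (∀ x, α x = x ∨ α x = m.k x) ∧ 2 * orb (m.r * α) + mv α = 2 * orb m.r :=
    ⟨_, fun _ => Iff.rfl⟩
  have hne : (univ.filter P).Nonempty := by
    refine ⟨1, ?_⟩
    rw [mem_filter]
    refine ⟨mem_univ _, (hP 1).2 ⟨fun x => rfl, fun x => Or.inl rfl, ?_⟩⟩
    have : mv (1 : Perm X) = 0 := by simp [mv]
    rw [this, mul_one, add_zero]
  obtain ⟨α, hα1, hmax⟩ := exists_max_image (univ.filter P) mv hne
  obtain ⟨hinv, hk, hid⟩ := (hP α).1 (mem_filter.1 hα1).2
  have hmul : α * α = 1 := Perm.ext fun x => hinv x
  -- if `α x = x` then also `α (k x) = k x`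
  have hfix : ∀ x, α x = x → α (m.k x) = m.k x := by
    intro x hx
    rcases hk (m.k x) with h | h
    · exact h
    · rw [m.k_k] at h
      exfalso
      have h1 := hinv (m.k x)
      rw [h, hx] at h1
      exact m.k_ne x h1.symm
  obtain ⟨ζ, hζ⟩ : ∃ ζ, ζ = m.r * α := ⟨_, rfl⟩
  have hr : m.r = ζ * α := by rw [hζ, mul_assoc, hmul, mul_one]
  have hxk : ∀ x, ζ.SameCycle x (m.k x) := by
    intro x
    by_contra hcon
    have hne' : x ≠ m.k x := fun h => m.k_ne x h.symm
    have horb := orb_swap_diff ζ x (m.k x) hcon
    have hαx : α x = x := by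
      by_contra hx
      have hx' : α x = m.k x := (hk x).resolve_left hx
      have hkx : α (m.k x) = x := by rw [← hx', hinv]
      obtain ⟨α', hα'⟩ : ∃ α', α' = α * swap x (m.k x) := ⟨_, rfl⟩
      have h1 : α' x = x := by rw [hα', Perm.mul_apply, swap_apply_left, hkx]
      have h2 : α' (m.k x) = m.k x := by rw [hα', Perm.mul_apply, swap_apply_right, hx']
      have h3 : α = α' * swap x (m.k x) := by
        rw [hα', mul_assoc, swap_mul_self, mul_one]
      have h4 : ∀ y, α' (α' y) = y := by
        intro y
        by_cases e1 : y = x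
        · rw [e1, h1, h1]
        · by_cases e2 : y = m.k x
          · rw [e2, h2, h2]
          · have e3 : α' y = α y := by rw [hα', Perm.mul_apply, swap_apply_of_ne_of_ne e1 e2]
            have e4 : α y ≠ x := fun h => e2 (by rw [← hinv y, h, hx'])
            have e5 : α y ≠ m.k x := fun h => e1 (by rw [← hinv y, h, hkx])
            rw [e3, hα', Perm.mul_apply, swap_apply_of_ne_of_ne e4 e5, hinv]
      have h5 : mv α = mv α' + 2 := by
        conv_lhs => rw [h3]
        exact mv_swap α' x (m.k x) hne' h1 h2
      have h6 := orb_mul_le (m.r * α') α' h4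
      have h7 : m.r * α' * α' = m.r := by
        rw [mul_assoc, show α' * α' = 1 from Perm.ext fun y => h4 y, mul_one]
      rw [h7] at h6
      change 2 * orb m.r ≤ 2 * orb (m.r * α') + mv α' at h6
      have h8 : m.r * α' = ζ * swap x (m.k x) := by rw [hα', hζ, mul_assoc]
      rw [h8] at h6
      rw [← hζ] at hid
      omega
    have hαk := hfix x hαx
    have hP' : P (α * swap x (m.k x)) := by
      refine (hP _).2 ⟨invol_swap α x (m.k x) hne' hinv hαx hαk, fun y => ?_, ?_⟩
      · rw [Perm.mul_apply]
        by_cases e1 : y = x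
        · subst e1
          right
          rw [swap_apply_left, hαk]
        · by_cases e2 : y = m.k x
          · subst e2
            right
            rw [swap_apply_right, hαx, m.k_k]
          · rw [swap_apply_of_ne_of_ne e1 e2]
            exact hk y
      · rw [mv_swap α x (m.k x) hne' hαx hαk, ← mul_assoc, ← hζ]
        rw [← hζ] at hid
        omega
    have h9 := hmax _ (mem_filter.2 ⟨mem_univ _, hP'⟩)
    rw [mv_swap α x (m.k x) hne' hαx hαk] at h9
    omega
  have hone : ∀ x y, ζ.SameCycle x y := by
    have hα' : ∀ x, ζ.SameCycle x (α x) := by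
      intro x
      rcases hk x with h | h
      · rw [h]
      · rw [h]
        exact hxk x
    have hr' : ∀ x, ζ.SameCycle x (m.r x) := by
      intro x
      have h1 : m.r x = ζ (α x) := by
        conv_lhs => rw [hr]
        rfl
      rw [h1]
      exact (hα' x).trans (Perm.sameCycle_apply_right.2 (Perm.SameCycle.refl _ _))
    intro x y
    have h2 := hm.conn x y
    induction h2 with
    | rel a b h =>
      rcases h with h | h
      · rw [h]; exact hr' a
      · rw [h]; exact hxk a
    | refl a => exact Perm.SameCycle.refl _ _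
    | symm a b _ ih => exact ih.symm
    | trans a b c _ _ ih1 ih2 => exact ih1.trans ih2
  have horb1 : orb ζ = 1 := by
    unfold orb
    rw [Nat.card_eq_one_iff_unique]
    refine ⟨⟨fun a b => ?_⟩, ?_⟩
    · induction a using Quotient.inductionOn with
      | h a =>
        induction b using Quotient.inductionOn with
        | h b => exact Quotient.sound (hone a b)
    · exact ⟨Quotient.mk _ (Classical.arbitrary X)⟩
  have hβ : ∀ x, (α x = x → (α * m.k) x = m.k x) ∧ (α x ≠ x → (α * m.k) x = x) := by
    intro x
    refine ⟨fun h => hfix x h, fun h => ?_⟩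
    have h1 : α x = m.k x := (hk x).resolve_left h
    rw [Perm.mul_apply, ← h1, hinv]
  have hVorb : orb m.r = Nat.card m.Vertex := rfl
  have hmα : 2 * orb m.r = mv α + 2 := by
    rw [← hζ, horb1] at hid
    omega
  have hmβ : mv (α * m.k) + mv α = Fintype.card X := by
    unfold mv
    have h1 : univ.filter (fun x => (α * m.k) x ≠ x) = univ.filter (fun x => ¬ (α x ≠ x)) := by
      ext x
      simp only [mem_filter, mem_univ, true_and, not_not]
      constructor
      · intro h
        by_contra h2
        exact h ((hβ x).2 h2)
      · intro h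
        rw [(hβ x).1 h]
        exact m.k_ne x
    rw [h1, add_comm, card_filter_add_card_filter_not]
    rfl
  refine ⟨ζ, α, α * m.k, hone, hinv, fun x => ?_, hr, ?_, ?_, ?_⟩
  · by_cases h : α x = x
    · rw [(hβ x).1 h, Perm.mul_apply, m.k_k, h]
    · rw [(hβ x).2 h, (hβ x).2 h]
  · rw [← mul_assoc, hmul, one_mul]
  · rw [← hr]
    exact hmα
  · have h1 : ζ * (α * m.k) = m.f := by
      rw [← mul_assoc, ← hr]
      rfl
    rw [h1]
    have h2 : orb m.f = Nat.card m.Face := rfl
    have h3 := hm.euler
    rw [← hVorb, ← h2, Nat.card_eq_fintype_card] at h3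
    change 2 * orb m.f = mv (α * m.k) + 2
    omega

end UIPQ
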